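import Pool.Agent.MinSig.Low

/-!
# MinSig CasB: the case of finitely many infinite blocks

PROOF.  Let `V = growthRate (gens base)`.  By `(hB).1` the set of the `n` with `σ n = none` is
finite; let `Y` be this set as a Finset, `X = (Y : Set ℕ)ᶜ`, `T` from `split σ Y`.
CLAIM: `growthRate (gens (mk' (K σ X))) ≤ V`.  Use `growthRate_le_of_freq` with `S' = gens base`:
let `N` be given.  By `(hB).2` for `N₀ = 4 N + 4` there is `M ≥ 4 N + 4` such that
`∀ n ≤ M, ∀ m, σ n = some m → m ≤ M`.  Let `R = (dd (M + 1) - 1) / 4`,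
`X' = (range (M + 1)).filter (fun n => σ n ≠ none)`.  `dd (M + 1) > M + 1 > 4 N + 4` (`lt_dd`), so
`R ≥ N`; `4 R ≤ dd (M + 1) - 1 < dd (M + 1)` and `dd (M + 1) ≤ 4 R + 4 ≤ 4 R + 8`.  For `n ∈ X`,
`n ∉ X'`: `σ n ≠ none`, so `n ≥ M + 1` and `4 R < dd (M + 1) ≤ dd n` (`dd_strictMono`).  So
`short` gives `growthFn (gens (mk' ..)) R ≤ growthFn (gens base) R * ∏ ..` and the product is at
most `dd (M + 1) ≤ 4 R + 8` (`card_block_le`).
Hence for all `x > V` (`V > 6`, `six_lt`): `growthRate T ≤ x` (`split`); so `growthRate T ≤ V`,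
and `growthRate T = V = minGrowthRate (Gr σ)` by `V_le` and `min_eq`.
-/

set_option autoImplicit false

namespace Pool.Agent.MinSig

open Pool.Agent.MinGrowth

theorem caseB {σ : ℕ → Option ℕ} (hB : CaseB σ) : AttainsMinGrowth (Gr σ) := by
  obtain ⟨⟨N1, hN1⟩, hB2⟩ := hB
  have hY : ∀ n, n ∈ (Finset.range N1).filter (fun n => σ n = none) ↔ σ n = none := by
    intro n
    rw [Finset.mem_filter, Finset.mem_range]
    refine ⟨fun h => h.2, fun h => ⟨?_, h⟩⟩
    by_contra h1
    exact hN1 n (not_lt.1 h1) h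
  obtain ⟨Y, hYe⟩ : ∃ Y : Finset ℕ, Y = (Finset.range N1).filter (fun n => σ n = none) := ⟨_, rfl⟩
  rw [← hYe] at hY
  obtain ⟨T, hT, hx⟩ := split σ Y
  have key : growthRate (gens (QuotientGroup.mk' (K σ ((Y : Set ℕ)ᶜ)))) ≤
      growthRate (gens base) := by
    refine growthRate_le_of_freq fun N => ?_
    obtain ⟨M, hM, hσ⟩ := hB2 (4 * N + 4)
    have h1 := lt_dd (M + 1)
    obtain ⟨R, hR⟩ : ∃ R, R = (dd (M + 1) - 1) / 4 := ⟨_, rfl⟩
    have h4 : 4 * R < dd (M + 1) := by omega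
    have h5 : dd (M + 1) ≤ 4 * R + 8 := by omega
    refine ⟨R, by omega, ?_⟩
    have h6 := short (σ := σ) (X := (Y : Set ℕ)ᶜ) (R := R)
      ((Finset.range (M + 1)).filter fun n => σ n ≠ none)
      (fun n hn => (Finset.mem_filter.1 hn).2) (by
        intro n hn hn'
        have h7 : σ n ≠ none := fun h => hn (Finset.mem_coe.2 ((hY n).2 h))
        have h8 : M + 1 ≤ n := by
          by_contra h9
          exact hn' (Finset.mem_filter.2 ⟨Finset.mem_range.2 (by omega), h7⟩)
        exact h4.trans_le (dd_strictMono.monotone h8))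
    exact h6.trans (Nat.mul_le_mul_left _ ((card_block_le hσ).trans h5))
  have hV := six_lt
  have h : growthRate T ≤ growthRate (gens base) :=
    le_of_forall_gt_imp_ge_of_dense fun x hx' => hx x (by linarith) (key.trans_lt hx')
  refine ⟨T, hT, ?_⟩
  rw [min_eq]
  exact le_antisymm h (V_le hT)

end Pool.Agent.MinSig
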