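import Pool.Agent.MinSig.QEval

/-!
# MinSig QConv: the finite groups `Q (some m)` converge to the free product

PROOF.
(1) UNIVERSAL PROPERTY.  Let `H` be a group and `f : Bool → (A5 →* H)`.  Define (private)
`evH f : List (Bool × A5) → H` by `evH f [] = 1`, `evH f (x :: l) = f x.1 x.2 * evH f l`.  As in
`ev_raw`: `evH f (raw none c a l) = f c a * evH f l`.  Let `Φ g = evH f (g.1 (emp none)).1`.  For
all
`g : Q none`: for all `l : Om none`, `evH f (g.1 l).1 = Φ g * evH f l.1` (closure induction with
`jj_closure`: for `g = jj none c a` both sides are `f c a * evH f l` since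
`raw none c a [] ` has value `f c a`; products: `evH f (g.1 (h.1 l)) = Φ g * (Φ h * evH f l)` and
with
`l = []`: `Φ (g * h) = Φ g * Φ h`; inverses: similarly).  So `Φ` is a homomorphism with
`Φ (jj none c a) = f c a`.
(2) With `H = Q (some m)`, `f c = jj (some m) c`: `Φ (alpha none i) = alpha (some m) i`, so
`Φ ∘ lam none = lam (some m)` (`FreeGroup.ext_hom`), and `lam none v = 1` implies
`lam (some m) v = 1`, for all `m`.
(3) Let `v = FreeGroup.mk L`, `k = L.length`, `m ≥ k`.  By induction on `L` (from the left:
`mk (x :: L) = mk [x] * mk L`) the words `((lam (some m) v).1 emp).1` and `((lam none v).1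
emp).1` are
equal and have length at most `k`: a letter acts as `raw μ c a` with `a = ax^±1, ay^±1`
(`alpha_jj` or the definition), and `raw (some m) c a l = raw none c a l` if `l.length < m`; the
length
grows at most by one.  So if `lam (some m) v = 1` then `lam none v` fixes the empty word, and
`ev_act` gives `1 = ev [] = lam none v * ev []`, `lam none v = 1`.
So `m₀ = L.length` works.
-/

set_option autoImplicit false

namespace Pool.Agent.MinSig

section Univ

variable {H : Type} [Group H]

/-- the product of the letters in the group `H` -/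
private def evH (f : Bool → (A5 →* H)) : List (Bool × A5) → H
  | [] => 1
  | x :: l => f x.1 x.2 * evH f l

private theorem evH_raw (f : Bool → (A5 →* H)) (c : Bool) (a : A5) (l : List (Bool × A5)) :
    evH f (raw none c a l) = f c a * evH f l := by
  rcases l with _ | ⟨⟨d, b⟩, l⟩
  · by_cases h1 : a = 1
    · have e : raw none c a [] = [] := by simp [raw, h1]
      rw [e, h1, map_one, one_mul]
    · have e : raw none c a [] = [(c, a)] := by simp [raw, h1]
      rw [e]
      rfl
  · simp only [raw]
    split_ifs with h1 h2 h3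
    · subst h1
      change evH f l = f d a * (f d b * evH f l)
      rw [← mul_assoc, ← map_mul, h2, map_one, one_mul]
    · subst h1
      change f d (a * b) * evH f l = f d a * (f d b * evH f l)
      rw [map_mul, mul_assoc]
    · have h4 : a = 1 := by simpa using h3
      rw [h4, map_one, one_mul]
    · rfl

private theorem evH_act (f : Bool → (A5 →* H)) (g : Q none) : ∀ l : Om none,
    evH f (g.1 l).1 = evH f (g.1 (emp none)).1 * evH f l.1 := by
  have hg : g ∈ Subgroup.closure {x : Q none | ∃ (c : Bool) (a : A5), x = jj none c a} := by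
    rw [jj_closure]
    trivial
  induction hg using Subgroup.closure_induction with
  | mem x hx =>
    obtain ⟨c, a, rfl⟩ := hx
    intro l
    rw [jj_apply, jj_apply, evH_raw, evH_raw]
    change f c a * evH f l.1 = f c a * 1 * evH f l.1
    rw [mul_one]
  | one =>
    intro l
    change evH f l.1 = 1 * evH f l.1
    rw [one_mul]
  | mul x y _ _ hx hy =>
    intro l
    change evH f (x.1 (y.1 l)).1 = evH f (x.1 (y.1 (emp none))).1 * evH f l.1
    rw [hx (y.1 l), hy l, hx (y.1 (emp none)), mul_assoc]
  | inv x _ hx =>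
    have h1 : ∀ l : Om none, x.1 ((x⁻¹).1 l) = l := fun l => x.1.apply_symm_apply l
    have h2 : ∀ l : Om none, evH f ((x⁻¹).1 l).1 = (evH f (x.1 (emp none)).1)⁻¹ * evH f l.1 := by
      intro l
      have h3 := hx ((x⁻¹).1 l)
      rw [h1 l] at h3
      rw [h3, inv_mul_cancel_left]
    intro l
    rw [h2 l, h2 (emp none)]
    change _ = _ * 1 * evH f l.1
    rw [mul_one]

/-- the homomorphism given by the universal property -/
private def phH (f : Bool → (A5 →* H)) : Q none →* H :=
  MonoidHom.mk' (fun g => evH f (g.1 (emp none)).1) fun g h =>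
    evH_act f g (h.1 (emp none))

private theorem phH_jj (f : Bool → (A5 →* H)) (c : Bool) (a : A5) :
    phH f (jj none c a) = f c a := by
  change evH f (raw none c a []) = f c a
  rw [evH_raw]
  exact mul_one _

end Univ

private theorem alpha_ex (i : Fin 4) : ∃ (c : Bool) (a : A5), ∀ μ, alpha μ i = jj μ c a := by
  fin_cases i
  · exact ⟨true, ax, fun _ => rfl⟩
  · exact ⟨true, ay, fun _ => rfl⟩
  · exact ⟨false, ax, fun _ => rfl⟩
  · exact ⟨false, ay, fun _ => rfl⟩

private theorem lam_of (μ : Option ℕ) (i : Fin 4) : lam μ (FreeGroup.of i) = alpha μ i :=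
  FreeGroup.lift_apply_of

private theorem lam_down (m : ℕ) : (phH (fun c => jj (some m) c)).comp (lam none) =
    lam (some m) := by
  apply FreeGroup.ext_hom
  intro i
  rw [MonoidHom.comp_apply, lam_of, lam_of]
  obtain ⟨c, a, h⟩ := alpha_ex i
  rw [h, h, phH_jj]

private theorem letter (x : Fin 4 × Bool) : ∃ (c : Bool) (a : A5), ∀ μ,
    lam μ (FreeGroup.mk [x]) = jj μ c a := by
  obtain ⟨i, b⟩ := x
  obtain ⟨c, a, h⟩ := alpha_ex i
  cases b
  · refine ⟨c, a⁻¹, fun μ => ?_⟩
    have h1 : FreeGroup.mk [(i, false)] = (FreeGroup.of i)⁻¹ := rfl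
    rw [h1, map_inv, lam_of, h, map_inv]
  · exact ⟨c, a, fun μ => by rw [← h μ, ← lam_of]; rfl⟩

private theorem raw_same {m : ℕ} {c : Bool} {a : A5} {l : List (Bool × A5)}
    (h : l.length < m) : raw (some m) c a l = raw none c a l := by
  rcases l with _ | ⟨⟨d, b⟩, l⟩
  · have h1 : m ≠ 0 := by
      rintro rfl
      exact absurd h (Nat.not_lt_zero _)
    simp [raw, h1]
  · have h1 : m ≠ l.length + 1 := by
      rw [List.length_cons] at h
      omega
    simp [raw, h1]

private theorem raw_len (μ : Option ℕ) (c : Bool) (a : A5) (l : List (Bool × A5)) :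
    (raw μ c a l).length ≤ l.length + 1 := by
  rcases l with _ | ⟨⟨d, b⟩, l⟩
  · simp only [raw]
    split_ifs <;> simp
  · simp only [raw]
    split_ifs
    · simp only [List.length_cons]
      omega
    · simp only [List.length_cons]
      omega
    · simp only [List.length_cons]
      omega
    · simp only [List.length_cons]
      omega

private theorem same_words (L : List (Fin 4 × Bool)) (m : ℕ) (hm : L.length ≤ m) :
    ((lam (some m) (FreeGroup.mk L)).1 (emp (some m))).1 =
      ((lam none (FreeGroup.mk L)).1 (emp none)).1 ∧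
    ((lam none (FreeGroup.mk L)).1 (emp none)).1.length ≤ L.length := by
  induction L with
  | nil =>
    have h1 : ∀ μ, lam μ (FreeGroup.mk []) = 1 := fun μ => map_one _
    rw [h1, h1]
    exact ⟨rfl, Nat.zero_le _⟩
  | cons x L ih =>
    rw [List.length_cons] at hm
    obtain ⟨h1, h2⟩ := ih (by omega)
    obtain ⟨c, a, h⟩ := letter x
    have h3 : ∀ μ, ((lam μ (FreeGroup.mk (x :: L))).1 (emp μ)).1 =
        raw μ c a ((lam μ (FreeGroup.mk L)).1 (emp μ)).1 := by
      intro μ
      have h4 : (FreeGroup.mk (x :: L)) = FreeGroup.mk [x] * FreeGroup.mk L := by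
        rw [FreeGroup.mul_mk]
        rfl
      rw [h4, map_mul, h μ]
      rfl
    rw [h3, h3, h1]
    refine ⟨raw_same (by omega), (raw_len _ _ _ _).trans ?_⟩
    rw [List.length_cons]
    omega

theorem conv (v : FreeGroup (Fin 4)) :
    ∃ m₀ : ℕ, ∀ m, m₀ ≤ m → (lam (some m) v = 1 ↔ lam none v = 1) := by
  refine ⟨v.toWord.length, fun m hm => ⟨fun h => ?_, fun h => ?_⟩⟩
  · have h1 := (same_words v.toWord m hm).1
    rw [FreeGroup.mk_toWord, h] at h1
    have h2 : (lam none v).1 (emp none) = emp none := Subtype.ext h1.symm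
    have h3 := ev_act (lam none v) (emp none)
    rw [h2] at h3
    exact (mul_eq_right.1 h3.symm)
  · rw [← lam_down m, MonoidHom.comp_apply, h, map_one]

end Pool.Agent.MinSig
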