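import Pool.Agent.MinSig.QGen

/-!
# MinSig QSeq: the sequence of the exponents

PROOF.  `qs_lt`: the definition.  `lt_dd`: `n ≤ qs n < 2 ^ qs n`.
`fin_block`: an element of `Wreath A B` with `A`, `B` finite is determined by `(lamp, pos)`
(`Wreath.ext`), a finite type (`Q_fin`; `ZMod (8 D)` is finite for `D > 0`).
`card_block_le`: the map `n ↦ (qs n, m_n)`, `σ n = some m_n`, is injective from the set of the `n
≤ N` with
`σ n ≠ none` to `range (qs N + 1) ×ˢ range (N + 1)`, so the product is at most `gq (qs N) N` (all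
the
factors of `gq` are positive: `Nat.card_pos` with `fin_block`;
`Finset.prod_le_prod_of_subset_of_one_le'`), and `gq (qs N) N ≤ qs (N + 1) ≤ 2 ^ qs (N + 1)`.
-/

set_option autoImplicit false

namespace Pool.Agent.MinSig

open Pool.Agent.MinGrowth

theorem qs_strictMono : StrictMono qs := by
  refine strictMono_nat_of_lt_succ fun n => ?_
  rw [qs]
  omega

theorem dd_pos (n : ℕ) : 0 < dd n := Nat.pow_pos (by norm_num)

theorem dd_strictMono : StrictMono dd := fun _ _ h =>
  Nat.pow_lt_pow_right (by norm_num) (qs_strictMono h)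

theorem lt_dd (n : ℕ) : n < dd n :=
  lt_of_le_of_lt (qs_strictMono.le_apply) (Nat.lt_two_pow_self)

theorem fin_block (m : ℕ) {D : ℕ} (hD : 0 < D) : Finite (Wreath (Q (some m)) (Zm D)) := by
  have h1 : Finite (Q (some m)) := Q_fin m
  have h2 : NeZero (8 * D) := ⟨by omega⟩
  have h3 : Finite (Zm D) := inferInstanceAs (Finite (ZMod (8 * D)))
  refine Finite.of_injective
    (fun g : Wreath (Q (some m)) (Zm D) => (g.lamp, g.pos)) fun g g' h => ?_
  exact Wreath.ext (congrArg Prod.fst h) (congrArg Prod.snd h)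

theorem card_block_le {σ : ℕ → Option ℕ} {N : ℕ} (h : ∀ n ≤ N, ∀ m, σ n = some m → m ≤ N) :
    ∏ n ∈ (Finset.range (N + 1)).filter (fun n => σ n ≠ none),
      Nat.card (Wreath (Q (σ n)) (Zm (dd n))) ≤ dd (N + 1) := by
  classical
  obtain ⟨g, hg⟩ : ∃ g : ℕ × ℕ → ℕ, ∀ x,
      g x = Nat.card (Wreath (Q (some x.2)) (Zm (2 ^ x.1))) := ⟨_, fun _ => rfl⟩
  have hpos : ∀ x, 1 ≤ g x := by
    intro x
    rw [hg]
    have h1 : Finite (Wreath (Q (some x.2)) (Zm (2 ^ x.1))) :=
      fin_block x.2 (Nat.pow_pos (by norm_num))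
    exact Nat.card_pos
  have h1 : ∏ n ∈ (Finset.range (N + 1)).filter (fun n => σ n ≠ none),
      Nat.card (Wreath (Q (σ n)) (Zm (dd n))) =
      ∏ n ∈ (Finset.range (N + 1)).filter (fun n => σ n ≠ none), g (qs n, (σ n).getD 0) := by
    refine Finset.prod_congr rfl fun n hn => ?_
    have h2 : σ n ≠ none := (Finset.mem_filter.1 hn).2
    obtain ⟨m, hm⟩ := Option.ne_none_iff_exists'.1 h2
    rw [hg, hm]
    rfl
  have h2 : ∏ n ∈ (Finset.range (N + 1)).filter (fun n => σ n ≠ none), g (qs n, (σ n).getD 0) =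
      ∏ x ∈ ((Finset.range (N + 1)).filter (fun n => σ n ≠ none)).image
        (fun n => (qs n, (σ n).getD 0)), g x := by
    rw [Finset.prod_image]
    intro a _ b _ hab
    exact qs_strictMono.injective (congrArg Prod.fst hab)
  have h3 : ∏ x ∈ ((Finset.range (N + 1)).filter (fun n => σ n ≠ none)).image
      (fun n => (qs n, (σ n).getD 0)), g x ≤
      ∏ x ∈ Finset.range (qs N + 1) ×ˢ Finset.range (N + 1), g x := by
    refine Finset.prod_le_prod_of_subset_of_one_le' ?_ fun x _ _ => hpos x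
    intro x hx
    obtain ⟨n, hn, rfl⟩ := Finset.mem_image.1 hx
    obtain ⟨hn1, hn2⟩ := Finset.mem_filter.1 hn
    obtain ⟨m, hm⟩ := Option.ne_none_iff_exists'.1 hn2
    have hnN : n ≤ N := Nat.lt_succ_iff.1 (Finset.mem_range.1 hn1)
    have h4 := h n hnN m hm
    have h5 := qs_strictMono.monotone hnN
    rw [Finset.mem_product, Finset.mem_range, Finset.mem_range]
    simp only [hm, Option.getD_some]
    omega
  have h4 : ∏ x ∈ Finset.range (qs N + 1) ×ˢ Finset.range (N + 1), g x = gq (qs N) N := by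
    rw [Finset.prod_product]
    unfold gq
    exact Finset.prod_congr rfl fun q' _ => Finset.prod_congr rfl fun m _ => hg (q', m)
  have h5 : gq (qs N) N ≤ qs (N + 1) := by
    rw [qs]
    omega
  rw [h1, h2]
  refine h3.trans ?_
  rw [h4]
  exact h5.trans Nat.lt_two_pow_self.le

end Pool.Agent.MinSig
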