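import Pool.Agent.MinSig.Loc
import Pool.Agent.MinSig.QConv
import Pool.Agent.MinSig.QSeq

/-!
# MinSig Cont: continuity

PROOF.  `clopen_prop`: if `p none` holds then `{x | p (s x)}` is the complement of the finite
union of
the sets `{x | s x = some μ}`, `μ < m₀`, `¬ p (some μ)`; if `p none` does not hold it is the union
of
the sets `{x | s x = some μ}`, `μ < m₀`, `p (some μ)`.
`block_clopen`: `blk D e μ w = 1` iff `(blkW D e w).pos = 1` and
`∀ c, lam μ ((blkW D e w).lamp c) = 1` (`lamp_word`, `pos_word`, `Wreath.ext`).  The type `Zm D` is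
finite for `D > 0`, and for every `c` `clopen_prop` applies to `p μ := lam μ v = 1` by `conv v`.
`K_clopen`: `w = FreeGroup.mk l` (`FreeGroup.mk_toWord`).  If `base w ≠ 1` the set is empty.  If
`base w = 1` then `w ∈ K (σ x) univ` iff `bl (σ x) n w = 1` for all `n < 2 * l.length`, because for
`n ≥ 2 * l.length` we have `2 * l.length ≤ n < dd n` (`lt_dd`) and `short_triv` gives
`blk (dd n) n (σ x n) w = 1`.  Finite intersection of clopen sets (`dd_pos`).
-/

set_option autoImplicit false

namespace Pool.Agent.MinSig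

open Pool.Agent.MinGrowth

theorem clopen_prop {X : Type*} [TopologicalSpace X] {s : X → Option ℕ}
    (hs : ∀ μ, IsClopen {x | s x = some μ}) {p : Option ℕ → Prop} {m₀ : ℕ}
    (hp : ∀ m, m₀ ≤ m → (p (some m) ↔ p none)) : IsClopen {x | p (s x)} := by
  classical
  by_cases h0 : p none
  · have e : {x | p (s x)} =
        (⋃ μ ∈ (Finset.range m₀).filter fun μ => ¬ p (some μ), {x | s x = some μ})ᶜ := by
      ext x
      simp only [Set.mem_compl_iff, Set.mem_iUnion, Finset.mem_filter, Finset.mem_range,
        exists_prop]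
      change p (s x) ↔ ¬ ∃ μ, (μ < m₀ ∧ ¬ p (some μ)) ∧ s x = some μ
      constructor
      · rintro h ⟨μ, ⟨_, h1⟩, h2⟩
        rw [h2] at h
        exact h1 h
      · intro h
        rcases hx : s x with _ | m
        · exact h0
        · rcases Nat.lt_or_ge m m₀ with h1 | h1
          · by_contra h2
            exact h ⟨m, ⟨h1, h2⟩, hx⟩
          · exact (hp m h1).2 h0
    rw [e]
    exact (isClopen_biUnion_finset fun μ _ => hs μ).compl
  · have e : {x | p (s x)} =
        ⋃ μ ∈ (Finset.range m₀).filter fun μ => p (some μ), {x | s x = some μ} := by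
      ext x
      simp only [Set.mem_iUnion, Finset.mem_filter, Finset.mem_range, exists_prop]
      change p (s x) ↔ ∃ μ, (μ < m₀ ∧ p (some μ)) ∧ s x = some μ
      constructor
      · intro h
        rcases hx : s x with _ | m
        · rw [hx] at h
          exact absurd h h0
        · rw [hx] at h
          rcases Nat.lt_or_ge m m₀ with h1 | h1
          · exact ⟨m, ⟨h1, h⟩, rfl⟩
          · exact absurd ((hp m h1).1 h) h0
      · rintro ⟨μ, ⟨_, h1⟩, h2⟩
        rw [h2]
        exact h1
    rw [e]
    exact isClopen_biUnion_finset fun μ _ => hs μ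

private theorem blk_one_iff (D e : ℕ) (μ : Option ℕ) (w : F) :
    blk D e μ w = 1 ↔
      (blkW D e w).pos = 1 ∧ ∀ c, lam μ ((blkW D e w).lamp c) = 1 := by
  constructor
  · intro h
    refine ⟨?_, fun c => ?_⟩
    · rw [← pos_word D e μ w, h, Wreath.one_pos]
    · rw [← lamp_word, h, Wreath.one_lamp]
  · rintro ⟨h1, h2⟩
    refine Wreath.ext ?_ ?_
    · funext c
      rw [lamp_word, h2, Wreath.one_lamp]
    · rw [pos_word, h1, Wreath.one_pos]

theorem block_clopen {X : Type*} [TopologicalSpace X] {s : X → Option ℕ}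
    (hs : ∀ μ, IsClopen {x | s x = some μ}) {D : ℕ} (hD : 0 < D) (e : ℕ) (w : F) :
    IsClopen {x | blk D e (s x) w = 1} := by
  have hne : NeZero (8 * D) := ⟨by omega⟩
  have hfin : Finite (Zm D) := inferInstanceAs (Finite (Multiplicative (ZMod (8 * D))))
  have e1 : {x | blk D e (s x) w = 1} =
      {_x : X | (blkW D e w).pos = 1} ∩
        ⋂ c : Zm D, {x | lam (s x) ((blkW D e w).lamp c) = 1} := by
    ext x
    rw [Set.mem_inter_iff, Set.mem_iInter]
    exact blk_one_iff D e (s x) w
  rw [e1]
  refine IsClopen.inter ?_ (isClopen_iInter_of_finite fun c => ?_)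
  · by_cases h : (blkW D e w).pos = 1
    · simp only [h]
      exact isClopen_univ
    · simp only [h]
      exact isClopen_empty
  · obtain ⟨m₀, hm₀⟩ := conv ((blkW D e w).lamp c)
    exact clopen_prop (p := fun μ => lam μ ((blkW D e w).lamp c) = 1) hs hm₀

theorem K_clopen {X : Type*} [TopologicalSpace X] {σ : X → ℕ → Option ℕ}
    (hσ : ∀ n μ, IsClopen {x | σ x n = some μ}) (w : F) :
    IsClopen {x | w ∈ K (σ x) Set.univ} := by
  by_cases hb : base w = 1
  · have e1 : {x | w ∈ K (σ x) Set.univ} =
        ⋂ n ∈ Finset.range (2 * w.toWord.length), {x | blk (dd n) n (σ x n) w = 1} := by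
      ext x
      simp only [Set.mem_iInter, Finset.mem_range]
      change (base w = 1 ∧ ∀ n ∈ Set.univ, bl (σ x) n w = 1) ↔
        ∀ n, n < 2 * w.toWord.length → blk (dd n) n (σ x n) w = 1
      constructor
      · intro h n _
        exact h.2 n (Set.mem_univ n)
      · intro h
        refine ⟨hb, fun n _ => ?_⟩
        rcases Nat.lt_or_ge n (2 * w.toWord.length) with h1 | h1
        · exact h n h1
        · have h2 : 2 * w.toWord.length < dd n := lt_of_le_of_lt h1 (lt_dd n)
          have h3 := short_triv n (σ x n) h2 (by rw [FreeGroup.mk_toWord]; exact hb)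
          rw [FreeGroup.mk_toWord] at h3
          exact h3
    rw [e1]
    exact isClopen_biInter_finset fun n _ => block_clopen (hσ n) (dd_pos n) n w
  · have e1 : {x | w ∈ K (σ x) Set.univ} = ∅ := by
      ext x
      exact ⟨fun h => hb h.1, fun h => h.elim⟩
    rw [e1]
    exact isClopen_empty

end Pool.Agent.MinSig
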