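import Pool.Agent.MinGrowth.Defs

/-!
# The groups that attain their minimal growth rate: the definitions used in the statement

MP_f4e6b0_al, architect helper7.
-/

set_option autoImplicit false

namespace Pool.Agent.MinSig

open Pool.Agent.MinGrowth

/-- countable unions of countable intersections of open sets -/
def IsSigma03 {X : Type*} [TopologicalSpace X] (C : Set X) : Prop :=
  ∃ U : ℕ → ℕ → Set X, (∀ i j, IsOpen (U i j)) ∧ C = ⋃ i, ⋂ j, U i j

/-- countable intersections of countable unions of closed sets -/
def IsPi03 {X : Type*} [TopologicalSpace X] (C : Set X) : Prop :=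
  ∃ A : ℕ → ℕ → Set X, (∀ i j, IsClosed (A i j)) ∧ C = ⋂ i, ⋃ j, A i j

/-- The space of the groups with `m` marked generators: the normal subgroups `N` of the free group
of rank `m` (`N` stands for the group `FreeGroup (Fin m) ⧸ N`). -/
def MarkedGroup (m : ℕ) : Type := {N : Subgroup (FreeGroup (Fin m)) // N.Normal}

open Classical in
/-- the topology of pointwise convergence -/
noncomputable instance (m : ℕ) : TopologicalSpace (MarkedGroup m) :=
  TopologicalSpace.induced (fun (N : MarkedGroup m) (w : FreeGroup (Fin m)) => decide (w ∈ N.1))
    inferInstance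

instance marked_normal {m : ℕ} (N : MarkedGroup m) : (N.1).Normal := N.2

/-- the group -/
def MarkedGroup.grp {m : ℕ} (N : MarkedGroup m) : Type := FreeGroup (Fin m) ⧸ N.1

instance {m : ℕ} (N : MarkedGroup m) : Group N.grp :=
  inferInstanceAs (Group (FreeGroup (Fin m) ⧸ N.1))

/-- the marked groups which attain their minimal growth rate -/
def Att (m : ℕ) : Set (MarkedGroup m) := {N | AttainsMinGrowth N.grp}

end Pool.Agent.MinSig
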