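import Pool.Agent.MinGrowth.PrimeUpper
import Pool.Agent.MinGrowth.Iso
import Pool.Agent.MinSig.Stmt

/-!
# The groups that attain their minimal growth rate: definitions

MP_f4e6b0_al, architect helper7; paper proof `/team-store/MinGrowth_Sigma3.md` (there with lamps
of
order two; here lamps of order three, and no lamps in the groups `Q`).  This file has no sorry.

* `Q μ` (`μ = some m` or `μ = none`): the free product of two copies of the alternating group `A5`
  (`μ = none`), and its images in the permutations of the reduced words of length at most `m`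
  (`μ = some m`), generated by four elements `alpha μ i` of order three.
* `F`: the free group on `t = none` and `a_i = some i` (`i < 7`); `base : F → (ℤ/3)^7 ≀ ℤ`;
  `bl σ n : F → Q (σ n) ≀ ℤ/(8 D)`, `D = dd n = 2 ^ qs n`: the block number `n` of the status
  function `σ`; `K σ X`: the intersection of the kernels of `base` and of the blocks in `X`.
-/

set_option autoImplicit false

namespace Pool.Agent.MinSig

open Pool.Agent.MinGrowth

/-! ## The free product of two copies of `A5` and its finite images -/

/-- the alternating group of degree five -/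
abbrev A5 : Type := alternatingGroup (Fin 5)

/-- the cycle `(0 1 2)` -/
def ax : A5 := ⟨Equiv.swap 0 1 * Equiv.swap 1 2, Equiv.Perm.mem_alternatingGroup.2 (by decide)⟩

/-- the cycle `(2 3 4)` -/
def ay : A5 := ⟨Equiv.swap 2 3 * Equiv.swap 3 4, Equiv.Perm.mem_alternatingGroup.2 (by decide)⟩

/-- the word does not begin with a letter of the factor `c` -/
def NH (c : Bool) : List (Bool × A5) → Prop
  | [] => True
  | y :: _ => y.1 ≠ c

/-- reduced words -/
def Rd : List (Bool × A5) → Prop
  | [] => True
  | x :: l => x.2 ≠ 1 ∧ NH x.1 l ∧ Rd l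

/-- The action of the element `a` of the factor `c` on the reduced words (of length at most `m` if
`μ = some m`): the words which begin with a letter of this factor, or which are not of maximal
length, are multiplied by `a` from the left, the others are fixed. -/
def raw (μ : Option ℕ) (c : Bool) (a : A5) : List (Bool × A5) → List (Bool × A5)
  | [] => if a = 1 ∨ μ = some 0 then [] else [(c, a)]
  | (d, b) :: l => if d = c then (if a * b = 1 then l else (c, a * b) :: l)
      else (if a = 1 ∨ μ = some (l.length + 1) then (d, b) :: l else (c, a) :: (d, b) :: l)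

/-- the reduced words, of length at most `m` if `μ = some m` -/
def Om (μ : Option ℕ) : Type :=
  {l : List (Bool × A5) // Rd l ∧ ∀ m, μ = some m → l.length ≤ m}

theorem raw_mem {μ : Option ℕ} (c : Bool) (a : A5) {l : List (Bool × A5)}
    (h : Rd l ∧ ∀ m, μ = some m → l.length ≤ m) :
    Rd (raw μ c a l) ∧ ∀ m, μ = some m → (raw μ c a l).length ≤ m := by
  rcases l with _ | ⟨⟨d, b⟩, l⟩
  · simp only [raw]
    split_ifs with h1
    · exact h
    · push Not at h1
      refine ⟨⟨h1.1, trivial, trivial⟩, fun m hm => ?_⟩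
      rcases Nat.eq_zero_or_pos m with rfl | h2
      · exact absurd hm h1.2
      · exact h2
  · obtain ⟨⟨h1, h2, h3⟩, h4⟩ := h
    simp only [raw]
    split_ifs with h5 h6 h7
    · exact ⟨h3, fun m hm => (Nat.le_succ _).trans (h4 m hm)⟩
    · subst h5
      exact ⟨⟨h6, h2, h3⟩, fun m hm => h4 m hm⟩
    · exact ⟨⟨h1, h2, h3⟩, h4⟩
    · push Not at h7
      refine ⟨⟨h7.1, h5, h1, h2, h3⟩, fun m hm => ?_⟩
      refine lt_of_le_of_ne (h4 m hm) ?_
      rintro rfl
      exact h7.2 hm

theorem raw_one {μ : Option ℕ} (c : Bool) {l : List (Bool × A5)}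
    (h : Rd l ∧ ∀ m, μ = some m → l.length ≤ m) : raw μ c 1 l = l := by
  rcases l with _ | ⟨⟨d, b⟩, l⟩
  · simp [raw]
  · simp only [raw]
    split_ifs with h5 h6 h7
    · rw [one_mul] at h6
      exact absurd h6 h.1.1
    · rw [one_mul, h5]
    · rfl
    · exact absurd (Or.inl trivial) h7

theorem raw_mul {μ : Option ℕ} (c : Bool) (a a' : A5) {l : List (Bool × A5)}
    (h : Rd l ∧ ∀ m, μ = some m → l.length ≤ m) :
    raw μ c (a * a') l = raw μ c a (raw μ c a' l) := by
  rcases l with _ | ⟨⟨d, b⟩, l⟩
  · by_cases h0 : μ = some 0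
    · simp [raw, h0]
    · by_cases h1 : a' = 1
      · simp [raw, h1]
      · have e : raw μ c a' [] = [(c, a')] := by simp [raw, h0, h1]
        rw [e]
        by_cases h2 : a * a' = 1
        · simp [raw, h2]
        · simp [raw, h0, h2]
  · obtain ⟨⟨h1, h2, h3⟩, h4⟩ := h
    by_cases hd : d = c
    · subst hd
      by_cases h5 : a' * b = 1
      · have e : raw μ d a' ((d, b) :: l) = l := by simp [raw, h5]
        rw [e]
        have h6 : a * a' * b = a := by rw [mul_assoc, h5, mul_one]
        have e2 : raw μ d (a * a') ((d, b) :: l) = if a = 1 then l else (d, a) :: l := by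
          simp [raw, h6]
        rw [e2]
        have hfull : μ ≠ some l.length := fun h7 => by
          have := h4 _ h7
          simp at this
        rcases l with _ | ⟨⟨d', b'⟩, l⟩
        · simp only [List.length_nil] at hfull
          simp [raw, hfull]
        · simp only [List.length_cons] at hfull
          have h8 : d' ≠ d := h2
          simp [raw, hfull, h8]
      · have e : raw μ d a' ((d, b) :: l) = (d, a' * b) :: l := by simp [raw, h5]
        rw [e]
        simp [raw, mul_assoc]
    · by_cases h5 : μ = some (l.length + 1)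
      · simp [raw, hd, h5]
      · by_cases h6 : a' = 1
        · simp [raw, hd, h5, h6]
        · have e : raw μ c a' ((d, b) :: l) = (c, a') :: (d, b) :: l := by
            simp [raw, hd, h5, h6]
          rw [e]
          by_cases h7 : a * a' = 1
          · simp [raw, hd, h7]
          · simp [raw, hd, h5, h7]

/-- the action of a factor as a homomorphism -/
def actP (μ : Option ℕ) (c : Bool) : A5 →* Equiv.Perm (Om μ) where
  toFun a :=
    { toFun := fun l => ⟨raw μ c a l.1, raw_mem c a l.2⟩
      invFun := fun l => ⟨raw μ c a⁻¹ l.1, raw_mem c a⁻¹ l.2⟩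
      left_inv := fun l => by
        apply Subtype.ext
        change raw μ c a⁻¹ (raw μ c a l.1) = l.1
        rw [← raw_mul c _ _ l.2, inv_mul_cancel, raw_one c l.2]
      right_inv := fun l => by
        apply Subtype.ext
        change raw μ c a (raw μ c a⁻¹ l.1) = l.1
        rw [← raw_mul c _ _ l.2, mul_inv_cancel, raw_one c l.2] }
  map_one' := by
    ext l
    apply Subtype.ext
    exact raw_one c l.2
  map_mul' a a' := by
    ext l
    apply Subtype.ext
    exact raw_mul c a a' l.2

theorem actP_apply (μ : Option ℕ) (c : Bool) (a : A5) (l : Om μ) :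
    (actP μ c a l).1 = raw μ c a l.1 := rfl

/-- the group generated by the two factors -/
def QG (μ : Option ℕ) : Subgroup (Equiv.Perm (Om μ)) :=
  (actP μ true).range ⊔ (actP μ false).range

/-- `Q none` is the free product of two copies of `A5`, `Q (some m)` are finite images. -/
abbrev Q (μ : Option ℕ) : Type := QG μ

/-- the two factors -/
def jj (μ : Option ℕ) (c : Bool) : A5 →* Q μ :=
  (actP μ c).codRestrict (QG μ) fun a => by
    cases c
    · exact (le_sup_right : _ ≤ QG μ) ⟨a, rfl⟩
    · exact (le_sup_left : _ ≤ QG μ) ⟨a, rfl⟩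

theorem jj_apply (μ : Option ℕ) (c : Bool) (a : A5) (l : Om μ) :
    ((jj μ c a).1 l).1 = raw μ c a l.1 := rfl

/-- the four generators -/
def alpha (μ : Option ℕ) : Fin 4 → Q μ :=
  ![jj μ true ax, jj μ true ay, jj μ false ax, jj μ false ay]

/-- the empty word -/
def emp (μ : Option ℕ) : Om μ := ⟨[], trivial, fun _ _ => Nat.zero_le _⟩

/-- the reduced word of `g⁻¹` -/
def wd (g : Q none) : List (Bool × A5) := ((g⁻¹ : Q none).1 (emp none)).1

/-- the number of the subwords `y⁻¹ x⁻¹` minus the number of the subwords `x y`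
(`x = (true, ax)`, `y = (false, ax)`) -/
def chi : List (Bool × A5) → ℤ
  | [] => 0
  | [_] => 0
  | x :: y :: l => (if x = (false, ax⁻¹) ∧ y = (true, ax⁻¹) then 1
      else if x = (true, ax) ∧ y = (false, ax) then -1 else 0) + chi (y :: l)

/-- the counting function of the free product -/
def phi (g : Q none) : ℤ := chi (wd g)

/-- the homomorphism from the free group of rank four -/
def lam (μ : Option ℕ) : FreeGroup (Fin 4) →* Q μ := FreeGroup.lift (alpha μ)

/-- the word `α_0 α_2` -/
def zw : FreeGroup (Fin 4) := FreeGroup.of 0 * FreeGroup.of 2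

/-- the product of the letters of a word -/
def ev : List (Bool × A5) → Q none
  | [] => 1
  | x :: l => jj none x.1 x.2 * ev l

/-- a nontrivial element which is different from the first letter -/
def pick : List (Bool × A5) → A5
  | [] => ax
  | y :: _ => if y.2 = ax then ax⁻¹ else ax

/-- two letters which can be inserted between `x` and the word `l` -/
def mk2 (x : Bool × A5) (l : List (Bool × A5)) : List (Bool × A5) := [(!x.1, pick l), (x.1, ax)]

/-- insertions before the last `j` letters, for all `j ∈ E` -/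
def ins (E : Finset ℕ) : List (Bool × A5) → List (Bool × A5)
  | [] => []
  | x :: l => x :: ((if l.length ∈ E then mk2 x l else []) ++ ins E l)

/-- the last `j` letters -/
def sfx (W : List (Bool × A5)) (j : ℕ) : List (Bool × A5) := W.drop (W.length - j)

/-- the letters which may be inserted before the last `j` letters of `W` -/
def mark (W : List (Bool × A5)) (j : ℕ) : List (Bool × A5) :=
  match W.drop (W.length - (j + 1)) with
  | [] => []
  | x :: l => mk2 x l

/-- `f 0 ^ [0 ∈ E] * f 1 ^ [1 ∈ E] * ... * f (M - 1) ^ [M - 1 ∈ E]` -/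
def opr {G : Type*} [Group G] (f : ℕ → G) (E : Finset ℕ) : ℕ → G
  | 0 => 1
  | M + 1 => opr f E M * if M ∈ E then f M else 1

/-! ## The blocks -/

/-- the free group on `t = none` and `a_i = some i` -/
abbrev F : Type := FreeGroup (Option (Fin 7))

/-- the generator `t` -/
def tt : F := FreeGroup.of none

/-- the generators `a_i` -/
def aw (i : Fin 7) : F := FreeGroup.of (some i)

/-- the index `i < 4` as an index `< 7` -/
def up (i : Fin 4) : Fin 7 := Fin.castLE (by decide) i

/-- the conjugate of `a_i` by `t ^ ((4 - i) D)` -/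
def AA (D : ℕ) (i : Fin 4) : F :=
  tt ^ ((4 - (i : ℕ)) * D) * aw (up i) * (tt ^ ((4 - (i : ℕ)) * D))⁻¹

/-- the cyclic group of order `8 D` -/
abbrev Zm (D : ℕ) : Type := Multiplicative (ZMod (8 * D))

/-- the site `x` modulo `8 D` -/
def site (D : ℕ) (x : ℤ) : Zm D := Multiplicative.ofAdd ((x : ℤ) : ZMod (8 * D))

/-- the lamps of a block as words -/
noncomputable def blkW (D e : ℕ) : F →* Wreath (FreeGroup (Fin 4)) (Zm D) :=
  FreeGroup.lift fun g => match g with
    | none => Wreath.lampEmb (site D 0) (zw ^ e) * Wreath.posEmb (site D 1)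
    | some i => if h : (i : ℕ) < 4 then
        Wreath.lampEmb (site D (((i : ℕ) + 1) * D)) (FreeGroup.of ⟨i, h⟩) else 1

/-- the block -/
noncomputable def blk (D e : ℕ) (μ : Option ℕ) : F →* Wreath (Q μ) (Zm D) :=
  (Wreath.map (lam μ)).comp (blkW D e)

/-- the homomorphism to `(ℤ/3)^7 ≀ ℤ` -/
noncomputable def base : F →* Lp 3 (Fin 7) :=
  FreeGroup.lift fun g => match g with
    | none => Lp.gT 3 (Fin 7)
    | some i => Lp.gA 3 i

/-- bound for the orders of the finite blocks -/
noncomputable def gq (q N : ℕ) : ℕ :=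
  ∏ q' ∈ Finset.range (q + 1), ∏ m ∈ Finset.range (N + 1),
    Nat.card (Wreath (Q (some m)) (Zm (2 ^ q')))

/-- the exponents -/
noncomputable def qs : ℕ → ℕ
  | 0 => 0
  | N + 1 => qs N + 1 + gq (qs N) N

/-- the parameters `D` of the blocks -/
noncomputable def dd (n : ℕ) : ℕ := 2 ^ qs n

/-- the block number `n` -/
noncomputable def bl (σ : ℕ → Option ℕ) (n : ℕ) : F →* Wreath (Q (σ n)) (Zm (dd n)) :=
  blk (dd n) n (σ n)

/-- the intersection of the kernels of `base` and of the blocks in `X` -/
def K (σ : ℕ → Option ℕ) (X : Set ℕ) : Subgroup F where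
  carrier := {w | base w = 1 ∧ ∀ n ∈ X, bl σ n w = 1}
  one_mem' := ⟨map_one _, fun n _ => map_one _⟩
  mul_mem' := by
    rintro v w ⟨h1, h2⟩ ⟨h3, h4⟩
    refine ⟨by rw [map_mul, h1, h3, mul_one], fun n hn => ?_⟩
    rw [map_mul, h2 n hn, h4 n hn, mul_one]
  inv_mem' := by
    rintro v ⟨h1, h2⟩
    refine ⟨by rw [map_inv, h1, inv_one], fun n hn => ?_⟩
    rw [map_inv, h2 n hn, inv_one]

theorem mem_K {σ : ℕ → Option ℕ} {X : Set ℕ} {w : F} :
    w ∈ K σ X ↔ base w = 1 ∧ ∀ n ∈ X, bl σ n w = 1 := Iff.rfl

instance K_normal (σ : ℕ → Option ℕ) (X : Set ℕ) : (K σ X).Normal where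
  conj_mem := by
    rintro v ⟨h1, h2⟩ g
    refine ⟨by rw [map_mul, map_mul, h1, mul_one, map_inv, mul_inv_cancel], fun n hn => ?_⟩
    rw [map_mul, map_mul, h2 n hn, mul_one, map_inv, mul_inv_cancel]

theorem mk_eq_iff {σ : ℕ → Option ℕ} {X : Set ℕ} {v w : F} :
    (QuotientGroup.mk v : F ⧸ K σ X) = QuotientGroup.mk w ↔
      base v = base w ∧ ∀ n ∈ X, bl σ n v = bl σ n w := by
  rw [QuotientGroup.eq, mem_K, map_mul, map_inv, inv_mul_eq_one]
  refine and_congr_right fun _ => forall_congr' fun n => forall_congr' fun _ => ?_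
  rw [map_mul, map_inv, inv_mul_eq_one]

/-- the group of the status function `σ` -/
abbrev Gr (σ : ℕ → Option ℕ) : Type := F ⧸ K σ Set.univ

/-- the projection to the base group -/
noncomputable def toB (σ : ℕ → Option ℕ) (X : Set ℕ) : F ⧸ K σ X →* Lp 3 (Fin 7) :=
  QuotientGroup.lift (K σ X) base fun _ hw => hw.1

theorem toB_mk (σ : ℕ → Option ℕ) (X : Set ℕ) (w : F) :
    toB σ X (QuotientGroup.mk w) = base w := rfl

/-- the projection to a block -/
noncomputable def toR (σ : ℕ → Option ℕ) (n : ℕ) : Gr σ →* Wreath (Q (σ n)) (Zm (dd n)) :=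
  QuotientGroup.lift (K σ Set.univ) (bl σ n) fun _ hw => hw.2 n (Set.mem_univ n)

theorem toR_mk (σ : ℕ → Option ℕ) (n : ℕ) (w : F) :
    toR σ n (QuotientGroup.mk w) = bl σ n w := rfl

/-! ## Growth -/

open Classical in
/-- the images of the generators -/
noncomputable def gens {G : Type*} [Group G] (f : F →* G) : Finset G :=
  Finset.univ.image fun g => f (FreeGroup.of g)

/-- the balls of the free group -/
def bF (k : ℕ) : Set F := wordBall (Set.range FreeGroup.of) k

/-- polynomial times exponential upper bound of the growth -/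
def PB {G : Type*} [Group G] (x : ℝ) (S : Finset G) : Prop :=
  ∃ (C : ℝ) (d : ℕ), ∀ k, (growthFn S k : ℝ) ≤ C * ((k : ℝ) + 1) ^ d * x ^ k

/-! ## Words -/

/-- the change of the height -/
def dh (x : Option (Fin 7) × Bool) : ℤ := if x.1 = none then (if x.2 then 1 else -1) else 0

/-- the height of a word -/
def hh : List (Option (Fin 7) × Bool) → ℤ
  | [] => 0
  | x :: l => dh x + hh l

/-- the exponent sum of the letters `a_i` written at the height `x`, starting at the height `y` -/
def es (i : Fin 7) (x : ℤ) : ℤ → List (Option (Fin 7) × Bool) → ℤ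
  | _, [] => 0
  | y, s :: l => (if s.1 = some i ∧ y = x then (if s.2 then 1 else -1) else 0) + es i x (y + dh s) l

/-- the factor contributed to the coordinate zero by the letter `s` at the height `y` -/
def cst (D e : ℕ) (μ : Option ℕ) (y : ℤ) (s : Option (Fin 7) × Bool) : Q μ :=
  match s.1 with
  | none => if s.2 then (if ((8 * D : ℕ) : ℤ) ∣ y then lam μ zw ^ e else 1)
      else (if ((8 * D : ℕ) : ℤ) ∣ y - 1 then (lam μ zw ^ e)⁻¹ else 1)
  | some i => if h : (i : ℕ) < 4 then
      (if ((8 * D : ℕ) : ℤ) ∣ y + ((i : ℕ) + 1) * D then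
        (if s.2 then alpha μ ⟨i, h⟩ else (alpha μ ⟨i, h⟩)⁻¹) else 1) else 1

/-- the coordinate zero of the word, starting at the height `y` -/
def ctr (D e : ℕ) (μ : Option ℕ) : ℤ → List (Option (Fin 7) × Bool) → Q μ
  | _, [] => 1
  | y, s :: l => cst D e μ y s * ctr D e μ (y + dh s) l

/-- `⌈h / (8 D)⌉` -/
def EE (D : ℕ) (h : ℤ) : ℤ := -((-h) / ((8 * D : ℕ) : ℤ))

/-! ## The two cases -/

/-- infinitely many infinite blocks -/
def CaseA (σ : ℕ → Option ℕ) : Prop := ∀ N, ∃ n, N ≤ n ∧ σ n = none

/-- finitely many infinite blocks, and infinitely often all finite statuses are small -/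
def CaseB (σ : ℕ → Option ℕ) : Prop :=
  (∃ N, ∀ n, N ≤ n → σ n ≠ none) ∧
    ∀ N₀, ∃ N, N₀ ≤ N ∧ ∀ n ≤ N, ∀ m, σ n = some m → m ≤ N

end Pool.Agent.MinSig
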