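import Pool.Agent.MinSig.Defs

/-!
# MinSig DefsB: more definitions (this file has no sorry)

* `toN σ n h`: the projection of `Gr σ` to an infinite block;
* `Zc σ n h g`: the coordinate one of this block;
* `mkN`, `im`: marked groups and the images of finite sets of words;
* `rec`, `stat`: the statuses of the blocks in the reduction.
-/

set_option autoImplicit false

namespace Pool.Agent.MinSig

open Pool.Agent.MinGrowth

/-- the projection to an infinite block -/
noncomputable def toN (σ : ℕ → Option ℕ) (n : ℕ) (h : σ n = none) :
    Gr σ →* Wreath (Q none) (Zm (dd n)) :=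
  QuotientGroup.lift (K σ Set.univ) (blk (dd n) n none) fun w hw => by
    have h1 := hw.2 n (Set.mem_univ n)
    unfold bl at h1
    rw [h] at h1
    exact h1

theorem toN_mk (σ : ℕ → Option ℕ) (n : ℕ) (h : σ n = none) (w : F) :
    toN σ n h (QuotientGroup.mk w) = blk (dd n) n none w := rfl

/-- the coordinate one -/
noncomputable def Zc (σ : ℕ → Option ℕ) (n : ℕ) (h : σ n = none) (g : Gr σ) : Q none :=
  (toN σ n h g).lamp 1

/-- the projection to the marked group -/
def mkN {m : ℕ} (N : MarkedGroup m) : FreeGroup (Fin m) →* N.grp := QuotientGroup.mk' N.1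

theorem mkN_eq_one {m : ℕ} (N : MarkedGroup m) (w : FreeGroup (Fin m)) :
    mkN N w = 1 ↔ w ∈ N.1 := QuotientGroup.eq_one_iff w

theorem mkN_surjective {m : ℕ} (N : MarkedGroup m) : Function.Surjective (mkN N) :=
  QuotientGroup.mk'_surjective N.1

open Classical in
/-- the images of a finite set of words -/
noncomputable def im {m : ℕ} (N : MarkedGroup m) (S : Finset (FreeGroup (Fin m))) :
    Finset N.grp := S.image (mkN N)

/-- the finite set of words generates the group -/
def Gen (m : ℕ) (S : Finset (FreeGroup (Fin m))) : Set (MarkedGroup m) :=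
  {N | Subgroup.closure (im N S : Set N.grp) = ⊤}

open Classical in
/-- The status of the block `(j, k)` for the property `P`: the block starts at the time `k` if
`k = 0` or `P j (k - 1)`, and then the status is the first time `k' ≥ k` with `P j k'`. -/
noncomputable def stat (P : ℕ → ℕ → Prop) (j k : ℕ) : Option ℕ :=
  if k = 0 ∨ P j (k - 1) then
    (if h : ∃ k', k ≤ k' ∧ P j k' then some (Nat.find h) else none) else some 0

/-- the status function -/
noncomputable def stf (P : ℕ → ℕ → Prop) (n : ℕ) : Option ℕ :=
  stat P (Nat.unpair n).1 (Nat.unpair n).2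

end Pool.Agent.MinSig
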