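import Pool.Agent.MinSig.Defs

/-!
# MinSig Diag: a countable union of `G_δ` sets which is not a countable intersection of `F_σ` sets

PROOF.  For `s : List Bool` let `cyl s = {x : ℕ → Bool | ∀ i < s.length, x i = s.getD i false}`; it
is open, and for every open set `U` and `x ∈ U` there is `s` with `x ∈ cyl s ⊆ U` (product topology;
`s = (List.range n).map x`, `n` larger than all the coordinates of a basic neighborhood,
`isOpen_pi_iff`).  Let
`D = {x | ∃ i, ∀ j, ∃ s : List Bool, x (Encodable.encode (i, j, s)) = true ∧ x ∈ cyl s}`.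
`D` is `IsSigma03`: the sets `{x | ∃ s, x (encode (i, j, s)) = true ∧ x ∈ cyl s}` are open.
Suppose that `D` is `IsPi03`: `D = ⋂ i, ⋃ j, A i j`, `A i j` closed.  Then
`Dᶜ = ⋃ i, ⋂ j, (A i j)ᶜ`, `U i j = (A i j)ᶜ` is open.  Let `a : ℕ → Bool` be
`a n = true` iff `decode n = some (i, j, s)` for some `i, j, s` with `cyl s ⊆ U i j`, so
`a (encode (i, j, s)) = true ↔ cyl s ⊆ U i j` (`Encodable.encodek`).  For every `x`:
`x ∈ U i j ↔ ∃ s, a (encode (i, j, s)) = true ∧ x ∈ cyl s`.  So for `x = a`: `a ∈ Dᶜ` iff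
`∃ i, ∀ j, a ∈ U i j` iff `a ∈ D`: contradiction.
`pi_preimage`: preimages commute with unions and intersections, and preimages of closed sets are
closed.
-/

set_option autoImplicit false

namespace Pool.Agent.MinSig

private def cyl (s : List Bool) : Set (ℕ → Bool) :=
  {x | ∀ i, i < s.length → x i = s.getD i false}

private theorem cyl_open (s : List Bool) : IsOpen (cyl s) := by
  have h : cyl s = ⋂ i ∈ Finset.range s.length, {x : ℕ → Bool | x i = s.getD i false} := by
    ext x
    simp [cyl]
  rw [h]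
  refine isOpen_biInter_finset fun i _ => ?_
  have hc : Continuous (fun x : ℕ → Bool => x i) := continuous_apply i
  exact (isOpen_discrete ({s.getD i false} : Set Bool)).preimage hc

private theorem exists_cyl {U : Set (ℕ → Bool)} (hU : IsOpen U) {x : ℕ → Bool} (hx : x ∈ U) :
    ∃ s : List Bool, x ∈ cyl s ∧ cyl s ⊆ U := by
  obtain ⟨I, u, hu, hsub⟩ := isOpen_pi_iff.mp hU x hx
  refine ⟨(List.range (I.sup id + 1)).map x, ?_, ?_⟩
  · intro i hi
    simp only [List.length_map, List.length_range] at hi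
    simp [List.getD_eq_getElem?_getD, hi]
  · intro y hy
    apply hsub
    intro i hi
    have hle : i < I.sup id + 1 := Nat.lt_succ_of_le (Finset.le_sup (f := id) hi)
    have := hy i (by simpa using hle)
    rw [this]
    simp only [List.getD_eq_getElem?_getD, List.getElem?_map]
    rw [List.getElem?_range hle]
    simpa using (hu i hi).2

theorem diag : ∃ D : Set (ℕ → Bool), IsSigma03 D ∧ ¬ IsPi03 D := by
  classical
  refine ⟨{x | ∃ i : ℕ, ∀ j : ℕ, ∃ s : List Bool,
    x (Encodable.encode (i, j, s)) = true ∧ x ∈ cyl s}, ?_, ?_⟩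
  · refine ⟨fun i j => {x | ∃ s : List Bool,
      x (Encodable.encode (i, j, s)) = true ∧ x ∈ cyl s}, ?_, ?_⟩
    · intro i j
      have h : {x : ℕ → Bool | ∃ s : List Bool,
          x (Encodable.encode (i, j, s)) = true ∧ x ∈ cyl s} =
          ⋃ s : List Bool, ({x | x (Encodable.encode (i, j, s)) = true} ∩ cyl s) := by
        ext x
        simp
      change IsOpen {x : ℕ → Bool | ∃ s : List Bool,
          x (Encodable.encode (i, j, s)) = true ∧ x ∈ cyl s}
      rw [h]
      refine isOpen_iUnion fun s => IsOpen.inter ?_ (cyl_open s)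
      have hc : Continuous (fun x : ℕ → Bool => x (Encodable.encode (i, j, s))) :=
        continuous_apply _
      exact (isOpen_discrete ({true} : Set Bool)).preimage hc
    · ext x
      simp
  · rintro ⟨A, hA, hD⟩
    let a : ℕ → Bool := fun n => decide (∃ i j : ℕ, ∃ s : List Bool,
      Encodable.encode (i, j, s) = n ∧ cyl s ⊆ (A i j)ᶜ)
    have ha : ∀ (i j : ℕ) (s : List Bool),
        a (Encodable.encode (i, j, s)) = true ↔ cyl s ⊆ (A i j)ᶜ := by
      intro i j s
      simp only [a, decide_eq_true_eq]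
      constructor
      · rintro ⟨i', j', s', he, hs⟩
        have := Encodable.encode_injective he
        simp only [Prod.mk.injEq] at this
        obtain ⟨rfl, rfl, rfl⟩ := this
        exact hs
      · intro h
        exact ⟨i, j, s, rfl, h⟩
    have hmem : ∀ i j : ℕ, a ∈ (A i j)ᶜ ↔
        ∃ s : List Bool, a (Encodable.encode (i, j, s)) = true ∧ a ∈ cyl s := by
      intro i j
      constructor
      · intro h
        obtain ⟨s, h1, h2⟩ := exists_cyl (hA i j).isOpen_compl h
        exact ⟨s, (ha i j s).mpr h2, h1⟩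
      · rintro ⟨s, h1, h2⟩
        exact (ha i j s).mp h1 h2
    have h1 : a ∈ {x : ℕ → Bool | ∃ i : ℕ, ∀ j : ℕ, ∃ s : List Bool,
        x (Encodable.encode (i, j, s)) = true ∧ x ∈ cyl s} ↔ ∃ i, ∀ j, a ∈ (A i j)ᶜ := by
      simp only [hmem]
      exact Iff.rfl
    have h2 : a ∈ {x : ℕ → Bool | ∃ i : ℕ, ∀ j : ℕ, ∃ s : List Bool,
        x (Encodable.encode (i, j, s)) = true ∧ x ∈ cyl s} ↔ ∀ i, ∃ j, a ∈ A i j := by
      rw [hD]
      simp
    rw [h2] at h1
    by_cases h : ∃ i, ∀ j, a ∈ (A i j)ᶜ
    · obtain ⟨i, hi⟩ := h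
      obtain ⟨j, hj⟩ := h1.mpr ⟨i, hi⟩ i
      exact hi j hj
    · exact h (h1.mp (by
        intro i
        by_contra hne
        push Not at hne
        exact h ⟨i, hne⟩))

theorem pi_preimage {X Y : Type*} [TopologicalSpace X] [TopologicalSpace Y] {f : X → Y}
    (hf : Continuous f) {C : Set Y} (hC : IsPi03 C) : IsPi03 (f ⁻¹' C) := by
  obtain ⟨A, hA, rfl⟩ := hC
  exact ⟨fun i j => f ⁻¹' (A i j), fun i j => (hA i j).preimage hf, by
    simp only [Set.preimage_iInter, Set.preimage_iUnion]⟩

end Pool.Agent.MinSig
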