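import Pool.Agent.MinSig.QEval

/-!
# MinSig QPsi: the counting function of the free product

Let `x = (true, ax)`, `y = (false, ax)`, `X = (true, ax⁻¹)`, `Y = (false, ax⁻¹)` (letters).  `chi
l` is
the number of the subwords `Y X` minus the number of the subwords `x y` of `l`.  Write
`chi (s :: l) = pr s l + chi l`, where `pr s l ∈ {-1, 0, 1}` (`0` if `l = []`).  `ax⁻¹ ≠ ax`
(`ax_inv_ne`), `ax ≠ 1`.

PROOF of `phi_jj`: `wd (g * jj none c a) = raw none c a⁻¹ (wd g)` (`wd_mul_jj`); `raw` adds,
removes or
replaces the first letter, so `chi` changes by at most `2`.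
PROOF of `phi_alpha`: `alpha none i ^ N = jj none c (a ^ N)` (`alpha_jj`, `map_zpow`).
PROOF of `phi_le`: `|pr| ≤ 1`.
PROOF of `phi_zw`: `lam none zw = jj none true ax * jj none false ax`, so
`wd (g * lam none zw) = f (wd g)` with `f W = raw none false ax⁻¹ (raw none true ax⁻¹ W)`.  Let
`S W` be `NH true W` (`W = []` or `W` begins with a letter of the factor `false`).
* If `S W` then `f W = Y :: X :: W`, `chi (f W) = chi W + 1` (`pr X W = 0` because `X ≠ Y`,
  `X ≠ x`) and `S (f W)`.
* If `W = x :: y :: W'` then `f W = W'` and `chi W = -1 + pr y W' + chi W' = -1 + chi W'`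
  (`pr y W' = 0`), so `chi (f W) = chi W + 1`.
* Otherwise (`W = x :: W'` with `W' = []` or `W' = (false, b) :: W''`, `b ≠ ax`; or `W = (true,
a) :: W'`,
  `a ≠ ax`; `W` is reduced) `|chi (f W) - chi W| ≤ 1` and `S (f W)`: in the first case
  `f W = [Y]` or `f W = (false, ax⁻¹ * b) :: W''`, `chi W = 0 + chi W'` (`pr x W' = 0`); in the
second case
  `f W = Y :: (true, ax⁻¹ * a) :: W'`, `pr Y (...) = 0` (`ax⁻¹ * a ≠ ax⁻¹` as `a ≠ 1`).
So for `j : ℕ`, if `S W` then `chi (f^j W) = chi W + j`, and in general `|chi (f^j W) - chi W -
j| ≤ 2`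
(induction on `j`: either all steps are `+1`, or exactly one step is exceptional).
`phi_zpow`: for `j ≥ 0` this; for negative `j` apply it to `g * (lam none zw) ^ j` and `-j`.
-/

set_option autoImplicit false

namespace Pool.Agent.MinSig

private def prr (x : Bool × A5) : List (Bool × A5) → ℤ
  | [] => 0
  | y :: _ => if x = (false, ax⁻¹) ∧ y = (true, ax⁻¹) then 1
      else if x = (true, ax) ∧ y = (false, ax) then -1 else 0

private theorem chi_cons (x : Bool × A5) (l : List (Bool × A5)) :
    chi (x :: l) = prr x l + chi l := by
  cases l with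
  | nil => rfl
  | cons y l => rfl

private theorem prr_le (x : Bool × A5) (l : List (Bool × A5)) : prr x l ≤ 1 := by
  cases l with
  | nil => exact zero_le_one
  | cons y l =>
    simp only [prr]
    split_ifs <;> norm_num

private theorem le_prr (x : Bool × A5) (l : List (Bool × A5)) : -1 ≤ prr x l := by
  cases l with
  | nil => exact neg_one_lt_zero.le
  | cons y l =>
    simp only [prr]
    split_ifs <;> norm_num

private theorem prr_false (a : A5) (l : List (Bool × A5)) : 0 ≤ prr (false, a) l := by
  cases l with
  | nil => exact le_refl _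
  | cons y l =>
    simp only [prr]
    split_ifs with h1 h2
    · norm_num
    · exact absurd (show false = true from congrArg Prod.fst h2.1) Bool.false_ne_true
    · norm_num

private theorem prr_true (a : A5) (l : List (Bool × A5)) : prr (true, a) l ≤ 0 := by
  cases l with
  | nil => exact le_refl _
  | cons y l =>
    simp only [prr]
    split_ifs with h1 h2
    · exact absurd (show false = true from (congrArg Prod.fst h1.1).symm) Bool.false_ne_true
    · norm_num
    · norm_num

private theorem prr_true_ne {a : A5} (ha : a ≠ ax) (l : List (Bool × A5)) :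
    prr (true, a) l = 0 := by
  cases l with
  | nil => rfl
  | cons y l =>
    simp only [prr]
    split_ifs with h1 h2
    · exact absurd (show false = true from (congrArg Prod.fst h1.1).symm) Bool.false_ne_true
    · exact absurd (congrArg Prod.snd h2.1) ha
    · rfl

private theorem prr_false_ne {a : A5} (ha : a ≠ ax⁻¹) (l : List (Bool × A5)) :
    prr (false, a) l = 0 := by
  cases l with
  | nil => rfl
  | cons y l =>
    simp only [prr]
    split_ifs with h1 h2
    · exact absurd (congrArg Prod.snd h1.1) ha
    · exact absurd (show false = true from congrArg Prod.fst h2.1) Bool.false_ne_true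
    · rfl

private theorem chi_raw (c : Bool) (a : A5) (W : List (Bool × A5)) :
    |chi (raw none c a W) - chi W| ≤ 2 := by
  rcases W with _ | ⟨⟨d, b⟩, l⟩
  · simp only [raw, reduceCtorEq, or_false]
    split_ifs <;> norm_num [chi]
  · simp only [raw, reduceCtorEq, or_false]
    have h1 := prr_le (d, b) l
    have h2 := le_prr (d, b) l
    split_ifs with h3 h4 h5
    · rw [chi_cons (d, b) l, abs_le]
      constructor <;> linarith
    · have h6 := prr_le (c, a * b) l
      have h7 := le_prr (c, a * b) l
      rw [chi_cons (d, b) l, chi_cons (c, a * b) l, abs_le]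
      constructor <;> linarith
    · norm_num
    · have h6 := prr_le (c, a) ((d, b) :: l)
      have h7 := le_prr (c, a) ((d, b) :: l)
      rw [chi_cons (c, a) ((d, b) :: l), abs_le]
      constructor <;> linarith

theorem phi_jj (g : Q none) (c : Bool) (a : A5) : |phi (g * jj none c a) - phi g| ≤ 2 := by
  unfold phi
  rw [wd_mul_jj]
  exact chi_raw c a⁻¹ (wd g)

theorem phi_alpha (g : Q none) (i : Fin 4) (N : ℤ) :
    |phi (g * alpha none i ^ N) - phi g| ≤ 2 := by
  obtain ⟨c, a, h⟩ := alpha_jj none i
  rw [h, ← map_zpow]
  exact phi_jj g c (a ^ N)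

private theorem chi_le (l : List (Bool × A5)) : |chi l| ≤ l.length := by
  induction l with
  | nil => norm_num [chi]
  | cons x l ih =>
    have h1 := prr_le x l
    have h2 := le_prr x l
    rw [abs_le] at ih ⊢
    rw [chi_cons, List.length_cons]
    push_cast
    constructor <;> linarith [ih.1, ih.2]

theorem phi_le (g : Q none) : |phi g| ≤ (wd g).length := chi_le (wd g)

theorem phi_one : phi 1 = 0 := by
  unfold phi
  rw [wd_one]
  rfl

private theorem wd_mul_zw (g : Q none) :
    wd (g * lam none zw) = raw none false ax⁻¹ (raw none true ax⁻¹ (wd g)) := by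
  have h : lam none zw = jj none true ax * jj none false ax := by
    unfold lam zw
    rw [map_mul, FreeGroup.lift_apply_of, FreeGroup.lift_apply_of]
    rfl
  rw [h, ← mul_assoc, wd_mul_jj, wd_mul_jj]

private theorem step_zw {W : List (Bool × A5)} (hW : Rd W) :
    (chi (raw none false ax⁻¹ (raw none true ax⁻¹ W)) = chi W + 1 ∧
      (NH true W → NH true (raw none false ax⁻¹ (raw none true ax⁻¹ W)))) ∨
    (¬ NH true W ∧ |chi (raw none false ax⁻¹ (raw none true ax⁻¹ W)) - chi W| ≤ 1 ∧
      NH true (raw none false ax⁻¹ (raw none true ax⁻¹ W))) := by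
  have hi := ax_inv_ne_one
  have hft : (false : Bool) ≠ true := by decide
  have htf : (true : Bool) ≠ false := by decide
  have hnew : ∀ (b : A5) (l : List (Bool × A5)),
      raw none false ax⁻¹ ((true, b) :: l) = (false, ax⁻¹) :: (true, b) :: l := by
    intro b l
    simp [raw, hi]
  by_cases hS : NH true W
  · left
    have h1 : raw none true ax⁻¹ W = (true, ax⁻¹) :: W := by
      rcases W with _ | ⟨⟨d, b⟩, l⟩
      · simp [raw, hi]
      · have hd : d ≠ true := hS
        simp [raw, hi, hd]
    rw [h1, hnew]
    refine ⟨?_, fun _ => hft⟩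
    rw [chi_cons, chi_cons, prr_true_ne ax_inv_ne]
    have h2 : prr (false, ax⁻¹) ((true, ax⁻¹) :: W) = 1 := by
      simp [prr]
    rw [h2]
    ring
  · rcases W with _ | ⟨⟨d, a⟩, l⟩
    · exact absurd trivial hS
    · have hd : d = true := by
        by_contra h
        exact hS h
      subst hd
      obtain ⟨ha, hl, hr⟩ := hW
      by_cases hax : a = ax
      · subst hax
        have h1 : raw none true ax⁻¹ ((true, ax) :: l) = l := by
          simp [raw]
        rw [h1]
        rcases l with _ | ⟨⟨e, b⟩, l⟩
        · right
          have h2 : raw none false ax⁻¹ [] = [(false, ax⁻¹)] := by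
            simp [raw, hi]
          rw [h2]
          refine ⟨hS, ?_, hft⟩
          norm_num [chi]
        · have he : e = false := by
            have h3 : e ≠ true := hl
            revert h3
            cases e <;> decide
          subst he
          by_cases hb : b = ax
          · subst hb
            left
            have h2 : raw none false ax⁻¹ ((false, ax) :: l) = l := by
              simp [raw]
            rw [h2]
            refine ⟨?_, fun h => absurd h hS⟩
            rw [chi_cons, chi_cons, prr_false_ne ax_inv_ne.symm]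
            have h3 : prr (true, ax) ((false, ax) :: l) = -1 := by
              simp [prr]
            rw [h3]
            ring
          · right
            have h2 : raw none false ax⁻¹ ((false, b) :: l) = (false, ax⁻¹ * b) :: l := by
              have h4 : ax⁻¹ * b ≠ 1 := fun h => hb (inv_mul_eq_one.1 h).symm
              simp [raw, h4]
            rw [h2]
            refine ⟨hS, ?_, hft⟩
            have h3 : prr (true, ax) ((false, b) :: l) = 0 := by
              simp [prr, hb]
            rw [chi_cons, chi_cons (true, ax), chi_cons (false, b), h3, abs_le]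
            have h5 := prr_false (ax⁻¹ * b) l
            have h6 := prr_le (false, ax⁻¹ * b) l
            have h7 := prr_false b l
            have h8 := prr_le (false, b) l
            constructor <;> linarith
      · right
        have h1 : raw none true ax⁻¹ ((true, a) :: l) = (true, ax⁻¹ * a) :: l := by
          have h4 : ax⁻¹ * a ≠ 1 := fun h => hax (inv_mul_eq_one.1 h).symm
          simp [raw, h4]
        rw [h1, hnew]
        refine ⟨hS, ?_, hft⟩
        have h3 : prr (false, ax⁻¹) ((true, ax⁻¹ * a) :: l) = 0 := by
          have h4 : ¬ (ax⁻¹ * a = ax⁻¹) := fun h => ha (mul_eq_left.1 h)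
          simp [prr, h4]
        rw [chi_cons, chi_cons (true, ax⁻¹ * a), chi_cons (true, a), h3, prr_true_ne hax, abs_le]
        have h5 := prr_true (ax⁻¹ * a) l
        have h6 := le_prr (true, ax⁻¹ * a) l
        constructor <;> linarith

private theorem phi_pow (g : Q none) (j : ℕ) :
    phi (g * lam none zw ^ j) = phi g + j ∨
      (NH true (wd (g * lam none zw ^ j)) ∧ |phi (g * lam none zw ^ j) - phi g - j| ≤ 2) := by
  induction j with
  | zero =>
    left
    rw [pow_zero, mul_one]
    norm_num
  | succ j ih =>
    have h1 := step_zw (wd_red (g * lam none zw ^ j))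
    rw [← wd_mul_zw, mul_assoc, ← pow_succ] at h1
    change (phi (g * lam none zw ^ (j + 1)) = phi (g * lam none zw ^ j) + 1 ∧ _) ∨
      (_ ∧ |phi (g * lam none zw ^ (j + 1)) - phi (g * lam none zw ^ j)| ≤ 1 ∧ _) at h1
    push_cast
    rcases ih with ih | ⟨ih1, ih2⟩
    · rcases h1 with ⟨h2, h3⟩ | ⟨h2, h3, h4⟩
      · left
        rw [h2, ih]
        ring
      · right
        refine ⟨h4, ?_⟩
        rw [ih] at h3
        rw [abs_le] at h3 ⊢
        constructor <;> linarith [h3.1, h3.2]
    · rcases h1 with ⟨h2, h3⟩ | ⟨h2, h3, h4⟩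
      · right
        refine ⟨h3 ih1, ?_⟩
        rw [h2]
        rw [abs_le] at ih2 ⊢
        constructor <;> linarith [ih2.1, ih2.2]
      · exact absurd ih1 h2

private theorem phi_pow_le (g : Q none) (j : ℕ) :
    |phi (g * lam none zw ^ j) - phi g - j| ≤ 2 := by
  rcases phi_pow g j with h | h
  · rw [h]
    norm_num
  · exact h.2

theorem phi_zpow (g : Q none) (j : ℤ) : |phi (g * lam none zw ^ j) - phi g - j| ≤ 2 := by
  rcases Int.eq_nat_or_neg j with ⟨n, rfl | rfl⟩
  · rw [zpow_natCast]
    exact phi_pow_le g n
  · have h1 := phi_pow_le (g * lam none zw ^ (-(n : ℤ))) n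
    rw [mul_assoc, zpow_neg, zpow_natCast, inv_mul_cancel, mul_one] at h1
    rw [zpow_neg, zpow_natCast]
    rw [abs_le] at h1 ⊢
    constructor <;> linarith [h1.1, h1.2]

end Pool.Agent.MinSig
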