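import Pool.Agent.MinSig.Loc
import Pool.Agent.MinSig.QPsi

/-!
# MinSig Esc: the coordinate zero escapes

PROOF.  Strong induction on `l.length`, for all `y`, `g`.  If `l.length ≤ p` then `2 * l.length <
D`, and
`loc` gives either `ctr = alpha none i ^ N` with equal values of `EE` (`phi_alpha`), or
`ctr = lam none zw ^ j` with `j = e * (EE (y + hh l) - EE y)` (`phi_zpow`); the error is at most
`2`.  If
`l.length > p` write `l = l.take p ++ l.drop p` (`ctr_append`, `hh_append`), use the case just
treated
for the first part and the induction hypothesis for the second part, whose length is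
`l.length - p` (`(l.length - p) / p + 1 = l.length / p`, `Nat.sub_div_self...` or
`Nat.div_eq_sub_div`), with `g * ctr D e none y (l.take p)` for `g`.
-/

set_option autoImplicit false

namespace Pool.Agent.MinSig

private theorem escape_short {D e p : ℕ} (hpD : 2 * p < D)
    {l : List (Option (Fin 7) × Bool)} (hl : l.length ≤ p) (y : ℤ) (g : Q none) :
    |phi (g * ctr D e none y l) - phi g - (e : ℤ) * (EE D (y + hh l) - EE D y)| ≤ 2 := by
  have h0 : 2 * l.length < D := by omega
  rcases loc e none h0 y with ⟨i, x, h1, h2⟩ | h1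
  · rw [h1, h2, sub_self, mul_zero, sub_zero]
    exact phi_alpha g i _
  · rw [h1]
    exact phi_zpow g _

private theorem escape_aux {D e p : ℕ} (hp : 0 < p) (hpD : 2 * p < D) :
    ∀ (n : ℕ) (l : List (Option (Fin 7) × Bool)), l.length = n → ∀ (y : ℤ) (g : Q none),
      |phi (g * ctr D e none y l) - phi g - (e : ℤ) * (EE D (y + hh l) - EE D y)| ≤
        2 * (((l.length / p : ℕ) : ℤ) + 1) := by
  intro n
  induction n using Nat.strong_induction_on with
  | _ n ih =>
    intro l hn y g
    rcases le_or_gt l.length p with h1 | h1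
    · refine (escape_short hpD h1 y g).trans ?_
      have h2 : (0 : ℤ) ≤ ((l.length / p : ℕ) : ℤ) := Int.natCast_nonneg _
      omega
    · have h2 : (l.drop p).length < n := by
        rw [List.length_drop]
        omega
      have h3 := ih _ h2 (l.drop p) rfl (y + hh (l.take p)) (g * ctr D e none y (l.take p))
      have h4 := escape_short (e := e) (l := l.take p) hpD (List.length_take_le p l) y g
      have e1 : l.take p ++ l.drop p = l := List.take_append_drop p l
      have e2 : ctr D e none y l =
          ctr D e none y (l.take p) * ctr D e none (y + hh (l.take p)) (l.drop p) := by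
        rw [← ctr_append, e1]
      have e3 : hh l = hh (l.take p) + hh (l.drop p) := by
        rw [← hh_append, e1]
      have e4 : l.length / p = (l.drop p).length / p + 1 := by
        rw [List.length_drop, Nat.div_eq_sub_div hp h1.le]
      rw [e2, e3, e4, ← mul_assoc, ← add_assoc]
      rw [abs_le] at h3 h4 ⊢
      rw [Nat.cast_add, Nat.cast_one]
      constructor
      · linarith [h3.1, h4.1]
      · linarith [h3.2, h4.2]

theorem escape {D e p : ℕ} (hp : 0 < p) (hpD : 2 * p < D) (l : List (Option (Fin 7) × Bool))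
    (y : ℤ) (g : Q none) :
    |phi (g * ctr D e none y l) - phi g - (e : ℤ) * (EE D (y + hh l) - EE D y)| ≤
      2 * (((l.length / p : ℕ) : ℤ) + 1) :=
  escape_aux hp hpD _ l rfl y g

/-- `|h| ≤ 8 D (|E h| + 1)` -/
theorem EE_ge {D : ℕ} (hD : 0 < D) (h : ℤ) : |h| ≤ 8 * D * (|EE D h| + 1) := by
  unfold EE
  have hm : (0 : ℤ) < ((8 * D : ℕ) : ℤ) := by
    push_cast
    omega
  have h1 := Int.mul_ediv_add_emod (-h) ((8 * D : ℕ) : ℤ)
  have h2 := Int.emod_nonneg (-h) hm.ne'
  have h3 := Int.emod_lt_of_pos (-h) hm
  have h4 : (8 * (D : ℤ)) = ((8 * D : ℕ) : ℤ) := by push_cast; ring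
  rw [h4, abs_neg]
  generalize ((8 * D : ℕ) : ℤ) = m at hm h1 h2 h3 ⊢
  generalize (-h) / m = k at h1 ⊢
  have h5 : m * k ≤ m * |k| := mul_le_mul_of_nonneg_left (le_abs_self k) hm.le
  have h6 : m * -k ≤ m * |k| := mul_le_mul_of_nonneg_left (neg_le_abs k) hm.le
  rw [abs_le, mul_add, mul_one]
  constructor
  · nlinarith
  · nlinarith

theorem EE_zero (D : ℕ) : EE D 0 = 0 := by
  simp [EE]

end Pool.Agent.MinSig
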