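import Pool.Agent.MinSig.Defs

/-!
# MinSig FA5: the group `A5` and its generators of order three

PROOF.  `ax_pow`, `ay_pow`, `ax_ne_one`: `Subtype.ext` and `decide` on `Equiv.Perm (Fin 5)`.
`A5_gen`: let `H` be the closure.  `ax * ay` has order `5`, `ax` has order `3`, and
`ax * ay * ax * ay⁻¹` has order `2` (`orderOf_eq_prime`, the powers by `decide`), all in `H`, so
`30 = 2 * 3 * 5` divides `Nat.card H` (`orderOf_dvd_natCard` in the group `H`, or
`Subgroup.orderOf_dvd_natCard`).  `Nat.card A5 = 60` (`nat_card_alternatingGroup` or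
`two_mul_card_alternatingGroup`), so the index of `H` is `1` or `2`.  If it is `2` then `H` is
normal
(`Subgroup.normal_of_index_eq_two`), so `H = ⊥` or `H = ⊤` because `A5` is simple
(`alternatingGroup.isSimpleGroup_five`), and both have index different from `2`.
(A direct enumeration by `decide` is too slow.)
`A5_perf`: `commutator A5` is normal, so it is `⊥` or `⊤`; if it is `⊥` then `ax` and `ay` commute
(`Subgroup.commutator_mem_commutator`, `commutatorElement_eq_one_iff_mul_comm`), which is false
(`decide`).
-/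

set_option autoImplicit false

namespace Pool.Agent.MinSig

theorem ax_pow : ax ^ 3 = 1 := by
  refine Subtype.ext ?_
  decide

theorem ay_pow : ay ^ 3 = 1 := by
  refine Subtype.ext ?_
  decide

theorem ax_ne_one : ax ≠ 1 := by
  intro h
  have h1 := congrArg Subtype.val h
  revert h1
  decide

theorem ax_inv_ne_one : ax⁻¹ ≠ 1 := by
  intro h
  have h1 := congrArg Subtype.val h
  revert h1
  decide

theorem ax_inv_ne : ax⁻¹ ≠ ax := by
  intro h
  have h1 := congrArg Subtype.val h
  revert h1
  decide

theorem A5_gen : Subgroup.closure {ax, ay} = (⊤ : Subgroup A5) := by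
  obtain ⟨H, hH⟩ : ∃ H : Subgroup A5, H = Subgroup.closure {ax, ay} := ⟨_, rfl⟩
  rw [← hH]
  have hx : ax ∈ H := by rw [hH]; exact Subgroup.subset_closure (by simp)
  have hy : ay ∈ H := by rw [hH]; exact Subgroup.subset_closure (by simp)
  have o3 : orderOf ax = 3 := by
    have : Fact (Nat.Prime 3) := ⟨by norm_num⟩
    exact orderOf_eq_prime ax_pow ax_ne_one
  have o5 : orderOf (ax * ay) = 5 := by
    have : Fact (Nat.Prime 5) := ⟨by norm_num⟩
    refine orderOf_eq_prime (Subtype.ext ?_) ?_
    · decide
    · intro h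
      have h1 := congrArg Subtype.val h
      revert h1
      decide
  have o2 : orderOf (ax * ay * ax * ay⁻¹) = 2 := by
    have : Fact (Nat.Prime 2) := ⟨by norm_num⟩
    refine orderOf_eq_prime (Subtype.ext ?_) ?_
    · decide
    · intro h
      have h1 := congrArg Subtype.val h
      revert h1
      decide
  have d3 : 3 ∣ Nat.card H := by
    rw [← o3]; exact Subgroup.orderOf_dvd_natCard H hx
  have d5 : 5 ∣ Nat.card H := by
    have h0 := Subgroup.orderOf_dvd_natCard H (H.mul_mem hx hy)
    rwa [o5] at h0
  have d2 : 2 ∣ Nat.card H := by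
    rw [← o2]
    exact Subgroup.orderOf_dvd_natCard H
      (H.mul_mem (H.mul_mem (H.mul_mem hx hy) hx) (H.inv_mem hy))
  have d30 : 30 ∣ Nat.card H := by
    have h1 : 2 * 3 ∣ Nat.card H := Nat.Coprime.mul_dvd_of_dvd_of_dvd (by norm_num) d2 d3
    exact Nat.Coprime.mul_dvd_of_dvd_of_dvd (m := 2 * 3) (n := 5) (by norm_num) h1 d5
  have hc : Nat.card A5 = 60 := by
    have h1 := nat_card_alternatingGroup (α := Fin 5)
    rw [Nat.card_eq_fintype_card (α := Fin 5), Fintype.card_fin] at h1
    exact h1
  have hi := H.card_mul_index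
  rw [hc] at hi
  obtain ⟨k, hk⟩ := d30
  have hi2 : k * H.index = 2 := by
    rw [hk] at hi
    have : 30 * (k * H.index) = 30 * 2 := by rw [← mul_assoc, hi]
    exact Nat.eq_of_mul_eq_mul_left (by norm_num) this
  have hdvd : H.index ∣ 2 := ⟨k, by rw [mul_comm]; exact hi2.symm⟩
  rcases (Nat.dvd_prime Nat.prime_two).1 hdvd with h1 | h2
  · exact Subgroup.index_eq_one.1 h1
  · have : H.Normal := Subgroup.normal_of_index_eq_two h2
    have : IsSimpleGroup A5 := alternatingGroup.isSimpleGroup (by simp)
    rcases IsSimpleGroup.eq_bot_or_eq_top_of_normal H inferInstance with h | h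
    · exfalso
      rw [h] at hx
      exact ax_ne_one (Subgroup.mem_bot.1 hx)
    · exact h

theorem A5_perf : commutator A5 = ⊤ := by
  have : IsSimpleGroup A5 := alternatingGroup.isSimpleGroup (by simp)
  rcases IsSimpleGroup.eq_bot_or_eq_top_of_normal (commutator A5) inferInstance with h | h
  · exfalso
    have h1 : ax * ay * ax⁻¹ * ay⁻¹ ∈ commutator A5 :=
      Subgroup.commutator_mem_commutator (Subgroup.mem_top _) (Subgroup.mem_top _)
    rw [h, Subgroup.mem_bot] at h1
    have h2 := congrArg Subtype.val h1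
    revert h2
    decide
  · exact h

end Pool.Agent.MinSig
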