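import Pool.Agent.MinSig.DefsB

/-!
# MinSig RdB: normal form of a countable union of countable intersections of open sets

PROOF.  Let `C = ⋃ i, ⋂ j, U i j` with open sets.  For an open set `U` and `s : ℕ` let
`U_s = {x | ∀ y, (∀ i < s, y i = x i) → y ∈ U}`: it is clopen (it depends only on `x i` for `i <
s`:
private lemma: a set `A` of `ℕ → Bool` such that `x ∈ A` and `∀ i < s, y i = x i` imply `y ∈ A` is
clopen, because the sets `{y | ∀ i < s, y i = x i}` are open: finite intersections of preimages of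
points, `isOpen_discrete`, `continuous_apply`), increasing in `s`, contained in `U`, and
`U = ⋃ s, U_s` (product topology: `isOpen_pi_iff`, or the neighborhoods
`{y | ∀ i < s, y i = x i}`: a basis).
For `x`, `i` let `M x i s` be the number of the `k ≤ s` with: for all `j ≤ k`, `x ∈ (U i j)_s`
(`k < s + 1`).  It is monotone in `s`, bounded if `x ∉ ⋂ j, U i j` (if `x ∉ U i j` then `M ≤ j`),
and
unbounded if `x ∈ ⋂ j, U i j` (for each `k` there is `s ≥ k` with `x ∈ (U i j)_s` for all `j ≤ k`,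
then `M x i s ≥ k + 1`).
Let `e x i s` be the property `M x i s < M x i (s + 1)`.  Since `M x i` is monotone:
`{s | e x i s}` is infinite iff `M x i` is unbounded (if it is finite, `M x i` is eventually
constant; if `M x i ≤ b` then at most `b` values of `s` satisfy `e`: the sum of the increments).
Let `P x j k := ∃ i ≤ j, e x i k`.  It is monotone in `j`, `{x | P x j k}` is clopen (it depends
on
finitely many coordinates of `x`), and `{k | P x j k}` is infinite iff `{k | e x i k}` is infinite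
for some `i ≤ j` (a finite union).
-/

set_option autoImplicit false

namespace Pool.Agent.MinSig

/-- the largest subset of `U` which depends on the first `s` coordinates -/
private def cyl (U : Set (ℕ → Bool)) (s : ℕ) : Set (ℕ → Bool) :=
  {x | ∀ y, (∀ i < s, y i = x i) → y ∈ U}

private theorem cyl_mono {U : Set (ℕ → Bool)} {s t : ℕ} (h : s ≤ t) {x : ℕ → Bool}
    (hx : x ∈ cyl U s) : x ∈ cyl U t := fun y hy => hx y fun i hi => hy i (hi.trans_le h)

private theorem cyl_sub {U : Set (ℕ → Bool)} {s : ℕ} {x : ℕ → Bool} (hx : x ∈ cyl U s) :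
    x ∈ U := hx x fun _ _ => rfl

private theorem cyl_congr {U : Set (ℕ → Bool)} {s t : ℕ} (h : s ≤ t) {x y : ℕ → Bool}
    (hxy : ∀ i < t, y i = x i) : y ∈ cyl U s ↔ x ∈ cyl U s := by
  constructor
  · intro hy z hz
    exact hy z fun i hi => (hz i hi).trans (hxy i (hi.trans_le h)).symm
  · intro hx z hz
    exact hx z fun i hi => (hz i hi).trans (hxy i (hi.trans_le h))

private theorem exists_cyl {U : Set (ℕ → Bool)} (hU : IsOpen U) {x : ℕ → Bool} (hx : x ∈ U) :
    ∃ s, x ∈ cyl U s := by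
  rw [isOpen_pi_iff] at hU
  obtain ⟨I, u, hu, hsub⟩ := hU x hx
  refine ⟨I.sup id + 1, fun y hy => hsub fun i hi => ?_⟩
  have h1 : i < I.sup id + 1 := Nat.lt_succ_of_le (Finset.le_sup (f := id) hi)
  rw [hy i h1]
  exact (hu i hi).2

private theorem isOpen_cyl {A : Set (ℕ → Bool)} {s : ℕ}
    (h : ∀ x ∈ A, ∀ y, (∀ i < s, y i = x i) → y ∈ A) : IsOpen A := by
  rw [isOpen_iff_forall_mem_open]
  intro x hx
  refine ⟨{y | ∀ i < s, y i = x i}, fun y hy => h x hx y hy, ?_, fun _ _ => rfl⟩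
  have h1 : {y : ℕ → Bool | ∀ i < s, y i = x i} = ⋂ i ∈ Finset.range s,
      (fun y : ℕ → Bool => y i) ⁻¹' {x i} := by
    ext y
    simp
  rw [h1]
  exact isOpen_biInter_finset fun i _ => (isOpen_discrete _).preimage (continuous_apply i)

private theorem isClopen_cyl {A : Set (ℕ → Bool)} {s : ℕ}
    (h : ∀ x ∈ A, ∀ y, (∀ i < s, y i = x i) → y ∈ A) : IsClopen A := by
  refine ⟨⟨isOpen_cyl (s := s) fun x hx y hy hyA => hx ?_⟩, isOpen_cyl h⟩
  exact h y hyA x fun i hi => (hy i hi).symm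

/-- at the stage `s`, `x` is confirmed to be in the first `k + 1` sets -/
private def GG (V : ℕ → Set (ℕ → Bool)) (x : ℕ → Bool) (s k : ℕ) : Prop :=
  ∀ j ≤ k, x ∈ cyl (V j) s

/-- `s` is the first stage `≥ k` of the confirmation for `k` -/
private def EK (V : ℕ → Set (ℕ → Bool)) (x : ℕ → Bool) (k s : ℕ) : Prop :=
  k ≤ s ∧ GG V x s k ∧ ∀ s' < s, k ≤ s' → ¬ GG V x s' k

private theorem GG_congr (V : ℕ → Set (ℕ → Bool)) {s t k : ℕ} (h : s ≤ t) {x y : ℕ → Bool}
    (hxy : ∀ i < t, y i = x i) : GG V y s k ↔ GG V x s k :=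
  forall_congr' fun _ => forall_congr' fun _ => cyl_congr h hxy

private theorem EK_congr (V : ℕ → Set (ℕ → Bool)) {s k : ℕ} {x y : ℕ → Bool}
    (hxy : ∀ i < s, y i = x i) (h : EK V x k s) : EK V y k s :=
  ⟨h.1, (GG_congr V le_rfl hxy).2 h.2.1, fun s' hs' hk hG =>
    h.2.2 s' hs' hk ((GG_congr V hs'.le hxy).1 hG)⟩

private theorem EK_sub (V : ℕ → Set (ℕ → Bool)) (x : ℕ → Bool) (k : ℕ) :
    {s | EK V x k s}.Subsingleton := by
  intro s hs t ht
  rcases lt_trichotomy s t with h | h | h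
  · exact absurd hs.2.1 (ht.2.2 s h hs.1)
  · exact h
  · exact absurd ht.2.1 (hs.2.2 t h ht.1)

private theorem EK_fin {V : ℕ → Set (ℕ → Bool)} {x : ℕ → Bool} {j : ℕ} (h : x ∉ V j) :
    {s | ∃ k, EK V x k s}.Finite := by
  refine ((Set.finite_Iio j).biUnion fun k _ => (EK_sub V x k).finite).subset ?_
  rintro s ⟨k, hk⟩
  refine Set.mem_biUnion (x := k) ?_ hk
  rw [Set.mem_Iio]
  by_contra h1
  rw [not_lt] at h1
  exact h (cyl_sub (hk.2.1 j h1))

private theorem EK_inf {V : ℕ → Set (ℕ → Bool)} (hV : ∀ j, IsOpen (V j)) {x : ℕ → Bool}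
    (h : ∀ j, x ∈ V j) : {s | ∃ k, EK V x k s}.Infinite := by
  classical
  choose f hf using fun j => exists_cyl (hV j) (h j)
  refine Set.infinite_of_forall_exists_gt fun a => ?_
  have h1 : ∃ s, a + 1 ≤ s ∧ GG V x s (a + 1) := by
    refine ⟨max (a + 1) ((Finset.range (a + 2)).sup f), le_max_left _ _, fun j hj => ?_⟩
    refine cyl_mono ?_ (hf j)
    exact (Finset.le_sup (f := f) (Finset.mem_range.2 (by omega))).trans (le_max_right _ _)
  refine ⟨Nat.find h1, ⟨a + 1, (Nat.find_spec h1).1, (Nat.find_spec h1).2,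
    fun s' hs' hk hG => Nat.find_min h1 hs' ⟨hk, hG⟩⟩, ?_⟩
  exact (Nat.find_spec h1).1

theorem normal_form {C : Set (ℕ → Bool)} (hC : IsSigma03 C) :
    ∃ P : (ℕ → Bool) → ℕ → ℕ → Prop, (∀ j k, IsClopen {x | P x j k}) ∧
      (∀ x j j' k, j ≤ j' → P x j k → P x j' k) ∧
      ∀ x, x ∈ C ↔ ∃ j, {k | P x j k}.Infinite := by
  obtain ⟨U, hU, rfl⟩ := hC
  refine ⟨fun x j s => ∃ i ≤ j, ∃ k, EK (U i) x k s, fun j s => ?_, ?_, fun x => ?_⟩
  · refine isClopen_cyl (s := s) ?_
    rintro x ⟨i, hi, k, hk⟩ y hy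
    exact ⟨i, hi, k, EK_congr (U i) hy hk⟩
  · rintro x j j' s hj ⟨i, hi, h⟩
    exact ⟨i, hi.trans hj, h⟩
  · rw [Set.mem_iUnion]
    constructor
    · rintro ⟨i, hi⟩
      rw [Set.mem_iInter] at hi
      refine ⟨i, (EK_inf (hU i) hi).mono ?_⟩
      rintro s ⟨k, hk⟩
      exact ⟨i, le_rfl, k, hk⟩
    · rintro ⟨j, hj⟩
      by_contra hcon
      push Not at hcon
      have hfin : (⋃ i ∈ Set.Iic j, {s | ∃ k, EK (U i) x k s}).Finite := by
        refine (Set.finite_Iic j).biUnion fun i _ => ?_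
        have h1 := hcon i
        rw [Set.mem_iInter] at h1
        push Not at h1
        obtain ⟨l, hl⟩ := h1
        exact EK_fin hl
      refine hj (hfin.subset ?_)
      rintro s ⟨i, hi, h⟩
      exact Set.mem_biUnion (x := i) hi h

end Pool.Agent.MinSig
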