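import Pool.Agent.MinSig.RdA
import Pool.Agent.MinSig.RdB

/-!
# MinSig RdC: the reduction

PROOF.  `P` from `normal_form hC`, `σ x = stf (P x)`.  Clopen: by `stat_iff` the set is a finite
Boolean combination of the clopen sets `{x | P x j k}` (`IsClopen.union`, `IsClopen.inter`,
`IsClopen.compl`, `Set.Finite.isClopen_biInter`; the conditions which do not depend on `x` give
`∅` or `univ`).
If `x ∈ C` then `stf_caseB`; if `x ∉ C` then all the sets `{k | P x j k}` are finite and
`stf_caseA`.
-/

set_option autoImplicit false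

namespace Pool.Agent.MinSig

private theorem clopen_const {X : Type*} [TopologicalSpace X] (p : Prop) :
    IsClopen {_x : X | p} := by
  by_cases h : p
  · simp only [h, Set.setOf_true]
    exact isClopen_univ
  · simp only [h, Set.setOf_false]
    exact isClopen_empty

private theorem clopen_and {X : Type*} [TopologicalSpace X] {p q : X → Prop}
    (hp : IsClopen {x | p x}) (hq : IsClopen {x | q x}) : IsClopen {x | p x ∧ q x} :=
  hp.inter hq

private theorem clopen_or {X : Type*} [TopologicalSpace X] {p q : X → Prop}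
    (hp : IsClopen {x | p x}) (hq : IsClopen {x | q x}) : IsClopen {x | p x ∨ q x} :=
  hp.union hq

private theorem clopen_not {X : Type*} [TopologicalSpace X] {p : X → Prop}
    (hp : IsClopen {x | p x}) : IsClopen {x | ¬ p x} :=
  hp.compl

private theorem clopen_all {X : Type*} [TopologicalSpace X] {p : X → ℕ → Prop} (μ : ℕ)
    (hp : ∀ k, IsClopen {x | p x k}) : IsClopen {x | ∀ k < μ, p x k} := by
  have h : {x | ∀ k < μ, p x k} = ⋂ k ∈ Set.Iio μ, {x | p x k} := by
    ext x
    simp
  rw [h]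
  exact (Set.finite_Iio μ).isClopen_biInter fun k _ => hp k

theorem reduction {C : Set (ℕ → Bool)} (hC : IsSigma03 C) :
    ∃ σ : (ℕ → Bool) → ℕ → Option ℕ, (∀ n μ, IsClopen {x | σ x n = some μ}) ∧
      (∀ x, x ∈ C → CaseB (σ x)) ∧ (∀ x, x ∉ C → CaseA (σ x)) := by
  obtain ⟨P, h1, h2, h3⟩ := normal_form hC
  refine ⟨fun x => stf (P x), fun n μ => ?_, fun x hx => ?_, fun x hx => ?_⟩
  · have h4 : {x | stf (P x) n = some μ} =
        {x | (¬ ((Nat.unpair n).2 = 0 ∨ P x (Nat.unpair n).1 ((Nat.unpair n).2 - 1)) ∧ μ = 0) ∨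
          (((Nat.unpair n).2 = 0 ∨ P x (Nat.unpair n).1 ((Nat.unpair n).2 - 1)) ∧
            (Nat.unpair n).2 ≤ μ ∧ P x (Nat.unpair n).1 μ ∧
            ∀ k' < μ, ¬ ((Nat.unpair n).2 ≤ k' ∧ P x (Nat.unpair n).1 k'))} := by
      ext x
      exact stat_iff (P x) _ _ μ
    rw [h4]
    have h5 : IsClopen {x | (Nat.unpair n).2 = 0 ∨
        P x (Nat.unpair n).1 ((Nat.unpair n).2 - 1)} :=
      clopen_or (clopen_const _) (h1 _ _)
    refine clopen_or (clopen_and (clopen_not h5) (clopen_const _)) (clopen_and h5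
      (clopen_and (clopen_const _) (clopen_and (h1 _ _) (clopen_all μ fun k => ?_))))
    exact clopen_not (clopen_and (clopen_const _) (h1 _ _))
  · exact stf_caseB (h2 x) ((h3 x).1 hx)
  · refine stf_caseA fun j => ?_
    by_contra hcon
    exact hx ((h3 x).2 ⟨j, hcon⟩)

end Pool.Agent.MinSig
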