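import Pool.Agent.MinSig.UpA
import Pool.Agent.MinGrowth.Iso

/-!
# MinSig Trans: from the free group of rank eight to all larger ranks

PROOF.  `theta_exists`: the homomorphism `FreeGroup.lift` which maps the generator `0` to `tt`, the
generator `i` to `aw (i - 1)` for `1 ≤ i ≤ 7` and all other generators to `1`; it is surjective
(`FreeGroup.closure_range_of` for `F`: the range contains all generators).
`marked_exists`: `Φ x = ⟨(K (σ x) univ).comap θ, _⟩` (`Subgroup.Normal.comap`), continuous by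
`continuous_marked`, because `w ∈ (Φ x).1 ↔ θ w ∈ K (σ x) univ`; the isomorphism:
`(QuotientGroup.mk' K).comp θ` is surjective with kernel `K.comap θ`;
`QuotientGroup.quotientKerEquivOfSurjective` and `QuotientGroup.quotientMulEquivOfEq`.
-/

set_option autoImplicit false

namespace Pool.Agent.MinSig

open Pool.Agent.MinGrowth

/-- the images of the generators -/
private def tg {m : ℕ} (i : Fin m) : F :=
  if h : (i : ℕ) = 0 then tt else if h' : (i : ℕ) < 8 then
    aw ⟨(i : ℕ) - 1, by omega⟩ else 1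

theorem theta_exists {m : ℕ} (hm : 8 ≤ m) :
    ∃ θ : FreeGroup (Fin m) →* F, Function.Surjective θ := by
  refine ⟨FreeGroup.lift tg, ?_⟩
  rw [← MonoidHom.range_eq_top, eq_top_iff, ← FreeGroup.closure_range_of, Subgroup.closure_le]
  rintro _ ⟨g, rfl⟩
  rcases g with _ | i
  · refine ⟨FreeGroup.of ⟨0, by omega⟩, ?_⟩
    rw [FreeGroup.lift_apply_of]
    simp [tg, tt]
  · refine ⟨FreeGroup.of ⟨(i : ℕ) + 1, by omega⟩, ?_⟩
    rw [FreeGroup.lift_apply_of]
    have hi : (i : ℕ) + 1 < 8 := by omega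
    simp [tg, aw, hi]

theorem marked_exists {m : ℕ} (hm : 8 ≤ m) {σ : (ℕ → Bool) → ℕ → Option ℕ}
    (h : ∀ w : F, IsClopen {x | w ∈ K (σ x) Set.univ}) :
    ∃ Φ : (ℕ → Bool) → MarkedGroup m, Continuous Φ ∧
      ∀ x, Nonempty (Gr (σ x) ≃* (Φ x).grp) := by
  obtain ⟨θ, hθ⟩ := theta_exists hm
  refine ⟨fun x => ⟨(K (σ x) Set.univ).comap θ, inferInstance⟩, ?_, fun x => ?_⟩
  · exact continuous_marked fun w => h (θ w)
  · have h1 : Function.Surjective ((QuotientGroup.mk' (K (σ x) Set.univ)).comp θ) :=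
      (QuotientGroup.mk'_surjective _).comp hθ
    have h2 : ((QuotientGroup.mk' (K (σ x) Set.univ)).comp θ).ker =
        (K (σ x) Set.univ).comap θ := by
      rw [← MonoidHom.comap_ker, QuotientGroup.ker_mk']
    exact ⟨(QuotientGroup.quotientKerEquivOfSurjective _ h1).symm.trans
      (QuotientGroup.quotientMulEquivOfEq h2)⟩

end Pool.Agent.MinSig
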