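import Pool.Agent.MinSig.UpB

/-!
# MinSig UpC: attaining the minimal growth rate is a countable union of countable intersections of
open sets

PROOF.  `attains_iff`: for a group `G` which has a finite generating set `AttainsMinGrowth G` iff
there is a finite `S` with closure `⊤` such that `growthRate S ≤ growthRate S'` for all finite `S'`
with closure `⊤` (`minGrowthRate` is the infimum: `csInf_le` with `bddBelow_rates`, `le_csInf`).
(No assumption on `G` is needed: both sides contain the existence of `S`.)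
Every finite subset of `N.grp` is `im N S` for a finite set `S` of words (`mkN_surjective`).  So,
with a surjection `ν : ℕ → Finset (FreeGroup (Fin m))`, `Att m` is the union over `i` of the
intersections of `Gen m (ν i)` with the sets
`(Gen m (ν j))ᶜ ∪ {N | growthRate (im N (ν i)) ≤ growthRate (im N (ν j))}`.
Each member is `IsGδ` (`gen_open`, `IsOpen.isGδ`, `gen_compl`, `cmp_gdelta`, `IsGδ.union`,
`IsGδ.iInter`, `IsGδ.inter`), and `isGδ_iff_eq_iInter_nat`.
-/

set_option autoImplicit false

namespace Pool.Agent.MinSig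

open Pool.Agent.MinGrowth

theorem attains_iff {G : Type*} [Group G] : AttainsMinGrowth G ↔
    ∃ S : Finset G, Subgroup.closure (S : Set G) = ⊤ ∧
      ∀ S' : Finset G, Subgroup.closure (S' : Set G) = ⊤ → growthRate S ≤ growthRate S' := by
  constructor
  · rintro ⟨S, h1, h2⟩
    refine ⟨S, h1, fun S' h3 => ?_⟩
    rw [h2]
    exact csInf_le (bddBelow_rates G) ⟨S', h3, rfl⟩
  · rintro ⟨S, h1, h2⟩
    refine ⟨S, h1, le_antisymm ?_ ?_⟩
    · refine le_csInf ⟨growthRate S, S, h1, rfl⟩ ?_
      rintro r ⟨S', h3, rfl⟩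
      exact h2 S' h3
    · exact csInf_le (bddBelow_rates G) ⟨S, h1, rfl⟩

private theorem exists_im {m : ℕ} (N : MarkedGroup m) (S : Finset N.grp) :
    ∃ S₀ : Finset (FreeGroup (Fin m)), im N S₀ = S := by
  classical
  choose f hf using mkN_surjective N
  refine ⟨S.image f, ?_⟩
  unfold im
  ext x
  simp only [Finset.mem_image, exists_exists_and_eq_and]
  constructor
  · rintro ⟨a, ha, rfl⟩
    rw [hf]
    exact ha
  · intro hx
    exact ⟨x, hx, hf x⟩

theorem att_sigma (m : ℕ) : IsSigma03 (Att m) := by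
  obtain ⟨ν, hν⟩ := exists_surjective_nat (Finset (FreeGroup (Fin m)))
  have h1 : Att m = ⋃ i, (Gen m (ν i) ∩ ⋂ j, ((Gen m (ν j))ᶜ ∪
      {N : MarkedGroup m | growthRate (im N (ν i)) ≤ growthRate (im N (ν j))})) := by
    ext N
    simp only [Set.mem_iUnion, Set.mem_inter_iff, Set.mem_iInter, Set.mem_union,
      Set.mem_compl_iff, Set.mem_setOf_eq]
    change AttainsMinGrowth N.grp ↔ _
    rw [attains_iff]
    constructor
    · rintro ⟨S, h2, h3⟩
      obtain ⟨S₀, rfl⟩ := exists_im N S
      obtain ⟨i, hi⟩ := hν S₀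
      refine ⟨i, ?_, fun j => ?_⟩
      · rw [hi]
        exact h2
      · by_cases h4 : N ∈ Gen m (ν j)
        · right
          rw [hi]
          exact h3 _ h4
        · exact Or.inl h4
    · rintro ⟨i, h2, h3⟩
      refine ⟨im N (ν i), h2, fun S' h4 => ?_⟩
      obtain ⟨S₀, rfl⟩ := exists_im N S'
      obtain ⟨j, hj⟩ := hν S₀
      rcases h3 j with h5 | h5
      · exact absurd (by rw [hj]; exact h4) h5
      · rw [hj] at h5
        exact h5
  have h2 : ∀ i, IsGδ (Gen m (ν i) ∩ ⋂ j, ((Gen m (ν j))ᶜ ∪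
      {N : MarkedGroup m | growthRate (im N (ν i)) ≤ growthRate (im N (ν j))})) := by
    intro i
    exact (gen_open (ν i)).isGδ.inter (IsGδ.iInter fun j => (gen_compl (ν j)).union
      (cmp_gdelta (ν i) (ν j)))
  choose U hU hU' using fun i => (isGδ_iff_eq_iInter_nat.1 (h2 i))
  refine ⟨U, hU, ?_⟩
  rw [h1]
  exact Set.iUnion_congr hU'

end Pool.Agent.MinSig
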