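import Pool.Agent.MinSig.CasB
import Pool.Agent.MinSig.RdC
import Pool.Agent.MinSig.Cont
import Pool.Agent.MinSig.UpC
import Pool.Agent.MinSig.Trans
import Pool.Agent.MinSig.Diag

/-!
# MinSig Final: the groups that attain their minimal growth rate form a complete set

PROOF.  `complete`: let `v = growthRate (gens base)`.  For `C` take `σ` from `reduction`, `Φ` from
`marked_exists` with `K_clopen`.  `Φ x ∈ Att m ↔ AttainsMinGrowth (Gr (σ x))`
(`AttainsMinGrowth.congr` in both directions) `↔ x ∈ C` (`caseB`, `caseA`).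
`minGrowthRate (Φ x).grp = minGrowthRate (Gr (σ x)) = v` (`minGrowthRate_congr`, `min_eq`).
`not_pi`: if `Att m` is `IsPi03` then so is `Φ ⁻¹' (Att m) = D` for the set `D` of `diag`
(`pi_preimage`).
-/

set_option autoImplicit false

namespace Pool.Agent.MinSig

open Pool.Agent.MinGrowth

theorem complete : ∃ v : ℝ, ∀ m, 8 ≤ m → ∀ C : Set (ℕ → Bool), IsSigma03 C →
    ∃ Φ : (ℕ → Bool) → MarkedGroup m, Continuous Φ ∧ (∀ x, Φ x ∈ Att m ↔ x ∈ C) ∧
      ∀ x, minGrowthRate (Φ x).grp = v := by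
  refine ⟨growthRate (gens base), fun m hm C hC => ?_⟩
  obtain ⟨σ, h1, h2, h3⟩ := reduction hC
  obtain ⟨Φ, h4, h5⟩ := marked_exists hm (σ := σ) (fun w => K_clopen h1 w)
  refine ⟨Φ, h4, fun x => ⟨fun hx => ?_, fun hx => ?_⟩, fun x => ?_⟩
  · by_contra hcon
    obtain ⟨e⟩ := h5 x
    exact caseA (h3 x hcon) (AttainsMinGrowth.congr e.symm hx)
  · obtain ⟨e⟩ := h5 x
    exact AttainsMinGrowth.congr e (caseB (h2 x hx))
  · obtain ⟨e⟩ := h5 x
    rw [← minGrowthRate_congr e, min_eq]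

theorem not_pi {m : ℕ} (hm : 8 ≤ m) : ¬ IsPi03 (Att m) := by
  intro h
  obtain ⟨D, h1, h2⟩ := diag
  obtain ⟨v, hv⟩ := complete
  obtain ⟨Φ, h3, h4, -⟩ := hv m hm D h1
  apply h2
  have h5 : D = Φ ⁻¹' (Att m) := by
    ext x
    exact (h4 x).symm
  rw [h5]
  exact pi_preimage h3 h

end Pool.Agent.MinSig
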