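import Pool.Agent.MinSig.Defs

/-!
# MinSig GrA: growth functions, general facts

PROOF.
`growthFn_gens`: `wordBall_image` for `f` and the set of the generators (`Finset.coe_image`,
`Set.range_comp`).
`gens_closure`: `MonoidHom.map_closure`, `FreeGroup.closure_range_of`.
`gens_le_of_ker`: the map `f '' bF k → g '' bF k`, `f w ↦ g w`, is well defined and onto:
`Set.ncard_le_ncard_of_injOn` in the other direction, or choose for each element of `g '' bF k` a
preimage; the balls are finite (`wordBall_finite`).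
`growthRate_le_of_PB`: let `y > x` be arbitrary; `C (k+1)^d x^k ≤ y^k` for large `k`, so
`growthRate S ^ k ≤ growthFn S k ≤ y ^ k` (`growthRate_pow_le`) and `growthRate S ≤ y`;
`le_of_forall_gt`.
`PB_of_lt`: `growthFn_eventually_le`: `growthFn S k ≤ x ^ k` for `k ≥ k₀`; `d = 0` and `C` the
maximum
of `1` and of the quotients `growthFn S k / x ^ k`, `k < k₀` (`x > 0` since `growthRate_pos`).
`growthRate_le_of_freq`: let `y > growthRate S'`, `z > y`.  For large `R`
`growthFn S' R ≤ y ^ R` and `y ^ R * (4 R + 8) ≤ z ^ R`, so for infinitely many `R`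
`growthRate S ^ R ≤ growthFn S R ≤ z ^ R`, hence `growthRate S ≤ z` (`R ≥ 1`).
`base_gens`: `gens base = Lp.stdGen 3 (Fin 7)` (`Finset.ext`).  `base_min`: `Lp.stdGen_min` with
`p = 3` (`⟨Nat.prime_three⟩`).
`six_lt`: let `v = growthRate (gens base)`; `Lp.minGrowthRate_root` and `Lp.minGrowthRate_eq` give
`v ^ 8 = (v + 2) ^ 7`, `v ≥ 1`.  If `v ≤ 6` then `v = ((v + 2) / v) ^ 7 ≥ (4 / 3) ^ 7 > 6`,
contradiction.
-/

set_option autoImplicit false

namespace Pool.Agent.MinSig

open Pool.Agent.MinGrowth Filter Topology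

private theorem coe_gens {G : Type*} [Group G] (f : F →* G) :
    ((gens f : Finset G) : Set G) = f '' Set.range FreeGroup.of := by
  classical
  unfold gens
  rw [Finset.coe_image, Finset.coe_univ, Set.image_univ, ← Set.range_comp]
  rfl

theorem growthFn_gens {G : Type*} [Group G] (f : F →* G) (k : ℕ) :
    growthFn (gens f) k = (f '' bF k).ncard := by
  unfold growthFn bF
  rw [coe_gens, wordBall_image]

theorem gens_closure {G : Type*} [Group G] (f : F →* G) (hf : Function.Surjective f) :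
    Subgroup.closure (gens f : Set G) = ⊤ := by
  rw [coe_gens, ← MonoidHom.map_closure, FreeGroup.closure_range_of,
    Subgroup.map_top_of_surjective f hf]

theorem bF_finite (k : ℕ) : (bF k).Finite := wordBall_finite (Set.finite_range _) k

theorem gens_le_of_ker {G H : Type*} [Group G] [Group H] (f : F →* G) (g : F →* H) (k : ℕ)
    (h : ∀ v ∈ bF k, ∀ w ∈ bF k, f v = f w → g v = g w) :
    growthFn (gens g) k ≤ growthFn (gens f) k := by
  classical
  rw [growthFn_gens, growthFn_gens]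
  have hfin : (f '' bF k).Finite := (bF_finite k).image _
  set φ : G → H := fun x => if hx : ∃ v ∈ bF k, f v = x then g hx.choose else 1 with hφ
  have hsub : g '' bF k ⊆ φ '' (f '' bF k) := by
    rintro _ ⟨v, hv, rfl⟩
    refine ⟨f v, ⟨v, hv, rfl⟩, ?_⟩
    have hx : ∃ u ∈ bF k, f u = f v := ⟨v, hv, rfl⟩
    have h1 := hx.choose_spec
    simp only [hφ]
    rw [dif_pos hx]
    exact h _ h1.1 _ hv h1.2
  exact (Set.ncard_le_ncard hsub (hfin.image _)).trans (Set.ncard_image_le hfin)

private theorem PB_const {G : Type*} [Group G] {S : Finset G} {x C : ℝ} {d : ℕ}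
    (h : ∀ k : ℕ, (growthFn S k : ℝ) ≤ C * ((k : ℝ) + 1) ^ d * x ^ k) : 0 ≤ C := by
  have h0 := h 0
  have h1 : (0 : ℝ) < growthFn S 0 := by exact_mod_cast growthFn_pos S 0
  simp only [Nat.cast_zero, zero_add, one_pow, mul_one, pow_zero] at h0
  linarith

theorem PB.mono {G : Type*} [Group G] {S : Finset G} {x y : ℝ} (hx : 0 ≤ x) (hxy : x ≤ y)
    (h : PB x S) : PB y S := by
  obtain ⟨C, d, h⟩ := h
  have hC := PB_const h
  refine ⟨C, d, fun k => (h k).trans ?_⟩
  exact mul_le_mul_of_nonneg_left (pow_le_pow_left₀ hx hxy k) (by positivity)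

/-- polynomials are smaller than exponentials -/
private theorem poly_exp (C : ℝ) (d : ℕ) {x y : ℝ} (hx : 0 < x) (hxy : x < y) :
    ∀ᶠ k : ℕ in atTop, C * ((k : ℝ) + 1) ^ d * x ^ k ≤ y ^ k := by
  have hy : 0 < y := hx.trans hxy
  have hr0 : 0 < x / y := div_pos hx hy
  have hr1 : |x / y| < 1 := by rw [abs_of_pos hr0]; exact (div_lt_one hy).2 hxy
  have h1 := (tendsto_pow_const_mul_const_pow_of_abs_lt_one d hr1).comp (tendsto_add_atTop_nat 1)
  have h2 := h1.const_mul (C * (x / y)⁻¹)
  rw [mul_zero] at h2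
  filter_upwards [h2.eventually (gt_mem_nhds (show (0 : ℝ) < 1 by norm_num))] with k hk
  simp only [Function.comp_apply, Nat.cast_add, Nat.cast_one] at hk
  have h3 : C * (x / y)⁻¹ * (((k : ℝ) + 1) ^ d * (x / y) ^ (k + 1)) =
      C * ((k : ℝ) + 1) ^ d * x ^ k / y ^ k := by
    rw [pow_succ, div_pow]
    field_simp
  rw [h3, div_lt_one (pow_pos hy k)] at hk
  exact hk.le

theorem growthRate_le_of_PB {G : Type*} [Group G] {S : Finset G} {x : ℝ} (hx : 1 ≤ x)
    (h : PB x S) : growthRate S ≤ x := by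
  obtain ⟨C, d, h⟩ := h
  refine le_of_forall_gt_imp_ge_of_dense fun y hy => ?_
  have hx0 : 0 < x := by linarith
  obtain ⟨k, hk, hk1⟩ := ((poly_exp C d hx0 hy).and (eventually_ge_atTop 1)).exists
  have h1 : growthRate S ^ k ≤ y ^ k := (growthRate_pow_le S k).trans ((h k).trans hk)
  exact le_of_pow_le_pow_left₀ (by omega) (by linarith) h1

theorem PB_of_lt {G : Type*} [Group G] {S : Finset G} {x : ℝ} (h : growthRate S < x) :
    PB x S := by
  have hx : 0 < x := (growthRate_pos S).trans h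
  obtain ⟨k₀, hk⟩ := eventually_atTop.1 (growthFn_eventually_le S h)
  have hsum : 0 ≤ ∑ k ∈ Finset.range k₀, (growthFn S k : ℝ) / x ^ k :=
    Finset.sum_nonneg fun k _ => by positivity
  refine ⟨1 + ∑ k ∈ Finset.range k₀, (growthFn S k : ℝ) / x ^ k, 0, fun k => ?_⟩
  rw [pow_zero, mul_one]
  have hxk : 0 < x ^ k := pow_pos hx k
  rcases lt_or_ge k k₀ with h1 | h1
  · have h2 : (growthFn S k : ℝ) / x ^ k ≤
        ∑ k ∈ Finset.range k₀, (growthFn S k : ℝ) / x ^ k :=
      Finset.single_le_sum (f := fun k => (growthFn S k : ℝ) / x ^ k)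
        (fun k _ => by positivity) (Finset.mem_range.2 h1)
    rw [← div_le_iff₀ hxk]
    linarith
  · have h2 := hk k h1
    nlinarith

theorem growthRate_le_of_freq {G H : Type*} [Group G] [Group H] {S : Finset G} {S' : Finset H}
    (h : ∀ N, ∃ R, N ≤ R ∧ growthFn S R ≤ growthFn S' R * (4 * R + 8)) :
    growthRate S ≤ growthRate S' := by
  refine le_of_forall_gt_imp_ge_of_dense fun z hz => ?_
  obtain ⟨y, hy1, hy2⟩ := exists_between hz
  have hy0 : 0 < y := (growthRate_pos S').trans hy1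
  obtain ⟨N, hN⟩ := eventually_atTop.1 ((growthFn_eventually_le S' hy1).and
    ((poly_exp 8 1 hy0 hy2).and (eventually_ge_atTop 1)))
  obtain ⟨R, hR, h1⟩ := h N
  obtain ⟨h2, h3, h4⟩ := hN R hR
  have h5 : (growthFn S R : ℝ) ≤ growthFn S' R * (4 * R + 8) := by exact_mod_cast h1
  have h6 : (growthFn S' R : ℝ) * (4 * R + 8) ≤ y ^ R * (4 * R + 8) :=
    mul_le_mul_of_nonneg_right h2 (by positivity)
  have h7 : y ^ R * (4 * (R : ℝ) + 8) ≤ 8 * ((R : ℝ) + 1) ^ 1 * y ^ R := by
    have h8 : 0 < y ^ R := pow_pos hy0 R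
    have h9 : (0 : ℝ) ≤ R := Nat.cast_nonneg R
    nlinarith [mul_nonneg h8.le h9]
  have h8 : growthRate S ^ R ≤ z ^ R :=
    (growthRate_pow_le S R).trans (h5.trans (h6.trans (h7.trans h3)))
  exact le_of_pow_le_pow_left₀ (by omega) (by linarith) h8

private theorem gens_base : gens base = Lp.stdGen 3 (Fin 7) := by
  classical
  apply Finset.coe_injective
  rw [coe_gens, ← Set.range_comp]
  ext g
  simp only [Lp.stdGen, Finset.coe_insert, Finset.coe_image, Finset.coe_univ, Set.image_univ,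
    Set.mem_insert_iff, Set.mem_range, Function.comp_apply]
  constructor
  · rintro ⟨o, rfl⟩
    rcases o with _ | i
    · left
      simp [base]
    · right
      exact ⟨i, by simp [base]⟩
  · rintro (rfl | ⟨i, rfl⟩)
    · exact ⟨none, by simp [base]⟩
    · exact ⟨some i, by simp [base]⟩

theorem base_surjective : Function.Surjective base := by
  rw [← MonoidHom.range_eq_top, eq_top_iff, ← Lp.stdGen_closure, Subgroup.closure_le, ← gens_base,
    coe_gens]
  rintro _ ⟨w, _, rfl⟩
  exact ⟨w, rfl⟩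

theorem base_min {S : Finset (Lp 3 (Fin 7))} (hS : Subgroup.closure (S : Set (Lp 3 (Fin 7))) = ⊤) :
    growthRate (gens base) ≤ growthRate S := by
  rw [gens_base]
  exact Lp.stdGen_min (by norm_num) S hS

theorem six_lt : 6 < growthRate (gens base) := by
  rw [gens_base]
  have h1 := Lp.minGrowthRate_root (p := 3) (ι := Fin 7) (by norm_num)
  rw [Lp.minGrowthRate_eq (by norm_num), Fintype.card_fin] at h1
  have h2 := one_le_growthRate (Lp.stdGen 3 (Fin 7))
  set v := growthRate (Lp.stdGen 3 (Fin 7)) with hv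
  by_contra h3
  push Not at h3
  have h4 : (4 / 3 * v) ^ 7 ≤ (v + 2) ^ 7 :=
    pow_le_pow_left₀ (by linarith) (by linarith) 7
  have h5 : (v + 2) ^ 7 = v * v ^ 7 := by
    have h6 : v ^ (7 + 1) = (v + (((3 : ℕ) : ℝ) - 1)) ^ 7 := h1
    have h7 : v + (((3 : ℕ) : ℝ) - 1) = v + 2 := by norm_num
    rw [h7, pow_succ] at h6
    rw [← h6]
    ring
  rw [h5, mul_pow] at h4
  have h6 : 0 < v ^ 7 := by positivity
  have h7 := le_of_mul_le_mul_right h4 h6
  norm_num at h7
  linarith

end Pool.Agent.MinSig
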