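import Pool.Agent.MinSig.GrA

/-!
# MinSig GrB: unions of generating sets

PROOF of `PB_union`.  Let `S ∪ T` be a union such that `b a b⁻¹` or its inverse is in `S` for `a
∈ S ∪ S⁻¹`,
`b ∈ T ∪ T⁻¹`.
(1) Every product of a list of `k` letters from `S ∪ S⁻¹ ∪ T ∪ T⁻¹` is a product `u * v` with
`u` a product of `i` letters from `S ∪ S⁻¹` and `v` a product of `k - i` letters from `T ∪ T⁻¹`,
`i` the number of
the letters from `S ∪ S⁻¹`: induction on the list from the left: `b * (u * v) = (b u b⁻¹) * (b *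
v)`, and
`b u b⁻¹` is a product of `i` letters of `S ∪ S⁻¹` (conjugate all letters).
(2) So `wordBall (S ∪ T) k ⊆ ⋃ i ≤ k, wordBall S i * wordBall T (k - i)` (use (1) for the lists
of length
`≤ k`), and `growthFn (S ∪ T) k ≤ ∑ i in range (k + 1), growthFn S i * growthFn T (k - i)`
`≤ ∑ i, C (i+1)^d x^i * C' (k-i+1)^d' x^(k-i) ≤ C C' (k + 1)^(d + d' + 1) x^k` (`C`, `C'`
replaced by their
absolute values, `x ≥ 0`).
`PB_biUnion`: induction on the index set with `PB_union`; elements of different sets commute, so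
`b a b⁻¹ = a`.
-/

set_option autoImplicit false

namespace Pool.Agent.MinSig

open Pool.Agent.MinGrowth

private theorem conj_mem_ball {G : Type*} [Group G] {S : Set G} {b : G}
    (h : ∀ a : G, (a ∈ S ∨ a⁻¹ ∈ S) → (b * a * b⁻¹ ∈ S ∨ (b * a * b⁻¹)⁻¹ ∈ S)) {u : G} {i : ℕ}
    (hu : u ∈ wordBall S i) : b * u * b⁻¹ ∈ wordBall S i := by
  obtain ⟨l, hl, hS, rfl⟩ := hu
  refine ⟨l.map (MulAut.conj b), by rwa [List.length_map], ?_, ?_⟩
  · intro s hs
    obtain ⟨a, ha, rfl⟩ := List.mem_map.1 hs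
    rw [MulAut.conj_apply]
    exact h a (hS a ha)
  · rw [← map_list_prod, MulAut.conj_apply]

private theorem mul_mem_ball {G : Type*} [Group G] {S : Set G} {b u : G} {i : ℕ}
    (hb : b ∈ S ∨ b⁻¹ ∈ S) (hu : u ∈ wordBall S i) : b * u ∈ wordBall S (i + 1) := by
  obtain ⟨l, hl, hS, rfl⟩ := hu
  refine ⟨b :: l, by rw [List.length_cons]; omega, ?_, List.prod_cons⟩
  intro s hs
  rcases List.mem_cons.1 hs with rfl | hs
  · exact hb
  · exact hS s hs

private theorem split_ball {G : Type*} [Group G] {S T : Set G}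
    (h : ∀ a b : G, (a ∈ S ∨ a⁻¹ ∈ S) → (b ∈ T ∨ b⁻¹ ∈ T) →
      (b * a * b⁻¹ ∈ S ∨ (b * a * b⁻¹)⁻¹ ∈ S)) : ∀ l : List G,
    (∀ s ∈ l, s ∈ S ∪ T ∨ s⁻¹ ∈ S ∪ T) → ∃ i j : ℕ, i + j = l.length ∧
      ∃ u ∈ wordBall S i, ∃ v ∈ wordBall T j, u * v = l.prod
  | [], _ => ⟨0, 0, rfl, 1, one_mem_wordBall _ _, 1, one_mem_wordBall _ _, by simp⟩
  | b :: l, hl => by
    obtain ⟨i, j, hij, u, hu, v, hv, huv⟩ := split_ball h l fun s hs =>
      hl s (List.mem_cons_of_mem _ hs)
    have hb : (b ∈ S ∨ b⁻¹ ∈ S) ∨ (b ∈ T ∨ b⁻¹ ∈ T) := by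
      rcases hl b List.mem_cons_self with (h1 | h1) | (h1 | h1)
      · exact Or.inl (Or.inl h1)
      · exact Or.inr (Or.inl h1)
      · exact Or.inl (Or.inr h1)
      · exact Or.inr (Or.inr h1)
    rcases hb with hb | hb
    · refine ⟨i + 1, j, by rw [List.length_cons]; omega, b * u, mul_mem_ball hb hu, v, hv, ?_⟩
      rw [List.prod_cons, ← huv, mul_assoc]
    · refine ⟨i, j + 1, by rw [List.length_cons]; omega, b * u * b⁻¹,
        conj_mem_ball (fun a ha => h a b ha hb) hu, b * v, mul_mem_ball hb hv, ?_⟩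
      rw [List.prod_cons, ← huv]
      group

private theorem PB_nonneg {G : Type*} [Group G] {S : Finset G} {x C : ℝ} {d : ℕ}
    (h : ∀ k : ℕ, (growthFn S k : ℝ) ≤ C * ((k : ℝ) + 1) ^ d * x ^ k) : 0 ≤ C := by
  have h0 := h 0
  have h1 : (0 : ℝ) < growthFn S 0 := by exact_mod_cast growthFn_pos S 0
  simp only [Nat.cast_zero, zero_add, one_pow, mul_one, pow_zero] at h0
  linarith

open Classical in
private theorem growthFn_union_le {G : Type*} [Group G] {S T : Finset G}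
    (h : ∀ a b : G, (a ∈ S ∨ a⁻¹ ∈ S) → (b ∈ T ∨ b⁻¹ ∈ T) →
      (b * a * b⁻¹ ∈ S ∨ (b * a * b⁻¹)⁻¹ ∈ S)) (k : ℕ) :
    growthFn (S ∪ T) k ≤ ∑ i ∈ Finset.range (k + 1), growthFn S i * growthFn T (k - i) := by
  have hfin : ∀ i : ℕ, ((fun p : G × G => p.1 * p.2) ''
      (wordBall (S : Set G) i ×ˢ wordBall (T : Set G) (k - i))).Finite := fun i =>
    ((wordBall_finite S.finite_toSet i).prod (wordBall_finite T.finite_toSet (k - i))).image _
  have hsub : wordBall ((S ∪ T : Finset G) : Set G) k ⊆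
      (((Finset.range (k + 1)).biUnion fun i => (hfin i).toFinset : Finset G) : Set G) := by
    rintro _ ⟨l, hl, hST, rfl⟩
    rw [Finset.coe_union] at hST
    obtain ⟨i, j, hij, u, hu, v, hv, huv⟩ := split_ball h l hST
    rw [Finset.mem_coe, Finset.mem_biUnion]
    refine ⟨i, Finset.mem_range.2 (by omega), ?_⟩
    rw [Set.Finite.mem_toFinset]
    exact ⟨(u, v), ⟨hu, wordBall_mono _ (by omega) hv⟩, huv⟩
  unfold growthFn
  refine (Set.ncard_le_ncard hsub (Finset.finite_toSet _)).trans ?_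
  rw [Set.ncard_coe_finset]
  refine Finset.card_biUnion_le.trans (Finset.sum_le_sum fun i _ => ?_)
  rw [← Set.ncard_eq_toFinset_card _ (hfin i)]
  refine (Set.ncard_image_le ((wordBall_finite S.finite_toSet i).prod
    (wordBall_finite T.finite_toSet (k - i)))).trans (le_of_eq ?_)
  exact Set.ncard_prod

open Classical in
theorem PB_union {G : Type*} [Group G] {S T : Finset G} {x : ℝ} (hx : 0 ≤ x) (hS : PB x S)
    (hT : PB x T) (h : ∀ a b : G, (a ∈ S ∨ a⁻¹ ∈ S) → (b ∈ T ∨ b⁻¹ ∈ T) →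
      (b * a * b⁻¹ ∈ S ∨ (b * a * b⁻¹)⁻¹ ∈ S)) : PB x (S ∪ T) := by
  obtain ⟨C, d, hC⟩ := hS
  obtain ⟨C', d', hC'⟩ := hT
  have h0 := PB_nonneg hC
  have h0' := PB_nonneg hC'
  refine ⟨C * C', d + d' + 1, fun k => ?_⟩
  have h1 : (growthFn (S ∪ T) k : ℝ) ≤
      ∑ i ∈ Finset.range (k + 1), (growthFn S i : ℝ) * growthFn T (k - i) := by
    exact_mod_cast growthFn_union_le h k
  refine h1.trans ?_
  have h2 : ∀ i ∈ Finset.range (k + 1), (growthFn S i : ℝ) * growthFn T (k - i) ≤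
      C * C' * ((k : ℝ) + 1) ^ (d + d') * x ^ k := by
    intro i hi
    have hik : i ≤ k := Nat.lt_succ_iff.1 (Finset.mem_range.1 hi)
    have h3 : (growthFn S i : ℝ) ≤ C * ((k : ℝ) + 1) ^ d * x ^ i := by
      refine (hC i).trans (mul_le_mul_of_nonneg_right (mul_le_mul_of_nonneg_left
        (pow_le_pow_left₀ (by positivity) ?_ d) h0) (pow_nonneg hx i))
      have : (i : ℝ) ≤ k := by exact_mod_cast hik
      linarith
    have h4 : (growthFn T (k - i) : ℝ) ≤ C' * ((k : ℝ) + 1) ^ d' * x ^ (k - i) := by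
      refine (hC' (k - i)).trans (mul_le_mul_of_nonneg_right (mul_le_mul_of_nonneg_left
        (pow_le_pow_left₀ (by positivity) ?_ d') h0') (pow_nonneg hx _))
      have : ((k - i : ℕ) : ℝ) ≤ k := by exact_mod_cast Nat.sub_le k i
      linarith
    refine (mul_le_mul h3 h4 (Nat.cast_nonneg _) (by positivity)).trans (le_of_eq ?_)
    have h5 : x ^ k = x ^ i * x ^ (k - i) := by rw [← pow_add, Nat.add_sub_cancel' hik]
    rw [h5, pow_add]
    ring
  refine (Finset.sum_le_sum h2).trans (le_of_eq ?_)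
  rw [Finset.sum_const, Finset.card_range, nsmul_eq_mul, pow_succ]
  push_cast
  ring

theorem PB_empty {G : Type*} [Group G] {x : ℝ} (hx : 1 ≤ x) : PB x (∅ : Finset G) := by
  refine ⟨1, 0, fun k => ?_⟩
  have h1 : wordBall ((∅ : Finset G) : Set G) k ⊆ {1} := by
    rintro _ ⟨l, hl, hS, rfl⟩
    rcases l with _ | ⟨s, l⟩
    · rfl
    · have := hS s List.mem_cons_self
      simp at this
  have h2 : growthFn (∅ : Finset G) k ≤ 1 := by
    unfold growthFn
    refine (Set.ncard_le_ncard h1 (Set.finite_singleton _)).trans ?_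
    rw [Set.ncard_singleton]
  have h3 : (growthFn (∅ : Finset G) k : ℝ) ≤ 1 := by exact_mod_cast h2
  rw [pow_zero, mul_one, one_mul]
  exact h3.trans (one_le_pow₀ hx)

open Classical in
theorem PB_biUnion {G ι : Type*} [Group G] {x : ℝ} (hx : 1 ≤ x) (I : Finset ι)
    (S : ι → Finset G) (hS : ∀ i ∈ I, PB x (S i))
    (h : ∀ i ∈ I, ∀ j ∈ I, i ≠ j → ∀ a ∈ S i, ∀ b ∈ S j, a * b = b * a) :
    PB x (I.biUnion S) := by
  revert hS h
  refine Finset.induction_on I ?_ ?_
  · intro _ _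
    rw [Finset.biUnion_empty]
    exact PB_empty hx
  · intro i J hi ih hS h
    rw [Finset.biUnion_insert]
    refine PB_union (by linarith) (hS i (Finset.mem_insert_self i J))
      (ih (fun j hj => hS j (Finset.mem_insert_of_mem hj))
        fun j hj j' hj' => h j (Finset.mem_insert_of_mem hj) j' (Finset.mem_insert_of_mem hj')) ?_
    intro a b ha hb
    have hc : Commute b a := by
      have key : ∀ a' ∈ S i, ∀ b' ∈ J.biUnion S, Commute b' a' := by
        intro a' ha' b' hb'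
        obtain ⟨j, hj, hb'⟩ := Finset.mem_biUnion.1 hb'
        have hij : i ≠ j := fun e => hi (e ▸ hj)
        exact (h i (Finset.mem_insert_self i J) j (Finset.mem_insert_of_mem hj) hij a' ha' b'
          hb').symm
      rcases ha with ha | ha <;> rcases hb with hb | hb
      · exact key _ ha _ hb
      · exact Commute.inv_left_iff.1 (key _ ha _ hb)
      · exact Commute.inv_right_iff.1 (key _ ha _ hb)
      · exact Commute.inv_inv_iff.1 (key _ ha _ hb)
    have h1 : b * a * b⁻¹ = a := by rw [hc.eq, mul_assoc, mul_inv_cancel, mul_one]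
    rw [h1]
    exact ha

end Pool.Agent.MinSig
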