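import Pool.Agent.MinSig.GrA

/-!
# MinSig GrC: four elements of order three

PROOF.  Let `S = {x 0, x 1, x 2, x 3}`, `x i ^ 3 = 1`.  `WW x j i` is the set of the products of
the reduced words of length `j + 1` which begin with a letter `x i` or `(x i)⁻¹` (neighbouring
letters have different indices); it has at most `2 * 6 ^ j` elements.  The ball of radius `k` is
contained in the union of `{1}` and of the sets `WW x j i`, `j < k`: adding a letter `s` with the
index `i` on the left of a word which begins with a letter `s'` with the same index we have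
`s * s' = 1` or `s * s' = s⁻¹`, `s⁻¹` is again a letter.
So `growthFn S k ≤ 1 + ∑ j < k, 8 * 6 ^ j ≤ 8 * (k + 1) * 6 ^ k`: `C = 8`, `d = 1`.
-/

set_option autoImplicit false

namespace Pool.Agent.MinSig

open Pool.Agent.MinGrowth

section

open Classical

variable {G : Type*} [Group G]

/-- the letters with the index `i` -/
private noncomputable def LL (x : Fin 4 → G) (i : Fin 4) : Finset G := {x i, (x i)⁻¹}

/-- the products of the reduced words of length `j + 1` with first index `i` -/
private noncomputable def WW (x : Fin 4 → G) : ℕ → Fin 4 → Finset G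
  | 0, i => LL x i
  | j + 1, i => Finset.image₂ (fun a b => a * b) (LL x i)
      ((Finset.univ.filter fun i' => i' ≠ i).biUnion (WW x j))

/-- the union -/
private noncomputable def BB (x : Fin 4 → G) (k : ℕ) : Finset G :=
  insert 1 ((Finset.range k).biUnion fun j => Finset.univ.biUnion (WW x j))

private theorem mem_LL {x : Fin 4 → G} {i : Fin 4} {s : G} :
    s ∈ LL x i ↔ s = x i ∨ s = (x i)⁻¹ := by
  unfold LL
  rw [Finset.mem_insert, Finset.mem_singleton]

private theorem WW_succ (x : Fin 4 → G) (j : ℕ) (i : Fin 4) :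
    WW x (j + 1) i = Finset.image₂ (fun a b => a * b) (LL x i)
      ((Finset.univ.filter fun i' => i' ≠ i).biUnion (WW x j)) := rfl

private theorem mem_WW_succ {x : Fin 4 → G} {j : ℕ} {i : Fin 4} {g : G} :
    g ∈ WW x (j + 1) i ↔ ∃ s ∈ LL x i, ∃ i', i' ≠ i ∧ ∃ h ∈ WW x j i', s * h = g := by
  rw [WW_succ, Finset.mem_image₂]
  constructor
  · rintro ⟨s, hs, h, hh, rfl⟩
    rw [Finset.mem_biUnion] at hh
    obtain ⟨i', hi', hh⟩ := hh
    exact ⟨s, hs, i', (Finset.mem_filter.1 hi').2, h, hh, rfl⟩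
  · rintro ⟨s, hs, i', hi', h, hh, rfl⟩
    exact ⟨s, hs, h, Finset.mem_biUnion.2
      ⟨i', Finset.mem_filter.2 ⟨Finset.mem_univ _, hi'⟩, hh⟩, rfl⟩

private theorem mem_BB {x : Fin 4 → G} {k : ℕ} {g : G} :
    g ∈ BB x k ↔ g = 1 ∨ ∃ j < k, ∃ i, g ∈ WW x j i := by
  unfold BB
  rw [Finset.mem_insert, Finset.mem_biUnion]
  constructor
  · rintro (h | ⟨j, hj, h⟩)
    · exact Or.inl h
    · rw [Finset.mem_biUnion] at h
      obtain ⟨i, -, h⟩ := h
      exact Or.inr ⟨j, Finset.mem_range.1 hj, i, h⟩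
  · rintro (h | ⟨j, hj, i, h⟩)
    · exact Or.inl h
    · exact Or.inr ⟨j, Finset.mem_range.2 hj, Finset.mem_biUnion.2 ⟨i, Finset.mem_univ _, h⟩⟩

private theorem card_LL (x : Fin 4 → G) (i : Fin 4) : (LL x i).card ≤ 2 := by
  unfold LL
  exact Finset.card_le_two

private theorem card_WW (x : Fin 4 → G) (j : ℕ) : ∀ i, (WW x j i).card ≤ 2 * 6 ^ j := by
  induction j with
  | zero =>
    intro i
    rw [pow_zero, mul_one]
    exact card_LL x i
  | succ j ih =>
    intro i
    have h1 : ((Finset.univ.filter fun i' : Fin 4 => i' ≠ i).biUnion (WW x j)).card ≤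
        3 * (2 * 6 ^ j) := by
      refine Finset.card_biUnion_le_card_mul _ _ _ (fun i' _ => ih i') |>.trans ?_
      refine Nat.mul_le_mul_right _ ?_
      have h3 : (Finset.univ.filter fun i' : Fin 4 => i' ≠ i).card = 3 := by
        revert i
        decide
      exact h3.le
    rw [WW_succ]
    refine (Finset.card_image₂_le _ _ _).trans ((Nat.mul_le_mul (card_LL x i) h1).trans ?_)
    rw [pow_succ]
    exact le_of_eq (by ring)

private theorem card_BB (x : Fin 4 → G) (k : ℕ) : (BB x k).card ≤ 8 * (k + 1) * 6 ^ k := by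
  have h1 : ((Finset.range k).biUnion fun j => Finset.univ.biUnion (WW x j)).card ≤
      k * (8 * 6 ^ k) := by
    have h2 := Finset.card_biUnion_le_card_mul (Finset.range k)
      (fun j => Finset.univ.biUnion (WW x j)) (8 * 6 ^ k) (fun j hj => by
        have h3 := Finset.card_biUnion_le_card_mul (Finset.univ : Finset (Fin 4)) (WW x j)
          (2 * 6 ^ j) (fun i _ => card_WW x j i)
        rw [Finset.card_univ, Fintype.card_fin] at h3
        refine h3.trans ?_
        have h4 : 6 ^ j ≤ 6 ^ k :=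
          Nat.pow_le_pow_right (by norm_num) (Finset.mem_range.1 hj).le
        omega)
    rwa [Finset.card_range] at h2
  unfold BB
  refine (Finset.card_insert_le _ _).trans ?_
  have h5 : 1 ≤ 6 ^ k := Nat.one_le_pow _ _ (by norm_num)
  have h6 : 8 * (k + 1) * 6 ^ k = k * (8 * 6 ^ k) + 8 * 6 ^ k := by ring
  rw [h6]
  omega

private theorem LL_mul {x : Fin 4 → G} (hx : ∀ i, x i ^ 3 = 1) {i : Fin 4} {s s' : G}
    (hs : s ∈ LL x i) (hs' : s' ∈ LL x i) : s * s' = 1 ∨ s * s' ∈ LL x i := by
  have h3 := hx i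
  have h2 : x i * x i = (x i)⁻¹ := by
    rw [eq_inv_iff_mul_eq_one, ← h3, pow_succ, pow_two]
  have h2' : (x i)⁻¹ * (x i)⁻¹ = x i := by
    rw [← mul_inv_rev, h2, inv_inv]
  rw [mem_LL] at hs hs' ⊢
  rcases hs with rfl | rfl <;> rcases hs' with rfl | rfl
  · exact Or.inr (Or.inr h2)
  · exact Or.inl (mul_inv_cancel _)
  · exact Or.inl (inv_mul_cancel _)
  · exact Or.inr (Or.inl h2')

private theorem mul_mem_BB {x : Fin 4 → G} (hx : ∀ i, x i ^ 3 = 1) {i : Fin 4} {s g : G} {k : ℕ}
    (hs : s ∈ LL x i) (hg : g ∈ BB x k) : s * g ∈ BB x (k + 1) := by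
  rw [mem_BB] at hg ⊢
  rcases hg with rfl | ⟨j, hj, i', hg⟩
  · right
    refine ⟨0, Nat.succ_pos k, i, ?_⟩
    rw [mul_one]
    exact hs
  · by_cases hi : i' = i
    · subst hi
      rcases j with _ | j
      · rcases LL_mul hx hs hg with h | h
        · exact Or.inl h
        · exact Or.inr ⟨0, Nat.succ_pos k, i', h⟩
      · rw [mem_WW_succ] at hg
        obtain ⟨s', hs', i'', hi'', h, hh, rfl⟩ := hg
        rw [← mul_assoc]
        right
        rcases LL_mul hx hs hs' with h1 | h1
        · rw [h1, one_mul]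
          exact ⟨j, by omega, i'', hh⟩
        · exact ⟨j + 1, by omega, i', mem_WW_succ.2 ⟨_, h1, i'', hi'', h, hh, rfl⟩⟩
    · right
      exact ⟨j + 1, by omega, i, mem_WW_succ.2 ⟨s, hs, i', hi, g, hg, rfl⟩⟩

private theorem ball_subset {x : Fin 4 → G} (hx : ∀ i, x i ^ 3 = 1) {S : Set G}
    (hS : ∀ s ∈ S, ∃ i, s = x i) (k : ℕ) : wordBall S k ⊆ (BB x k : Set G) := by
  induction k with
  | zero =>
    rw [wordBall_zero]
    rintro g rfl
    exact mem_BB.2 (Or.inl rfl)
  | succ k ih =>
    rintro g ⟨l, hl, hlS, rfl⟩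
    rcases l with _ | ⟨s, l⟩
    · exact mem_BB.2 (Or.inl List.prod_nil)
    · have h1 : l.prod ∈ BB x k := by
        refine ih ⟨l, ?_, fun s hs => hlS s (List.mem_cons_of_mem _ hs), rfl⟩
        rw [List.length_cons] at hl
        omega
      have h2 : ∃ i, s ∈ LL x i := by
        rcases hlS s List.mem_cons_self with h | h
        · obtain ⟨i, hi⟩ := hS s h
          exact ⟨i, mem_LL.2 (Or.inl hi)⟩
        · obtain ⟨i, hi⟩ := hS _ h
          exact ⟨i, mem_LL.2 (Or.inr (by rw [← hi, inv_inv]))⟩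
      obtain ⟨i, hi⟩ := h2
      rw [List.prod_cons]
      exact mul_mem_BB hx hi h1

end

open Classical in
theorem PB_three {G : Type*} [Group G] (x : Fin 4 → G) (hx : ∀ i, x i ^ 3 = 1) :
    PB 6 (Finset.univ.image x) := by
  refine ⟨8, 1, fun k => ?_⟩
  have h1 : growthFn (Finset.univ.image x) k ≤ 8 * (k + 1) * 6 ^ k := by
    have h2 : wordBall ((Finset.univ.image x : Finset G) : Set G) k ⊆ (BB x k : Set G) :=
      ball_subset hx (fun s hs => by
        obtain ⟨i, -, hi⟩ := Finset.mem_image.1 (Finset.mem_coe.1 hs)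
        exact ⟨i, hi.symm⟩) k
    have h3 := Set.ncard_le_ncard h2 (BB x k).finite_toSet
    rw [Set.ncard_coe_finset] at h3
    exact h3.trans (card_BB x k)
  rw [pow_one]
  exact_mod_cast h1

end Pool.Agent.MinSig
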