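import Pool.Agent.MinSig.Words

/-!
# MinSig IndA: the elements `AA D i` in the base group and in the blocks

PROOF.  `conj_lampEmb`: compare lamps and positions (as `Wreath.posEmb_conj`).
`lampEmb_comm`: two elements with disjoint supports and position `1`.
`blk_tt_pow`: position `site D x`; for `x ≤ 8 D`... the lamp of `t ^ x` at `site D z`, `x ≤ z < 8
D`, is `1`
(induction on `x`, or `blk_lamp` with `mk (replicate x (none, true))`).
`blk_AA`: let `g = blk D e μ (tt ^ ((4 - i) D))`, `g.pos = site D ((4 - i) D)`;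
`blk D e μ (aw (up i)) = lampEmb (site D ((i + 1) D)) (alpha μ i)`.  By `conj_lampEmb` the
conjugate is
supported at `site D ((4 - i) D + (i + 1) D) = site D (5 D)`, and `g.lamp (site D (5 D)) = 1`
because
`(4 - i) D ≤ 4 D < 5 D < 8 D` (`D > 0`; for `D = 0` excluded by `hD`).
`blk_AA'`: the same in a block with another parameter `D'`: support `site D' ((4 - i) D + (i + 1)
D')`.
`blk_AA_comm`: `D = 2 ^ q`, `D' = 2 ^ q'`, `q ≠ q'`, `i ≠ j`: the difference of the two sites is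
`(i - j) (D' - D)`, which is not divisible by `8 D'`: if `q < q'` then `D' - D = 2 ^ q m` with
`m` odd, and
`8 D' ∣ (i - j) 2 ^ q m` implies `8 ∣ i - j`; if `q' < q` then `D' - D = 2 ^ q' m`, `m` odd, and
again
`8 ∣ i - j`; but `0 < |i - j| < 4`.
`base_AA`: position `1`, and elements of `Lp 3 (Fin 7)` with position `1` commute.
-/

set_option autoImplicit false

namespace Pool.Agent.MinSig

open Pool.Agent.MinGrowth Multiplicative

theorem conj_lampEmb {A B : Type*} [Group A] [Group B] (g : Wreath A B) (β : B) (u : A) :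
    g * Wreath.lampEmb β u * g⁻¹ =
      Wreath.lampEmb (g.pos * β) (g.lamp (g.pos * β) * u * (g.lamp (g.pos * β))⁻¹) := by
  apply Wreath.ext
  · funext γ
    simp only [Wreath.mul_lamp, Wreath.mul_pos, Wreath.lampEmb_pos, mul_one, Wreath.inv_lamp,
      mul_inv_cancel_left]
    by_cases h : γ = g.pos * β
    · subst h
      rw [inv_mul_cancel_left, Wreath.lampEmb_lamp_same, Wreath.lampEmb_lamp_same]
    · rw [Wreath.lampEmb_lamp_ne h, Wreath.lampEmb_lamp_ne, mul_one, mul_inv_cancel]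
      intro h2
      exact h (by rw [← h2, mul_inv_cancel_left])
  · simp

theorem lampEmb_comm {A B : Type*} [Group A] [Group B] {β γ : B} (h : β ≠ γ) (u v : A) :
    (Wreath.lampEmb β u : Wreath A B) * Wreath.lampEmb γ v =
      Wreath.lampEmb γ v * Wreath.lampEmb β u := by
  apply Wreath.ext
  · funext δ
    simp only [Wreath.mul_lamp, Wreath.lampEmb_pos, inv_one, one_mul]
    by_cases h1 : δ = β
    · subst h1
      rw [Wreath.lampEmb_lamp_ne h, mul_one, one_mul]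
    · rw [Wreath.lampEmb_lamp_ne h1, mul_one, one_mul]
  · simp

private theorem map_lampEmb {A A' B : Type*} [Group A] [Group A'] [Group B] (f : A →* A')
    (β : B) (u : A) :
    (Wreath.map f (Wreath.lampEmb β u) : Wreath A' B) = Wreath.lampEmb β (f u) := by
  apply Wreath.ext
  · funext γ
    change f ((Wreath.lampEmb β u).lamp γ) = _
    by_cases h : γ = β
    · subst h
      rw [Wreath.lampEmb_lamp_same, Wreath.lampEmb_lamp_same]
    · rw [Wreath.lampEmb_lamp_ne h, Wreath.lampEmb_lamp_ne h, map_one]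
  · rfl

private theorem map_posEmb {A A' B : Type*} [Group A] [Group A'] [Group B] (f : A →* A')
    (b : B) : (Wreath.map f (Wreath.posEmb b : Wreath A B) : Wreath A' B) = Wreath.posEmb b := by
  apply Wreath.ext
  · funext γ
    change f 1 = 1
    exact map_one f
  · rfl

theorem blk_aw (D e : ℕ) (μ : Option ℕ) (i : Fin 4) :
    blk D e μ (aw (up i)) = Wreath.lampEmb (site D (((i : ℕ) + 1) * D)) (alpha μ i) := by
  have h : ((up i : Fin 7) : ℕ) < 4 := i.2
  have h1 : blkW D e (aw (up i)) = Wreath.lampEmb (site D ((((up i : Fin 7) : ℕ) + 1) * D))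
      (FreeGroup.of ⟨((up i : Fin 7) : ℕ), h⟩) := by
    unfold blkW aw
    rw [FreeGroup.lift_apply_of]
    exact dif_pos h
  change Wreath.map (lam μ) (blkW D e (aw (up i))) = _
  rw [h1, map_lampEmb]
  have h2 : lam μ (FreeGroup.of ⟨((up i : Fin 7) : ℕ), h⟩) = alpha μ i := by
    unfold lam
    rw [FreeGroup.lift_apply_of]
    rfl
  rw [h2]
  rfl

theorem blk_aw_ge (D e : ℕ) (μ : Option ℕ) {i : Fin 7} (hi : 4 ≤ (i : ℕ)) :
    blk D e μ (aw i) = 1 := by
  have h1 : blkW D e (aw i) = 1 := by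
    unfold blkW aw
    rw [FreeGroup.lift_apply_of]
    exact dif_neg (not_lt.2 hi)
  change Wreath.map (lam μ) (blkW D e (aw i)) = _
  rw [h1, map_one]

theorem blk_tt (D e : ℕ) (μ : Option ℕ) : blk D e μ tt =
    Wreath.lampEmb (site D 0) (lam μ zw ^ e) * Wreath.posEmb (site D 1) := by
  have h1 : blkW D e tt = Wreath.lampEmb (site D 0) (zw ^ e) * Wreath.posEmb (site D 1) := by
    unfold blkW tt
    rw [FreeGroup.lift_apply_of]
  change Wreath.map (lam μ) (blkW D e tt) = _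
  rw [h1, map_mul, map_lampEmb, map_posEmb, map_pow]

private theorem blk_tt_pow_pos (D e : ℕ) (μ : Option ℕ) (n : ℕ) :
    (blk D e μ (tt ^ n)).pos = site D n := by
  induction n with
  | zero =>
    rw [pow_zero, map_one, Wreath.one_pos, Nat.cast_zero, site_zero]
  | succ n ih =>
    rw [pow_succ, map_mul, Wreath.mul_pos, ih, blk_tt, Wreath.mul_pos, Wreath.lampEmb_pos,
      Wreath.posEmb_pos, one_mul, site_mul, Nat.cast_succ]

private theorem blk_tt_pow_lamp {D e : ℕ} {μ : Option ℕ} {n : ℕ} {z : ℤ} (h1 : (n : ℤ) ≤ z)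
    (h2 : z < ((8 * D : ℕ) : ℤ)) : (blk D e μ (tt ^ n)).lamp (site D z) = 1 := by
  induction n generalizing z with
  | zero => rw [pow_zero, map_one, Wreath.one_lamp]
  | succ n ih =>
    push_cast at h1
    have h3 : site D z ≠ site D 0 := by
      intro h
      rw [site_eq, sub_zero] at h
      have h4 := Int.le_of_dvd (by omega) h
      omega
    rw [pow_succ', map_mul, Wreath.mul_lamp, blk_tt, Wreath.mul_lamp, Wreath.posEmb_lamp,
      mul_one, Wreath.lampEmb_lamp_ne h3, one_mul, Wreath.mul_pos, Wreath.lampEmb_pos,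
      Wreath.posEmb_pos, one_mul, site_inv, site_mul]
    exact ih (by omega) (by omega)

/-- the conjugate of a lamp of a block -/
private theorem blk_AA_gen (D D' e : ℕ) (μ : Option ℕ) (i : Fin 4) :
    blk D' e μ (AA D i) =
      Wreath.lampEmb (site D' (((4 - (i : ℕ)) * D : ℕ) : ℤ) * site D' (((i : ℕ) + 1) * D'))
        ((blk D' e μ (tt ^ ((4 - (i : ℕ)) * D))).lamp
          (site D' (((4 - (i : ℕ)) * D : ℕ) : ℤ) * site D' (((i : ℕ) + 1) * D')) * alpha μ i *
        ((blk D' e μ (tt ^ ((4 - (i : ℕ)) * D))).lamp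
          (site D' (((4 - (i : ℕ)) * D : ℕ) : ℤ) * site D' (((i : ℕ) + 1) * D')))⁻¹) := by
  unfold AA
  rw [map_mul, map_mul, map_inv, blk_aw, conj_lampEmb, blk_tt_pow_pos]

theorem blk_AA {D : ℕ} (hD : 0 < D) (e : ℕ) (μ : Option ℕ) (i : Fin 4) :
    blk D e μ (AA D i) = Wreath.lampEmb (site D (5 * D)) (alpha μ i) := by
  have hi : (i : ℕ) < 4 := i.2
  have hn : (((4 - (i : ℕ)) * D : ℕ) : ℤ) = (4 - ((i : ℕ) : ℤ)) * D := by
    rw [Nat.cast_mul, Nat.cast_sub hi.le]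
    rfl
  have hs : site D (((4 - (i : ℕ)) * D : ℕ) : ℤ) * site D (((i : ℕ) + 1) * D) =
      site D (5 * D) := by
    rw [site_mul, hn]
    congr 1
    ring
  rw [blk_AA_gen, hs, blk_tt_pow_lamp, one_mul, inv_one, mul_one]
  · rw [hn]
    have h1 : (4 - ((i : ℕ) : ℤ)) ≤ 5 := by omega
    have h2 : (0 : ℤ) ≤ D := by positivity
    nlinarith
  · have h2 : (0 : ℤ) < D := by exact_mod_cast hD
    push_cast
    linarith

private theorem eight_dvd {q q' : ℕ} (hq : q ≠ q') {x : ℤ}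
    (h : ((8 * 2 ^ q' : ℕ) : ℤ) ∣ x * (2 ^ q' - 2 ^ q)) : (8 : ℤ) ∣ x := by
  have key : ∀ (k : ℕ) (y : ℤ), 0 < k → (8 : ℤ) ∣ y * (2 ^ k - 1) → (8 : ℤ) ∣ y := by
    intro k y hk hy
    have h1 : IsCoprime (8 : ℤ) (2 ^ k - 1) := by
      have h2 : IsCoprime (2 : ℤ) (2 ^ k - 1) := by
        obtain ⟨m, rfl⟩ := Nat.exists_eq_succ_of_ne_zero hk.ne'
        exact ⟨2 ^ m, -1, by rw [pow_succ]; ring⟩
      have h3 := h2.pow_left (m := 3)
      norm_num at h3
      exact h3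
    exact h1.dvd_of_dvd_mul_right hy
  rcases lt_or_gt_of_ne hq with h1 | h1
  · obtain ⟨k, rfl⟩ := Nat.exists_eq_add_of_lt h1
    have h2 : ((8 * 2 ^ (q + k + 1) : ℕ) : ℤ) = 2 ^ q * (8 * 2 ^ (k + 1)) := by
      push_cast
      ring
    have h3 : x * ((2 : ℤ) ^ (q + k + 1) - 2 ^ q) = 2 ^ q * (x * (2 ^ (k + 1) - 1)) := by
      ring
    rw [h2, h3] at h
    have h4 := (mul_dvd_mul_iff_left (pow_ne_zero q (two_ne_zero (α := ℤ)))).1 h
    exact key (k + 1) x (Nat.succ_pos k) ((Dvd.intro _ rfl).trans h4)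
  · obtain ⟨k, rfl⟩ := Nat.exists_eq_add_of_lt h1
    have h2 : ((8 * 2 ^ q' : ℕ) : ℤ) = 2 ^ q' * 8 := by
      push_cast
      ring
    have h3 : x * ((2 : ℤ) ^ q' - 2 ^ (q' + k + 1)) = 2 ^ q' * (-(x * (2 ^ (k + 1) - 1))) := by
      ring
    rw [h2, h3] at h
    have h4 := (mul_dvd_mul_iff_left (pow_ne_zero q' (two_ne_zero (α := ℤ)))).1 h
    exact key (k + 1) x (Nat.succ_pos k) ((dvd_neg).1 h4)

theorem blk_AA_comm {q q' : ℕ} (hq : q ≠ q') (e : ℕ) (μ : Option ℕ) {i j : Fin 4}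
    (hij : i ≠ j) : blk (2 ^ q') e μ (AA (2 ^ q) i) * blk (2 ^ q') e μ (AA (2 ^ q) j) =
      blk (2 ^ q') e μ (AA (2 ^ q) j) * blk (2 ^ q') e μ (AA (2 ^ q) i) := by
  rw [blk_AA_gen, blk_AA_gen]
  refine lampEmb_comm ?_ _ _
  rw [site_mul, site_mul, Ne, site_eq]
  intro h
  have hi : (i : ℕ) < 4 := i.2
  have hj : (j : ℕ) < 4 := j.2
  have ei : (((4 - (i : ℕ)) * 2 ^ q : ℕ) : ℤ) = (4 - ((i : ℕ) : ℤ)) * 2 ^ q := by
    rw [Nat.cast_mul, Nat.cast_sub hi.le]
    push_cast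
    ring
  have ej : (((4 - (j : ℕ)) * 2 ^ q : ℕ) : ℤ) = (4 - ((j : ℕ) : ℤ)) * 2 ^ q := by
    rw [Nat.cast_mul, Nat.cast_sub hj.le]
    push_cast
    ring
  rw [ei, ej] at h
  have e1 : (4 - ((i : ℕ) : ℤ)) * 2 ^ q + (((i : ℕ) : ℤ) + 1) * ((2 ^ q' : ℕ) : ℤ) -
      ((4 - ((j : ℕ) : ℤ)) * 2 ^ q + (((j : ℕ) : ℤ) + 1) * ((2 ^ q' : ℕ) : ℤ)) =
      (((i : ℕ) : ℤ) - ((j : ℕ) : ℤ)) * ((2 : ℤ) ^ q' - 2 ^ q) := by
    push_cast
    ring
  rw [e1] at h
  have h8 := eight_dvd hq h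
  have h9 : ((i : ℕ) : ℤ) ≠ ((j : ℕ) : ℤ) := fun h => hij (Fin.ext (by exact_mod_cast h))
  obtain ⟨k, hk⟩ := h8
  omega

private theorem comm_pos_one {g h : Lp 3 (Fin 7)} (hg : g.pos = 1) (hh : h.pos = 1) :
    g * h = h * g := by
  apply Wreath.ext
  · funext β
    rw [Wreath.mul_lamp, Wreath.mul_lamp, hg, hh, inv_one, one_mul, mul_comm]
  · rw [Wreath.mul_pos, Wreath.mul_pos, hg, hh]

private theorem base_AA_pos (D : ℕ) (i : Fin 4) : (base (AA D i)).pos = 1 := by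
  have h1 : (base (aw (up i))).pos = 1 := by
    unfold base aw
    rw [FreeGroup.lift_apply_of]
    rfl
  unfold AA
  rw [map_mul, map_mul, map_inv, Wreath.mul_pos, Wreath.mul_pos, h1, mul_one, Wreath.inv_pos,
    mul_inv_cancel]

theorem base_AA_comm (D : ℕ) (i j : Fin 4) :
    base (AA D i) * base (AA D j) = base (AA D j) * base (AA D i) := by
  exact comm_pos_one (base_AA_pos D i) (base_AA_pos D j)

end Pool.Agent.MinSig
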