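import Pool.Agent.MinSig.IndA
import Pool.Agent.MinSig.QSeq

/-!
# MinSig IndB: independence of the blocks

PROOF of `indep5`.  Let `N` be the set of the `g : Q (σ n)` such that there is `w : F` with
`base w = 1`, `bl σ n' w = 1` for all `n' ≠ n`, `bl σ n w = lampEmb (site (dd n) (5 dd n)) g`. 
It is a
subgroup (`lampEmb` is a homomorphism).  For `A i = AA (dd n) i` and such a `w` the word
`A i * w * (A i)⁻¹` shows `alpha i * g * (alpha i)⁻¹ ∈ N` (`blk_AA`); so the normalizer of `N`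
contains
all `alpha i`, which generate (`alpha_gen`), and `N` is normal.  The words `⁅A i, A j⁆`
(`A i * A j * (A i)⁻¹ * (A j)⁻¹`), `i ≠ j`, show `⁅alpha i, alpha j⁆ ∈ N` (`base_AA_comm`,
`blk_AA_comm` with
`qs_strictMono.injective`; `dd n = 2 ^ qs n`).  So in `Q (σ n) ⧸ N` the images of the `alpha i`
commute and
generate, the quotient is abelian, `commutator ≤ N` and `N = ⊤` (`Q_perf`).
(For example: the centralizer of the image of `alpha i` contains all images of the `alpha j`, so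
it is
everything; then all images are central.)
PROOF of `indep`.  Let `c = site (dd n) (5 dd n + x)` with a natural number `x` (`site_surj`; add
a
multiple of `8 dd n`), `h = bl σ n (tt ^ x)`, `h.pos = site (dd n) x`, `v = h.lamp c`.  Take `w`
for
`v⁻¹ * g * v` from `indep5` and `tt ^ x * w * (tt ^ x)⁻¹` (`conj_lampEmb`).
-/

set_option autoImplicit false

namespace Pool.Agent.MinSig

open Pool.Agent.MinGrowth

/-- the elements at the site `5 D` which are alone in a word -/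
private def NN (σ : ℕ → Option ℕ) (n : ℕ) : Subgroup (Q (σ n)) where
  carrier := {g | ∃ w : F, base w = 1 ∧ (∀ n', n' ≠ n → bl σ n' w = 1) ∧
    bl σ n w = Wreath.lampEmb (site (dd n) (5 * dd n)) g}
  one_mem' := ⟨1, map_one _, fun _ _ => map_one _, by rw [map_one, map_one]⟩
  mul_mem' := by
    rintro g h ⟨v, h1, h2, h3⟩ ⟨w, h4, h5, h6⟩
    refine ⟨v * w, by rw [map_mul, h1, h4, mul_one], fun n' hn => ?_, ?_⟩
    · rw [map_mul, h2 n' hn, h5 n' hn, mul_one]
    · rw [map_mul, h3, h6, map_mul]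
  inv_mem' := by
    rintro g ⟨v, h1, h2, h3⟩
    refine ⟨v⁻¹, by rw [map_inv, h1, inv_one], fun n' hn => ?_, ?_⟩
    · rw [map_inv, h2 n' hn, inv_one]
    · rw [map_inv, h3, map_inv]

private theorem mem_NN {σ : ℕ → Option ℕ} {n : ℕ} {g : Q (σ n)} : g ∈ NN σ n ↔
    ∃ w : F, base w = 1 ∧ (∀ n', n' ≠ n → bl σ n' w = 1) ∧
      bl σ n w = Wreath.lampEmb (site (dd n) (5 * dd n)) g := Iff.rfl

private theorem bl_AA (σ : ℕ → Option ℕ) (n : ℕ) (i : Fin 4) :
    bl σ n (AA (dd n) i) = Wreath.lampEmb (site (dd n) (5 * dd n)) (alpha (σ n) i) :=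
  blk_AA (dd_pos n) n (σ n) i

private theorem NN_conj {σ : ℕ → Option ℕ} {n : ℕ} (i : Fin 4) {g : Q (σ n)} (h : g ∈ NN σ n) :
    alpha (σ n) i * g * (alpha (σ n) i)⁻¹ ∈ NN σ n := by
  rw [mem_NN] at h ⊢
  obtain ⟨w, h1, h2, h3⟩ := h
  refine ⟨AA (dd n) i * w * (AA (dd n) i)⁻¹, ?_, fun n' hn => ?_, ?_⟩
  · rw [map_mul, map_mul, h1, mul_one, map_inv, mul_inv_cancel]
  · rw [map_mul, map_mul, h2 n' hn, mul_one, map_inv, mul_inv_cancel]
  · rw [map_mul, map_mul, h3, map_inv, bl_AA, ← map_inv, ← map_mul, ← map_mul]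

private theorem NN_conj' {σ : ℕ → Option ℕ} {n : ℕ} (i : Fin 4) {g : Q (σ n)}
    (h : g ∈ NN σ n) : (alpha (σ n) i)⁻¹ * g * alpha (σ n) i ∈ NN σ n := by
  rw [mem_NN] at h ⊢
  obtain ⟨w, h1, h2, h3⟩ := h
  refine ⟨(AA (dd n) i)⁻¹ * w * AA (dd n) i, ?_, fun n' hn => ?_, ?_⟩
  · rw [map_mul, map_mul, h1, mul_one, map_inv, inv_mul_cancel]
  · rw [map_mul, map_mul, h2 n' hn, mul_one, map_inv, inv_mul_cancel]
  · rw [map_mul, map_mul, h3, map_inv, bl_AA, ← map_inv, ← map_mul, ← map_mul]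

private theorem NN_normal (σ : ℕ → Option ℕ) (n : ℕ) : (NN σ n).Normal := by
  have h1 : ∀ h : Q (σ n), (∀ g ∈ NN σ n, h * g * h⁻¹ ∈ NN σ n) ∧
      ∀ g ∈ NN σ n, h⁻¹ * g * h ∈ NN σ n := by
    intro h
    have hh : h ∈ Subgroup.closure (Set.range (alpha (σ n))) := by
      rw [alpha_gen]
      exact Subgroup.mem_top _
    induction hh using Subgroup.closure_induction with
    | mem x hx =>
      obtain ⟨i, rfl⟩ := hx
      exact ⟨fun g hg => NN_conj i hg, fun g hg => NN_conj' i hg⟩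
    | one => exact ⟨fun g hg => by simpa using hg, fun g hg => by simpa using hg⟩
    | mul x y _ _ hx hy =>
      constructor
      · intro g hg
        have h2 := hx.1 _ (hy.1 g hg)
        have e : x * y * g * (x * y)⁻¹ = x * (y * g * y⁻¹) * x⁻¹ := by group
        rw [e]
        exact h2
      · intro g hg
        have h2 := hy.2 _ (hx.2 g hg)
        have e : (x * y)⁻¹ * g * (x * y) = y⁻¹ * (x⁻¹ * g * x) * y := by group
        rw [e]
        exact h2
    | inv x _ hx =>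
      constructor
      · intro g hg
        rw [inv_inv]
        exact hx.2 g hg
      · intro g hg
        rw [inv_inv]
        exact hx.1 g hg
  exact ⟨fun g hg h => (h1 h).1 g hg⟩

private theorem NN_comm (σ : ℕ → Option ℕ) (n : ℕ) (i j : Fin 4) :
    alpha (σ n) i * alpha (σ n) j * (alpha (σ n) i)⁻¹ * (alpha (σ n) j)⁻¹ ∈ NN σ n := by
  rcases eq_or_ne i j with rfl | hij
  · rw [mul_inv_cancel_right, mul_inv_cancel]
    exact (NN σ n).one_mem
  rw [mem_NN]
  have key : ∀ {G : Type} [Group G] (f : F →* G), f (AA (dd n) i) * f (AA (dd n) j) =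
      f (AA (dd n) j) * f (AA (dd n) i) →
      f (AA (dd n) i * AA (dd n) j * (AA (dd n) i)⁻¹ * (AA (dd n) j)⁻¹) = 1 := by
    intro G _ f hf
    rw [map_mul, map_mul, map_mul, map_inv, map_inv, hf]
    group
  refine ⟨AA (dd n) i * AA (dd n) j * (AA (dd n) i)⁻¹ * (AA (dd n) j)⁻¹,
    key base (base_AA_comm _ _ _), fun n' hn => ?_, ?_⟩
  · refine key (bl σ n') ?_
    exact blk_AA_comm (fun h => hn (qs_strictMono.injective h).symm) n' (σ n') hij
  · rw [map_mul, map_mul, map_mul, map_inv, map_inv, bl_AA, bl_AA, ← map_inv, ← map_inv,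
      ← map_mul, ← map_mul, ← map_mul]

open scoped commutatorElement in
private theorem NN_top (σ : ℕ → Option ℕ) (n : ℕ) : NN σ n = ⊤ := by
  have hN := NN_normal σ n
  set π : Q (σ n) →* Q (σ n) ⧸ NN σ n := QuotientGroup.mk' (NN σ n) with hπ
  have h0 : ∀ i j, π (alpha (σ n) i) * π (alpha (σ n) j) =
      π (alpha (σ n) j) * π (alpha (σ n) i) := by
    intro i j
    have h1 : π (alpha (σ n) i * alpha (σ n) j * (alpha (σ n) i)⁻¹ * (alpha (σ n) j)⁻¹) = 1 :=
      (QuotientGroup.eq_one_iff _).2 (NN_comm σ n i j)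
    rw [map_mul, map_mul, map_mul, map_inv, map_inv] at h1
    have h2 := mul_inv_eq_one.1 h1
    rw [mul_inv_eq_iff_eq_mul] at h2
    exact h2
  have h1 : ∀ (x : Q (σ n)) (z : Q (σ n) ⧸ NN σ n),
      (∀ i, π (alpha (σ n) i) * z = z * π (alpha (σ n) i)) → π x * z = z * π x := by
    intro x z hz
    have hh : x ∈ Subgroup.closure (Set.range (alpha (σ n))) := by
      rw [alpha_gen]
      exact Subgroup.mem_top _
    induction hh using Subgroup.closure_induction with
    | mem x hx =>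
      obtain ⟨i, rfl⟩ := hx
      exact hz i
    | one => rw [map_one, one_mul, mul_one]
    | mul x y _ _ hx hy => rw [map_mul, mul_assoc, hy, ← mul_assoc, hx, mul_assoc]
    | inv x _ hx => rw [map_inv, inv_mul_eq_iff_eq_mul, ← mul_assoc, hx, mul_inv_cancel_right]
  have h2 : ∀ x y : Q (σ n), π x * π y = π y * π x := fun x y =>
    h1 x (π y) fun i => (h1 y (π (alpha (σ n) i)) fun j => h0 j i).symm
  have h3 : commutator (Q (σ n)) ≤ NN σ n := by
    rw [commutator_def, Subgroup.commutator_le]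
    intro x _ y _
    have h4 : π ⁅x, y⁆ = 1 := by
      rw [commutatorElement_def, map_mul, map_mul, map_mul, map_inv, map_inv, h2]
      group
    exact (QuotientGroup.eq_one_iff _).1 h4
  rw [Q_perf, top_le_iff] at h3
  exact h3

theorem indep5 (σ : ℕ → Option ℕ) (n : ℕ) (g : Q (σ n)) : ∃ w : F, base w = 1 ∧
    (∀ n', n' ≠ n → bl σ n' w = 1) ∧
    bl σ n w = Wreath.lampEmb (site (dd n) (5 * dd n)) g := by
  have h : g ∈ NN σ n := by
    rw [NN_top]
    exact Subgroup.mem_top _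
  exact h

private theorem site_pow (D x : ℕ) : site D 1 ^ x = site D x := by
  induction x with
  | zero => rw [pow_zero, Nat.cast_zero, site_zero]
  | succ x ih => rw [pow_succ, ih, site_mul, Nat.cast_succ]

theorem indep (σ : ℕ → Option ℕ) (n : ℕ) (c : Zm (dd n)) (g : Q (σ n)) : ∃ w : F, base w = 1 ∧
    (∀ n', n' ≠ n → bl σ n' w = 1) ∧ bl σ n w = Wreath.lampEmb c g := by
  have hd := dd_pos n
  obtain ⟨x, hx⟩ : ∃ x : ℕ, site (dd n) x * site (dd n) (5 * dd n) = c := by
    obtain ⟨y, hy⟩ := site_surj (dd n) c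
    have h8 : (0 : ℤ) < ((8 * dd n : ℕ) : ℤ) := by
      have : 0 < 8 * dd n := by omega
      exact_mod_cast this
    refine ⟨((y - 5 * dd n) % ((8 * dd n : ℕ) : ℤ)).toNat, ?_⟩
    rw [site_mul, hy, site_eq, Int.toNat_of_nonneg (Int.emod_nonneg _ h8.ne')]
    have h9 := Int.emod_add_mul_ediv (y - 5 * dd n) ((8 * dd n : ℕ) : ℤ)
    refine ⟨-((y - 5 * dd n) / ((8 * dd n : ℕ) : ℤ)), ?_⟩
    linear_combination h9
  have hpos : (bl σ n (tt ^ x)).pos = site (dd n) x := by
    have h1 : (bl σ n tt).pos = site (dd n) 1 := by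
      have h2 : bl σ n tt = Wreath.lampEmb (site (dd n) 0) (lam (σ n) zw ^ n) *
        Wreath.posEmb (site (dd n) 1) := blk_tt (dd n) n (σ n)
      rw [h2, Wreath.mul_pos, Wreath.lampEmb_pos, Wreath.posEmb_pos, one_mul]
    have h2 : (bl σ n (tt ^ x)).pos = (bl σ n tt).pos ^ x := by
      have h3 := map_pow ((Wreath.posHom (A := Q (σ n)) (B := Zm (dd n))).comp (bl σ n)) tt x
      exact h3
    rw [h2, h1, site_pow]
  set v := (bl σ n (tt ^ x)).lamp c with hv
  obtain ⟨w, h1, h2, h3⟩ := indep5 σ n (v⁻¹ * g * v)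
  refine ⟨tt ^ x * w * (tt ^ x)⁻¹, ?_, fun n' hn => ?_, ?_⟩
  · rw [map_mul, map_mul, h1, mul_one, map_inv, mul_inv_cancel]
  · rw [map_mul, map_mul, h2 n' hn, mul_one, map_inv, mul_inv_cancel]
  · rw [map_mul, map_mul, h3, map_inv, conj_lampEmb, hpos, hx, ← hv]
    congr 1
    group

end Pool.Agent.MinSig
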