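import Pool.Agent.MinSig.FA5

/-!
# MinSig QGen: the groups `Q μ`

PROOF.  `alpha_jj`: the definition of `alpha` (`fin_cases i`).  `alpha_pow`: `jj μ c` is a
homomorphism, `ax_pow`, `ay_pow`.
`alpha_gen`: let `H` be the closure of the range.  It contains `jj μ c ax` and `jj μ c ay`, so
(`A5_gen`, `MonoidHom.map_closure`) the range of `jj μ c` for both `c`.  So the image of `H` under
the inclusion of `QG μ` contains the ranges of `actP μ true` and `actP μ false`, hence `QG μ`, and
`H = ⊤`.
`jj_closure`: the same statement for the ranges of the two factors.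
`Q_perf`: `commutator (Q μ)` contains `jj μ c (commutator A5) = jj μ c A5` (`A5_perf`,
`Subgroup.map_commutator`, `Subgroup.commutator_mono`), and these generate.
`Q_fin`: `Om (some m)` is finite: lists of length at most `m` over a finite type
(`List.finite_length_le`); so `Equiv.Perm (Om (some m))` and its subgroups are finite.
-/

set_option autoImplicit false

namespace Pool.Agent.MinSig

theorem alpha_jj (μ : Option ℕ) (i : Fin 4) : ∃ (c : Bool) (a : A5), alpha μ i = jj μ c a := by
  fin_cases i
  · exact ⟨true, ax, rfl⟩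
  · exact ⟨true, ay, rfl⟩
  · exact ⟨false, ax, rfl⟩
  · exact ⟨false, ay, rfl⟩

theorem alpha_pow (μ : Option ℕ) (i : Fin 4) : alpha μ i ^ 3 = 1 := by
  have h : ∀ (c : Bool) (a : A5), a ^ 3 = 1 → (jj μ c a) ^ 3 = 1 := by
    intro c a ha
    rw [← map_pow, ha, map_one]
  fin_cases i
  · exact h true ax ax_pow
  · exact h true ay ay_pow
  · exact h false ax ax_pow
  · exact h false ay ay_pow

theorem jj_closure (μ : Option ℕ) :
    Subgroup.closure {x : Q μ | ∃ (c : Bool) (a : A5), x = jj μ c a} = ⊤ := by
  apply Subgroup.map_injective (QG μ).subtype_injective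
  apply le_antisymm
  · exact Subgroup.map_mono le_top
  · rw [← MonoidHom.range_eq_map, Subgroup.range_subtype]
    refine sup_le ?_ ?_
    · rintro _ ⟨a, rfl⟩
      exact ⟨jj μ true a, Subgroup.subset_closure ⟨true, a, rfl⟩, rfl⟩
    · rintro _ ⟨a, rfl⟩
      exact ⟨jj μ false a, Subgroup.subset_closure ⟨false, a, rfl⟩, rfl⟩

theorem alpha_gen (μ : Option ℕ) : Subgroup.closure (Set.range (alpha μ)) = ⊤ := by
  rw [eq_top_iff, ← jj_closure, Subgroup.closure_le]
  rintro _ ⟨c, a, rfl⟩
  have h : (⊤ : Subgroup A5) ≤ (Subgroup.closure (Set.range (alpha μ))).comap (jj μ c) := by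
    rw [← A5_gen, Subgroup.closure_le]
    rintro x (rfl | hx)
    · cases c
      · exact Subgroup.subset_closure ⟨2, rfl⟩
      · exact Subgroup.subset_closure ⟨0, rfl⟩
    · rw [Set.mem_singleton_iff] at hx
      rw [hx]
      cases c
      · exact Subgroup.subset_closure ⟨3, rfl⟩
      · exact Subgroup.subset_closure ⟨1, rfl⟩
  exact h (Subgroup.mem_top a)

theorem Q_perf (μ : Option ℕ) : commutator (Q μ) = ⊤ := by
  rw [eq_top_iff, ← jj_closure, Subgroup.closure_le]
  rintro _ ⟨c, a, rfl⟩
  have h : (commutator A5).map (jj μ c) ≤ commutator (Q μ) := by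
    rw [commutator_def, commutator_def, Subgroup.map_commutator]
    exact Subgroup.commutator_mono le_top le_top
  refine h ⟨a, ?_, rfl⟩
  rw [A5_perf]
  trivial

theorem Q_fin (m : ℕ) : Finite (Q (some m)) := by
  have h1 : Finite {l : List (Bool × A5) | l.length ≤ m} :=
    (List.finite_length_le (Bool × A5) m).to_subtype
  have h2 : Finite (Om (some m)) :=
    Finite.of_injective
      (fun l : Om (some m) => (⟨l.1, l.2.2 m rfl⟩ : {l : List (Bool × A5) | l.length ≤ m}))
      fun l l' h => Subtype.ext (congrArg (fun x => x.1) h)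
  exact inferInstanceAs (Finite (QG (some m)))

end Pool.Agent.MinSig
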