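import Pool.Agent.MinSig.Words
import Pool.Agent.MinSig.QGen

/-!
# MinSig Loc: short words see at most one event

Let `L = 8 D`, `E = EE D`, `E h = ⌈h / L⌉`: `E (h + 1) = E h + 1` if `L ∣ h`, otherwise
`E (h + 1) = E h` (private lemma).  So `E (h - 1) = E h - 1` if `L ∣ h - 1`, otherwise `E h`.

PROOF of `loc`.  Let `n = l.length`.
(1) If there are `i : Fin 4` and `x` with `L ∣ x + (i + 1) D` and `|x - y| ≤ n`: claim: for every
list
`l'` and every `y'` with `|y' - x| + l'.length < D`: `ctr D e μ y' l' = alpha μ i ^ es (up i) x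
y' l'`
and `E (y' + hh l') = E y'`.  Induction on `l'`; let `s` be the first letter, `y' = x + d`,
`|d| ≤ D - 2`; the next height is `y' + dh s`.
 * `s = (none, true)`: `L ∤ y'`, because `y' ≡ d - (i + 1) D` lies strictly between `-5 D` and
`0`; so
   `cst = 1` and `E (y' + 1) = E y'`.
 * `s = (none, false)`: `L ∤ y' - 1` for the same reason (`|d - 1| < D`); `cst = 1`,
   `E (y' - 1) = E y'`.
 * `s = (some i', b)`, `i' < 4`: `L ∣ y' + (i' + 1) D` iff `L ∣ d + (i' - i) D`, and
   `|d + (i' - i) D| < 4 D`, so iff `d = (i - i') D`, iff `i' = i`, `d = 0`, i.e. `y' = x`.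
 * `i' ≥ 4`: `cst = 1`, and the exponent sum for `up i` does not change.
Take `y' = y`, `l' = l`: `|y - x| + n ≤ 2 n < D`.
(2) Otherwise: claim: if no `x` with `|x - y'| ≤ l'.length` satisfies `L ∣ x + (i + 1) D` for an
`i < 4` then `ctr D e μ y' l' = lam μ zw ^ (e (E (y' + hh l') - E y'))`.  Induction on `l'`: the
letters
`(some i', b)` contribute `1` (take `x = y'`), the letters `t^±1` contribute `(lam μ zw) ^ (±e)`
exactly if
`E` changes by `±1`.  (`zpow_add`, `zpow_natCast`.)

PROOF of `short_triv`.  `base (mk l) = 1` gives `hh l = 0` (`base_pos`) and `3 ∣ es i x y l` for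
all
`i, x, y` (`base_lamp`, `es_shift`).  By `loc` and `alpha_pow` `ctr D e μ y l = 1` for all `y`;
so all
lamps are `1` (`blk_lamp`, `site_surj`) and the position is `1` (`blk_pos`).  `short_triv'`: write
`w = mk l`, `l = FreeGroup.toWord w`, `l.length ≤ ...`; or: elements of the ball `bF k` are `mk l`
with `l.length ≤ k` (`exists_mk`: a list of generators and inverses of generators).
-/

set_option autoImplicit false

namespace Pool.Agent.MinSig

open Pool.Agent.MinGrowth Multiplicative

private theorem EE_eq {D : ℕ} (hD : 0 < D) {h q : ℤ} (h1 : ((8 * D : ℕ) : ℤ) * (q - 1) < h)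
    (h2 : h ≤ ((8 * D : ℕ) : ℤ) * q) : EE D h = q := by
  have hL : (0 : ℤ) < ((8 * D : ℕ) : ℤ) := by exact_mod_cast Nat.mul_pos (by norm_num) hD
  have h3 := (Int.ediv_emod_unique (a := -h) (b := ((8 * D : ℕ) : ℤ)) (q := -q)
    (r := ((8 * D : ℕ) : ℤ) * q - h) hL).2
    ⟨by ring, by linarith, by linarith [mul_sub ((8 * D : ℕ) : ℤ) q 1]⟩
  unfold EE
  rw [h3.1, neg_neg]

private theorem EE_spec {D : ℕ} (hD : 0 < D) (h : ℤ) :
    ((8 * D : ℕ) : ℤ) * (EE D h - 1) < h ∧ h ≤ ((8 * D : ℕ) : ℤ) * EE D h := by
  have hL : (0 : ℤ) < ((8 * D : ℕ) : ℤ) := by exact_mod_cast Nat.mul_pos (by norm_num) hD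
  have h1 := Int.mul_ediv_add_emod (-h) ((8 * D : ℕ) : ℤ)
  have h2 := Int.emod_nonneg (-h) hL.ne'
  have h3 := Int.emod_lt_of_pos (-h) hL
  unfold EE
  constructor
  · have : ((8 * D : ℕ) : ℤ) * (-(-h / ((8 * D : ℕ) : ℤ)) - 1) =
        -(((8 * D : ℕ) : ℤ) * (-h / ((8 * D : ℕ) : ℤ))) - ((8 * D : ℕ) : ℤ) := by ring
    rw [this]
    linarith
  · have : ((8 * D : ℕ) : ℤ) * (-(-h / ((8 * D : ℕ) : ℤ))) =
        -(((8 * D : ℕ) : ℤ) * (-h / ((8 * D : ℕ) : ℤ))) := by ring
    rw [this]
    linarith

private theorem EE_dvd {D : ℕ} (hD : 0 < D) {h : ℤ} (hd : ((8 * D : ℕ) : ℤ) ∣ h) :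
    EE D (h + 1) = EE D h + 1 := by
  have hL : (0 : ℤ) < ((8 * D : ℕ) : ℤ) := by exact_mod_cast Nat.mul_pos (by norm_num) hD
  obtain ⟨k, hk⟩ := hd
  have h1 : EE D h = k := EE_eq hD (by rw [hk]; nlinarith) hk.le
  rw [h1]
  refine EE_eq hD ?_ ?_
  · rw [hk, add_sub_cancel_right]
    linarith
  · rw [hk, mul_add, mul_one]
    linarith [Int.add_one_le_iff.2 hL]

private theorem EE_ndvd {D : ℕ} (hD : 0 < D) {h : ℤ} (hd : ¬ ((8 * D : ℕ) : ℤ) ∣ h) :
    EE D (h + 1) = EE D h := by
  obtain ⟨h1, h2⟩ := EE_spec hD h
  refine EE_eq hD (by linarith) ?_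
  rcases h2.lt_or_eq with h3 | h3
  · exact Int.add_one_le_iff.2 h3
  · exact absurd ⟨_, h3⟩ hd

private theorem key {D : ℤ} (hD : 0 < D) {x a b d : ℤ} (ha : 8 * D ∣ x + a * D)
    (hb : 8 * D ∣ x + d + b * D) (hd : |d| < D) : d = 0 ∧ (8 : ℤ) ∣ b - a := by
  have h1 : 8 * D ∣ d + (b - a) * D := by
    have := dvd_sub hb ha
    have e : x + d + b * D - (x + a * D) = d + (b - a) * D := by ring
    rwa [e] at this
  have h2 : D ∣ d := by
    have h3 : D ∣ d + (b - a) * D := (Dvd.intro_left 8 rfl).trans h1
    exact (dvd_add_left (Dvd.intro_left _ rfl)).1 h3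
  have h3 : d = 0 := Int.eq_zero_of_abs_lt_dvd h2 hd
  refine ⟨h3, ?_⟩
  rw [h3, zero_add] at h1
  exact (mul_dvd_mul_iff_right hD.ne').1 h1

private theorem loc1 {D : ℕ} (e : ℕ) (μ : Option ℕ) {i : Fin 4} {x : ℤ}
    (hx : ((8 * D : ℕ) : ℤ) ∣ x + ((i : ℕ) + 1) * D) :
    ∀ (l : List (Option (Fin 7) × Bool)) (y : ℤ), |y - x| + l.length < D →
      ctr D e μ y l = alpha μ i ^ es (up i) x y l ∧ EE D (y + hh l) = EE D y := by
  intro l
  induction l with
  | nil =>
    intro y _
    simp [ctr, es, hh]
  | cons s l ih =>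
    intro y hy
    have hD : 0 < D := by
      have h0 := abs_nonneg (y - x)
      have : (0 : ℤ) < D := by
        push_cast [List.length_cons] at hy
        linarith [(Nat.cast_nonneg l.length : (0 : ℤ) ≤ l.length)]
      exact_mod_cast this
    have hDz : (0 : ℤ) < D := by exact_mod_cast hD
    have hi := i.2
    have hx' : 8 * (D : ℤ) ∣ x + ((i : ℕ) + 1) * D := by
      have := hx
      push_cast at this
      exact this
    have hlen : (0 : ℤ) ≤ l.length := Nat.cast_nonneg _
    rw [List.length_cons] at hy
    push_cast at hy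
    obtain ⟨g, b⟩ := s
    rcases g with _ | j
    · -- the letter `t`
      have hes : es (up i) x y ((none, b) :: l) = es (up i) x (y + dh (none, b)) l := by
        simp [es]
      cases b
      · -- `t⁻¹`
        have hdh : dh ((none : Option (Fin 7)), false) = -1 := by simp [dh]
        have hnd : ¬ ((8 * D : ℕ) : ℤ) ∣ y - 1 := by
          intro h
          push_cast at h
          have h1 : |y - 1 - x| < (D : ℤ) := by
            have := abs_sub_abs_le_abs_sub (y - x) 1
            have h2 : |y - 1 - x| ≤ |y - x| + 1 := by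
              have h3 := abs_sub (y - x) 1
              rw [abs_one] at h3
              have e1 : y - 1 - x = y - x - 1 := by ring
              rw [e1]
              exact h3
            linarith
          have h2 := key (b := 0) hDz hx' (d := y - 1 - x) (by
            have e1 : x + (y - 1 - x) + 0 * (D : ℤ) = y - 1 := by ring
            rw [e1]
            exact h) h1
          omega
        have hy' : |y + dh (none, false) - x| + l.length < D := by
          rw [hdh]
          have h3 := abs_sub (y - x) 1
          rw [abs_one] at h3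
          have e1 : y + -1 - x = y - x - 1 := by ring
          rw [e1]
          linarith
        obtain ⟨ih1, ih2⟩ := ih _ hy'
        rw [hes]
        refine ⟨?_, ?_⟩
        · have hc : cst D e μ y (none, false) = 1 := by
            simp only [cst, hnd, Bool.false_eq_true, if_false]
          rw [ctr, ih1, hc, one_mul]
        · rw [hh, ← add_assoc, ih2, hdh]
          have h4 := EE_ndvd hD hnd
          have e1 : y - 1 + 1 = y := by ring
          rw [e1] at h4
          rw [h4]
          rfl
      · -- `t`
        have hdh : dh ((none : Option (Fin 7)), true) = 1 := by simp [dh]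
        have hnd : ¬ ((8 * D : ℕ) : ℤ) ∣ y := by
          intro h
          push_cast at h
          have h2 := key (b := 0) hDz hx' (d := y - x) (by
            have e1 : x + (y - x) + 0 * (D : ℤ) = y := by ring
            rw [e1]
            exact h) (by linarith)
          omega
        have hy' : |y + dh (none, true) - x| + l.length < D := by
          rw [hdh]
          have h3 := abs_add_le (y - x) 1
          rw [abs_one] at h3
          have e1 : y + 1 - x = y - x + 1 := by ring
          rw [e1]
          linarith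
        obtain ⟨ih1, ih2⟩ := ih _ hy'
        rw [hes]
        refine ⟨?_, ?_⟩
        · have hc : cst D e μ y (none, true) = 1 := by
            simp only [cst, hnd, if_true, if_false]
          rw [ctr, ih1, hc, one_mul]
        · rw [hh, ← add_assoc, ih2, hdh]
          exact EE_ndvd hD hnd
    · -- the letter `a_j`
      have hdh : dh (some j, b) = 0 := by simp [dh]
      have hy' : |y - x| + l.length < D := by linarith
      obtain ⟨ih1, ih2⟩ := ih _ hy'
      refine ⟨?_, ?_⟩
      · rw [ctr, es, hdh, add_zero, ih1]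
        by_cases hj : (j : ℕ) < 4
        · by_cases hd : ((8 * D : ℕ) : ℤ) ∣ y + ((j : ℕ) + 1) * D
          · have h2 := key (b := ((j : ℕ) + 1 : ℤ)) hDz hx' (d := y - x) (by
              have e1 : x + (y - x) + ((j : ℕ) + 1) * (D : ℤ) = y + ((j : ℕ) + 1) * (D : ℤ) := by
                ring
              rw [e1]
              have := hd
              push_cast at this
              exact this) (by linarith)
            have hji : (j : ℕ) = i := by omega
            have hyx : y = x := by linarith [h2.1]
            have hj2 : j = up i := Fin.ext hji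
            have hj3 : (⟨j, hj⟩ : Fin 4) = i := Fin.ext hji
            have hc : cst D e μ y (some j, b) =
                if b then alpha μ i else (alpha μ i)⁻¹ := by
              simp only [cst, hj, hd, dite_true, if_true, hj3]
            rw [hc]
            simp only [hj2, hyx, and_self, if_true]
            cases b
            · simp only [Bool.false_eq_true, if_false]
              rw [zpow_add, zpow_neg_one]
            · simp only [if_true]
              rw [zpow_add, zpow_one]
          · have hc : cst D e μ y (some j, b) = 1 := by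
              simp only [cst, hj, hd, dite_true, if_false]
            rw [hc, one_mul]
            have hne : ¬ (some j = some (up i) ∧ y = x) := by
              rintro ⟨h3, rfl⟩
              apply hd
              have h4 : j = up i := Option.some.inj h3
              rw [h4]
              exact hx
            simp only [hne, if_false, zero_add]
        · have hc : cst D e μ y (some j, b) = 1 := by
            simp only [cst, hj, dite_false]
          rw [hc, one_mul]
          have hne : ¬ (some j = some (up i) ∧ y = x) := by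
            rintro ⟨h3, -⟩
            apply hj
            have h4 : j = up i := Option.some.inj h3
            rw [h4]
            exact hi
          simp only [hne, if_false, zero_add]
      · rw [hh, hdh, zero_add]
        exact ih2

private theorem loc2 {D : ℕ} (hD : 0 < D) (e : ℕ) (μ : Option ℕ) :
    ∀ (l : List (Option (Fin 7) × Bool)) (y : ℤ),
      (∀ (i : Fin 4) (x : ℤ), |x - y| ≤ l.length →
        ¬ ((8 * D : ℕ) : ℤ) ∣ x + ((i : ℕ) + 1) * D) →
      ctr D e μ y l = lam μ zw ^ ((e : ℤ) * (EE D (y + hh l) - EE D y)) := by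
  intro l
  induction l with
  | nil =>
    intro y _
    simp [ctr, hh]
  | cons s l ih =>
    intro y hy
    obtain ⟨g, b⟩ := s
    rw [List.length_cons] at hy
    push_cast at hy
    have hdh1 : |dh (g, b)| ≤ 1 := by
      unfold dh
      split_ifs <;> simp
    have h0 := ih (y + dh (g, b)) fun i x hx => hy i x (by
      have h3 := abs_add_le (x - (y + dh (g, b))) (dh (g, b))
      have e1 : x - (y + dh (g, b)) + dh (g, b) = x - y := by ring
      rw [e1] at h3
      linarith)
    have hhe : y + hh ((g, b) :: l) = y + dh (g, b) + hh l := by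
      rw [hh]
      ring
    rw [ctr, h0, hhe]
    rcases g with _ | j
    · cases b
      · have hdh : dh ((none : Option (Fin 7)), false) = -1 := by simp [dh]
        rw [hdh]
        by_cases hd : ((8 * D : ℕ) : ℤ) ∣ y - 1
        · have hc : cst D e μ y (none, false) = (lam μ zw ^ e)⁻¹ := by
            simp only [cst, hd, if_true, Bool.false_eq_true, if_false]
          have h4 := EE_dvd hD hd
          have e1 : y - 1 + 1 = y := by ring
          rw [e1] at h4
          rw [hc, ← zpow_natCast, ← zpow_neg, ← zpow_add, h4]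
          congr 1
          have e2 : y + -1 = y - 1 := by ring
          rw [e2]
          ring
        · have hc : cst D e μ y (none, false) = 1 := by
            simp only [cst, hd, Bool.false_eq_true, if_false]
          have h4 := EE_ndvd hD hd
          have e1 : y - 1 + 1 = y := by ring
          rw [e1] at h4
          rw [hc, one_mul, h4]
          rfl
      · have hdh : dh ((none : Option (Fin 7)), true) = 1 := by simp [dh]
        rw [hdh]
        by_cases hd : ((8 * D : ℕ) : ℤ) ∣ y
        · have hc : cst D e μ y (none, true) = lam μ zw ^ e := by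
            simp only [cst, hd, if_true]
          have h4 := EE_dvd hD hd
          rw [hc, ← zpow_natCast, ← zpow_add, h4]
          congr 1
          ring
        · have hc : cst D e μ y (none, true) = 1 := by
            simp only [cst, hd, if_true, if_false]
          rw [hc, one_mul, EE_ndvd hD hd]
    · have hdh : dh (some j, b) = 0 := by simp [dh]
      have hc : cst D e μ y (some j, b) = 1 := by
        by_cases hj : (j : ℕ) < 4
        · have hd : ¬ ((8 * D : ℕ) : ℤ) ∣ y + ((j : ℕ) + 1) * D := by
            intro hdd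
            refine hy ⟨j, hj⟩ y ?_ hdd
            rw [sub_self, abs_zero]
            positivity
          simp only [cst, hj, hd, dite_true, if_false]
        · simp only [cst, hj, dite_false]
      rw [hc, hdh, one_mul, add_zero]

theorem loc {D : ℕ} (e : ℕ) (μ : Option ℕ) {l : List (Option (Fin 7) × Bool)}
    (hl : 2 * l.length < D) (y : ℤ) :
    (∃ (i : Fin 4) (x : ℤ), ctr D e μ y l = alpha μ i ^ es (up i) x y l ∧
      EE D (y + hh l) = EE D y) ∨
    ctr D e μ y l = lam μ zw ^ ((e : ℤ) * (EE D (y + hh l) - EE D y)) := by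
  by_cases h : ∀ (i : Fin 4) (x : ℤ), |x - y| ≤ l.length →
        ¬ ((8 * D : ℕ) : ℤ) ∣ x + ((i : ℕ) + 1) * D
  · exact Or.inr (loc2 (by omega) e μ l y h)
  · push Not at h
    obtain ⟨i, x, h1, h2⟩ := h
    refine Or.inl ⟨i, x, loc1 e μ h2 l y ?_⟩
    rw [abs_sub_comm]
    have : (2 : ℤ) * l.length < D := by exact_mod_cast hl
    linarith

theorem short_triv {D : ℕ} (e : ℕ) (μ : Option ℕ) {l : List (Option (Fin 7) × Bool)}
    (hl : 2 * l.length < D) (h : base (FreeGroup.mk l) = 1) : blk D e μ (FreeGroup.mk l) = 1 := by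
  have hh0 : hh l = 0 := by
    have h1 := base_pos l
    rw [h, Wreath.one_pos] at h1
    exact (Multiplicative.ofAdd.injective (h1 : ofAdd (0 : ℤ) = ofAdd (hh l))).symm
  have hes : ∀ (i : Fin 7) (x y : ℤ), (3 : ℤ) ∣ es i x y l := by
    intro i x y
    have h1 := base_lamp l (x - y) i
    rw [h, Wreath.one_lamp] at h1
    have h2 : ((es i (x - y) 0 l : ℤ) : ZMod 3) = 0 :=
      (Multiplicative.ofAdd.injective
        (h1 : ofAdd (0 : ZMod 3) = ofAdd ((es i (x - y) 0 l : ℤ) : ZMod 3))).symm
    have h3 := es_shift i (x - y) 0 y l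
    rw [sub_add_cancel, zero_add] at h3
    rw [h3]
    exact (ZMod.intCast_zmod_eq_zero_iff_dvd _ 3).1 h2
  apply Wreath.ext
  · funext β
    obtain ⟨x, rfl⟩ := site_surj D β
    have h1 := blk_lamp D e μ l (-x)
    rw [neg_neg] at h1
    rw [h1, Wreath.one_lamp]
    rcases loc e μ hl (-x) with ⟨i, x', h2, -⟩ | h2
    · rw [h2]
      obtain ⟨k, hk⟩ := hes (up i) x' (-x)
      rw [hk, zpow_mul]
      have h3 : alpha μ i ^ (3 : ℤ) = 1 := by
        have := alpha_pow μ i
        exact_mod_cast this
      rw [h3, one_zpow]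
    · rw [h2, hh0, add_zero, sub_self, mul_zero, zpow_zero]
  · rw [blk_pos, hh0, site_zero, Wreath.one_pos]

theorem exists_mk {k : ℕ} {w : F} (hw : w ∈ bF k) :
    ∃ l : List (Option (Fin 7) × Bool), l.length ≤ k ∧ w = FreeGroup.mk l := by
  obtain ⟨L, h1, h2, h3⟩ := hw
  have key2 : ∀ L : List F, (∀ s ∈ L, s ∈ Set.range (FreeGroup.of : Option (Fin 7) → F) ∨
      s⁻¹ ∈ Set.range (FreeGroup.of : Option (Fin 7) → F)) →
      ∃ l : List (Option (Fin 7) × Bool), l.length = L.length ∧ L.prod = FreeGroup.mk l := by
    intro L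
    induction L with
    | nil => exact fun _ => ⟨[], rfl, rfl⟩
    | cons s L ih =>
      intro h
      obtain ⟨l, e1, e2⟩ := ih fun s hs => h s (List.mem_cons_of_mem _ hs)
      rcases h s List.mem_cons_self with ⟨g, hg⟩ | ⟨g, hg⟩
      · refine ⟨(g, true) :: l, by simp [e1], ?_⟩
        rw [List.prod_cons, e2, ← hg]
        rfl
      · refine ⟨(g, false) :: l, by simp [e1], ?_⟩
        have hs : s = (FreeGroup.of g)⁻¹ := by rw [hg, inv_inv]
        rw [List.prod_cons, e2, hs]
        rfl
  obtain ⟨l, e1, e2⟩ := key2 L h2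
  exact ⟨l, e1.le.trans h1, by rw [← h3, e2]⟩

theorem mk_mem_bF (l : List (Option (Fin 7) × Bool)) : FreeGroup.mk l ∈ bF l.length := by
  refine ⟨l.map fun s => if s.2 then FreeGroup.of s.1 else (FreeGroup.of s.1)⁻¹, by simp, ?_, ?_⟩
  · intro s hs
    obtain ⟨⟨g, b⟩, -, rfl⟩ := List.mem_map.1 hs
    cases b
    · right
      exact ⟨g, by simp⟩
    · left
      exact ⟨g, by simp⟩
  · induction l with
    | nil => rfl
    | cons s l ih =>
      rw [List.map_cons, List.prod_cons, ih]
      obtain ⟨g, b⟩ := s
      cases b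
      · rfl
      · rfl

theorem inv_mul_mem_bF {k : ℕ} {v w : F} (hv : v ∈ bF k) (hw : w ∈ bF k) :
    v⁻¹ * w ∈ bF (2 * k) := by
  obtain ⟨l, h1, rfl⟩ := exists_mk hv
  obtain ⟨l', h2, rfl⟩ := exists_mk hw
  rw [FreeGroup.inv_mk, FreeGroup.mul_mk]
  refine wordBall_mono _ ?_ (mk_mem_bF _)
  rw [List.length_append, FreeGroup.invRev_length]
  omega

end Pool.Agent.MinSig
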