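import Pool.Agent.MinSig.GrA
import Pool.Agent.MinSig.Loc
import Pool.Agent.MinSig.QSeq

/-!
# MinSig Short: the growth of the groups with only few visible blocks

PROOF.  Let `f = QuotientGroup.mk' (K σ X)` and
`g : F →* Lp 3 (Fin 7) × (∀ n : X', Wreath (Q (σ n)) (Zm (dd n)))` with the components `base` and
`bl σ n` (`MonoidHom.prod`, `Pi.monoidHom`).  If `v, w ∈ bF R` and `g v = g w` then `v⁻¹ * w ∈ bF
(2 R)`
(`inv_mul_mem_bF`) is `mk l` with `l.length ≤ 2 R` (`exists_mk`), `base (mk l) = 1`, `bl σ n (mk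
l) = 1`
for `n ∈ X'`, and for `n ∈ X`, `n ∉ X'`: `2 l.length ≤ 4 R < dd n`, so `bl σ n (mk l) = 1` by
`short_triv`.
So `mk_eq_iff` gives `f v = f w`, and `gens_le_of_ker`:
`growthFn (gens f) R ≤ growthFn (gens g) R = (g '' bF R).ncard`
`≤ (base '' bF R).ncard * ∏ Nat.card (...)` (the image is contained in the product of `base '' bF
R` and
the finite set `univ`: `Set.ncard_prod`, `Set.ncard_univ`, `Nat.card_pi`, `Finset.prod_coe_sort`;
finiteness: `fin_block`, `Nat.card` positive).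
-/

set_option autoImplicit false

namespace Pool.Agent.MinSig

open Pool.Agent.MinGrowth

theorem short {σ : ℕ → Option ℕ} {X : Set ℕ} (X' : Finset ℕ) (h : ∀ n ∈ X', σ n ≠ none) {R : ℕ}
    (hR : ∀ n ∈ X, n ∉ X' → 4 * R < dd n) :
    growthFn (gens (QuotientGroup.mk' (K σ X))) R ≤
      growthFn (gens base) R * ∏ n ∈ X', Nat.card (Wreath (Q (σ n)) (Zm (dd n))) := by
  classical
  have hfin : ∀ n : X', Finite (Wreath (Q (σ n)) (Zm (dd n))) := by
    rintro ⟨n, hn⟩
    obtain ⟨m, hm⟩ := Option.ne_none_iff_exists'.1 (h n hn)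
    show Finite (Wreath (Q (σ n)) (Zm (dd n)))
    rw [hm]
    exact fin_block m (dd_pos n)
  let g : F →* Lp 3 (Fin 7) × ((n : X') → Wreath (Q (σ n)) (Zm (dd n))) :=
    base.prod (MonoidHom.pi fun n : X' => bl σ n)
  have h1 : growthFn (gens (QuotientGroup.mk' (K σ X))) R ≤ growthFn (gens g) R := by
    refine gens_le_of_ker g (QuotientGroup.mk' (K σ X)) R fun v hv w hw hvw => ?_
    have hb : base v = base w := congrArg Prod.fst hvw
    have hX' : ∀ n ∈ X', bl σ n v = bl σ n w := fun n hn =>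
      congrFun (congrArg Prod.snd hvw) ⟨n, hn⟩
    refine mk_eq_iff.2 ⟨hb, fun n hn => ?_⟩
    by_cases hn' : n ∈ X'
    · exact hX' n hn'
    · obtain ⟨l, hl, hm⟩ := exists_mk (inv_mul_mem_bF hv hw)
      have h2 : base (FreeGroup.mk l) = 1 := by
        rw [← hm, map_mul, map_inv, hb, inv_mul_cancel]
      have h3 := hR n hn hn'
      have h4 : bl σ n (FreeGroup.mk l) = 1 := short_triv n (σ n) (by omega) h2
      rw [← hm, map_mul, map_inv, inv_mul_eq_one] at h4
      exact h4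
  refine h1.trans ?_
  rw [growthFn_gens, growthFn_gens]
  have h5 : g '' bF R ⊆ (base '' bF R) ×ˢ
      (Set.univ : Set ((n : X') → Wreath (Q (σ n)) (Zm (dd n)))) := by
    rintro _ ⟨w, hw, rfl⟩
    exact ⟨⟨w, hw, rfl⟩, Set.mem_univ _⟩
  have h6 : ((base '' bF R) ×ˢ
      (Set.univ : Set ((n : X') → Wreath (Q (σ n)) (Zm (dd n))))).Finite :=
    ((bF_finite R).image base).prod Set.finite_univ
  refine (Set.ncard_le_ncard h5 h6).trans (le_of_eq ?_)
  rw [Set.ncard_prod, Set.ncard_univ, Nat.card_pi,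
    Finset.prod_coe_sort X' fun n => Nat.card (Wreath (Q (σ n)) (Zm (dd n)))]

end Pool.Agent.MinSig
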