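import Pool.Agent.MinSig.Defs

/-!
# MinSig TgB: most elements of the base group need words which go far

PROOF.  `few`: an element `β` of `Lp 3 (Fin 7)` with `|sh β| ≤ R` and lamps supported in the heights
`[-R, R]` is determined by `sh β` and the function `(x, i) ↦ β.lamp (ofAdd x) i` on
`Finset.Icc (-R) R × Fin 7` (`Wreath.ext`), a set with at most `(2 R + 1) * 3 ^ (7 (2 R + 1))`
elements (`Set.ncard_le_ncard_of_injOn` into `univ` of the finite type
`(Finset.Icc (-R) R) × (Finset.Icc (-R) R → Fin 7 → ZMod 3)`).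
`supp_word`: let `c₀` be such that all letters `s ∈ T ∪ T⁻¹` satisfy `|sh (f s)| ≤ c₀` and
`(f s).lamp (ofAdd x) = 1` for `|x| > c₀` (`T` is finite and the lamps have finite support).  If `w`
is a word all of whose prefixes satisfy `|sh (f (w.take J).prod)| ≤ r` then `f w.prod` has
`|sh| ≤ r` and lamps supported in `[-(r + c₀), r + c₀]` (induction over the prefixes:
`(g * h).lamp β = g.lamp β * h.lamp (g.pos⁻¹ * β)`, `g = f (w.take J).prod`, `h = f` (letter)).
`good_count`: let `x = growthRate (T.image f) > 1`, choose `a ≥ 1` with `3 ^ 15 ≤ x ^ a` hence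
`3 ^ (15 k / a)`-type bounds: if `β` in the ball of radius `k` (of `T.image f`) is not good then
every word `w` for `β` (and there is one, `wordBall_image`) has all prefixes with
`a * |sh| < k`, so `|sh| ≤ r` with `r = k / a` (natural division), and `β` is one of the elements of
`few` with `R = k / a + c₀`, at most `(2 R + 1) * 3 ^ (7 (2 R + 1))` elements.  Choose `a` with
`3 ^ 14 < x ^ a` (`x > 1`).  Then `(2 R + 1) * 3 ^ (14 R + 7) ≤ x ^ k / 2` for all large `k`:
`3 ^ (14 R + 7) ≤ 3 ^ (14 c₀ + 7) * (3 ^ 14) ^ (k / a)` and `x ^ k ≥ (x ^ a) ^ (k / a)`, so it is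
enough that `(2 n + 2 c₀ + 1) * C * (3 ^ 14) ^ n ≤ (x ^ a) ^ n / 2` for all large `n = k / a`
(exponential against linear: `tendsto_pow_const_div_const_pow_of_one_lt` or similar).
The ball has at least `x ^ k` elements (`growthRate_pow_le`), so at least `x ^ k / 2` are good (the
good ones and the others cover the ball; all sets are finite: `wordBall_finite`,
`Set.ncard_union_le`).
-/

set_option autoImplicit false

namespace Pool.Agent.MinSig

open Pool.Agent.MinGrowth

open Wreath in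
/-- elements with small translation and lamps in an interval -/
private def Few (R : ℕ) : Set (Lp 3 (Fin 7)) :=
  {β | |Lp.sh β| ≤ (R : ℤ) ∧ ∀ x : ℤ, (R : ℤ) < |x| → β.lamp (Multiplicative.ofAdd x) = 1}

private theorem few_mono {R R' : ℕ} (h : R ≤ R') : Few R ⊆ Few R' := by
  rintro β ⟨h1, h2⟩
  have h3 : (R : ℤ) ≤ (R' : ℤ) := by exact_mod_cast h
  exact ⟨h1.trans h3, fun x hx => h2 x (h3.trans_lt hx)⟩

private def code (R : ℕ) (β : Lp 3 (Fin 7)) :
    ℤ × (Finset.Icc (-(R : ℤ)) R → Fin 7 → Cp 3) :=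
  (Lp.sh β, fun x => β.lamp (Multiplicative.ofAdd (x : ℤ)))

private theorem code_inj (R : ℕ) : Set.InjOn (code R) (Few R) := by
  rintro β ⟨-, h2⟩ γ ⟨-, h4⟩ h
  have e1 : Lp.sh β = Lp.sh γ := congrArg Prod.fst h
  have e2 := congrArg Prod.snd h
  refine Wreath.ext ?_ (Multiplicative.toAdd.injective e1)
  funext b
  obtain ⟨x, rfl⟩ := Multiplicative.ofAdd.surjective b
  by_cases hx : (R : ℤ) < |x|
  · rw [h2 x hx, h4 x hx]
  · have hx' : x ∈ Finset.Icc (-(R : ℤ)) R := by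
      rw [Finset.mem_Icc]
      exact abs_le.1 (not_lt.1 hx)
    exact congrFun e2 ⟨x, hx'⟩

private theorem tgt_finite (R : ℕ) : (((Finset.Icc (-(R : ℤ)) R : Finset ℤ) : Set ℤ) ×ˢ
    (Set.univ : Set (Finset.Icc (-(R : ℤ)) R → Fin 7 → Cp 3))).Finite :=
  (Finset.finite_toSet _).prod Set.finite_univ

private theorem code_maps (R : ℕ) : ∀ β ∈ Few R, code R β ∈
    (((Finset.Icc (-(R : ℤ)) R : Finset ℤ) : Set ℤ) ×ˢ
    (Set.univ : Set (Finset.Icc (-(R : ℤ)) R → Fin 7 → Cp 3))) := by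
  rintro β ⟨h1, -⟩
  refine ⟨?_, Set.mem_univ _⟩
  rw [Finset.mem_coe, Finset.mem_Icc]
  exact abs_le.1 h1

private theorem few_finite (R : ℕ) : (Few R).Finite :=
  Set.Finite.of_finite_image ((tgt_finite R).subset (by
    rintro _ ⟨β, hβ, rfl⟩
    exact code_maps R β hβ)) (code_inj R)

private theorem few_card (R : ℕ) : (Few R).ncard ≤ (2 * R + 1) * 3 ^ (7 * (2 * R + 1)) := by
  have h1 := Set.ncard_le_ncard_of_injOn (code R) (code_maps R) (code_inj R) (tgt_finite R)
  refine h1.trans (le_of_eq ?_)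
  have h2 : (Finset.Icc (-(R : ℤ)) R).card = 2 * R + 1 := by
    rw [Int.card_Icc]
    omega
  have h3 : Fintype.card (Cp 3) = 3 := by
    rw [Fintype.card_multiplicative, ZMod.card]
  rw [Set.ncard_prod, Set.ncard_coe_finset, h2, Set.ncard_univ, Nat.card_eq_fintype_card,
    Fintype.card_fun, Fintype.card_fun, h3, Fintype.card_fin, Fintype.card_coe, h2, ← pow_mul]

private theorem mem_few (g : Lp 3 (Fin 7)) : ∃ c : ℕ, g ∈ Few c := by
  obtain ⟨B, hB⟩ := (g.finite.image fun b => (Multiplicative.toAdd b).natAbs).bddAbove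
  refine ⟨(Lp.sh g).natAbs + B, ?_, fun x hx => ?_⟩
  · rw [Int.abs_eq_natAbs]
    exact_mod_cast Nat.le_add_right _ _
  · by_contra h
    have h1 : x.natAbs ≤ B := hB ⟨Multiplicative.ofAdd x, h, rfl⟩
    rw [Int.abs_eq_natAbs] at hx
    have h2 : (Lp.sh g).natAbs + B < x.natAbs := by exact_mod_cast hx
    omega

private theorem bound_T {G : Type*} [Group G] (f : G →* Lp 3 (Fin 7)) (T : Finset G) :
    ∃ c : ℕ, ∀ s, (s ∈ T ∨ s⁻¹ ∈ T) → f s ∈ Few c := by
  choose b hb using mem_few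
  refine ⟨T.sup fun s => max (b (f s)) (b (f s⁻¹)), ?_⟩
  rintro s (h | h)
  · refine few_mono ?_ (hb (f s))
    exact (le_max_left _ _).trans (Finset.le_sup (f := fun s => max (b (f s)) (b (f s⁻¹))) h)
  · refine few_mono ?_ (hb (f s))
    have h1 := Finset.le_sup (f := fun s => max (b (f s)) (b (f s⁻¹))) h
    rw [inv_inv] at h1
    exact (le_max_right _ _).trans h1

private theorem supp_word {G : Type*} [Group G] (f : G →* Lp 3 (Fin 7)) {c : ℕ} (w : List G)
    (hw : ∀ s ∈ w, f s ∈ Few c) {r : ℕ}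
    (hr : ∀ J ≤ w.length, |Lp.sh (f (w.take J).prod)| ≤ (r : ℤ)) :
    ∀ J ≤ w.length, f (w.take J).prod ∈ Few (r + c) := by
  intro J
  induction J with
  | zero =>
    intro _
    rw [List.take_zero, List.prod_nil, map_one]
    refine ⟨?_, fun x _ => rfl⟩
    rw [Lp.sh_one, abs_zero]
    positivity
  | succ J ih =>
    intro hJ
    have h1 := ih (by omega)
    have h2 : (w.take (J + 1)).prod = (w.take J).prod * w[J] := by
      rw [List.take_succ_eq_append_getElem (by omega), List.prod_append, List.prod_singleton]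
    have h3 : f w[J] ∈ Few c := hw _ (List.getElem_mem _)
    have h4 : |Lp.sh (f (w.take (J + 1)).prod)| ≤ (r : ℤ) := hr _ hJ
    have h5 : |Lp.sh (f (w.take J).prod)| ≤ (r : ℤ) := hr _ (by omega)
    refine ⟨h4.trans (by push_cast; omega), fun x hx => ?_⟩
    rw [h2, map_mul, Wreath.mul_lamp, h1.2 x hx, one_mul]
    have h6 : (f (w.take J).prod).pos⁻¹ * Multiplicative.ofAdd x =
        Multiplicative.ofAdd (x - Lp.sh (f (w.take J).prod)) := by
      apply Multiplicative.toAdd.injective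
      rw [toAdd_mul, toAdd_inv, toAdd_ofAdd, toAdd_ofAdd, Lp.sh]
      ring
    rw [h6]
    apply h3.2
    have h7 := abs_sub_abs_le_abs_sub x (Lp.sh (f (w.take J).prod))
    push_cast at hx
    omega

private theorem real_bound (x : ℝ) (a c : ℕ) (hx : 1 < x) (ha : (3 : ℝ) ^ 14 < x ^ a) :
    ∃ n₀ : ℕ, ∀ n ≥ n₀, (2 * ((n + c : ℕ) : ℝ) + 1) * 3 ^ (7 * (2 * (n + c) + 1)) ≤
      (x ^ a) ^ n / 2 := by
  have hxa : 0 < x ^ a := by positivity
  set q : ℝ := 3 ^ 14 / x ^ a with hq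
  have hq0 : 0 ≤ q := by positivity
  have hq1 : q < 1 := (div_lt_one hxa).2 ha
  have t1 := tendsto_self_mul_const_pow_of_lt_one hq0 hq1
  have t2 := tendsto_pow_atTop_nhds_zero_of_lt_one hq0 hq1
  have t3 : Filter.Tendsto (fun n : ℕ => (2 * (3 : ℝ) ^ (14 * c + 7)) * ((n : ℝ) * q ^ n) +
      ((2 * (c : ℝ) + 1) * 3 ^ (14 * c + 7)) * q ^ n) Filter.atTop
      (nhds ((2 * (3 : ℝ) ^ (14 * c + 7)) * 0 + ((2 * (c : ℝ) + 1) * 3 ^ (14 * c + 7)) * 0)) :=
    (t1.const_mul _).add (t2.const_mul _)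
  rw [mul_zero, mul_zero, add_zero] at t3
  have t4 := t3.eventually (Iio_mem_nhds (show (0 : ℝ) < 1 / 2 by norm_num))
  obtain ⟨n₀, hn₀⟩ := Filter.eventually_atTop.1 t4
  refine ⟨n₀, fun n hn => ?_⟩
  have h1 : (2 * (3 : ℝ) ^ (14 * c + 7)) * ((n : ℝ) * q ^ n) +
      ((2 * (c : ℝ) + 1) * 3 ^ (14 * c + 7)) * q ^ n < 1 / 2 := hn₀ n hn
  have h2 : q ^ n * (x ^ a) ^ n = (3 ^ 14) ^ n := by
    rw [← mul_pow, hq, div_mul_cancel₀ _ hxa.ne']
  have h3 : (3 : ℝ) ^ (7 * (2 * (n + c) + 1)) = 3 ^ (14 * c + 7) * (3 ^ 14) ^ n := by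
    rw [← pow_mul, ← pow_add]
    congr 1
    ring
  rw [h3, ← h2]
  have h4 : 0 < (x ^ a) ^ n := by positivity
  push_cast
  nlinarith [mul_lt_mul_of_pos_right h1 h4]

open Classical in
theorem good_count {G : Type*} [Group G] (f : G →* Lp 3 (Fin 7)) (T : Finset G)
    (hx : 1 < growthRate (T.image f)) : ∃ a : ℕ, 0 < a ∧ ∃ k₀ : ℕ, ∀ k, k₀ ≤ k →
      growthRate (T.image f) ^ k / 2 ≤ (({β | ∃ w : List G, w.length ≤ k ∧
        (∀ s ∈ w, s ∈ T ∨ s⁻¹ ∈ T) ∧ f w.prod = β ∧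
        ∃ J ≤ w.length, (k : ℤ) ≤ a * |Lp.sh (f (w.take J).prod)|} :
          Set (Lp 3 (Fin 7))).ncard : ℝ) := by
  set x := growthRate (T.image f) with hxdef
  obtain ⟨a, ha⟩ := pow_unbounded_of_one_lt ((3 : ℝ) ^ 14) hx
  have ha0 : 0 < a := by
    rcases Nat.eq_zero_or_pos a with rfl | h
    · norm_num at ha
    · exact h
  obtain ⟨c, hc⟩ := bound_T f T
  obtain ⟨n₀, hn₀⟩ := real_bound x a c hx ha
  refine ⟨a, ha0, a * n₀, fun k hk => ?_⟩
  set Good : Set (Lp 3 (Fin 7)) := {β | ∃ w : List G, w.length ≤ k ∧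
        (∀ s ∈ w, s ∈ T ∨ s⁻¹ ∈ T) ∧ f w.prod = β ∧
        ∃ J ≤ w.length, (k : ℤ) ≤ a * |Lp.sh (f (w.take J).prod)|} with hGood
  have hball : ((wordBall ((T.image f : Finset (Lp 3 (Fin 7))) : Set (Lp 3 (Fin 7))) k)) =
      f '' wordBall (T : Set G) k := by
    rw [Finset.coe_image, wordBall_image]
  have hfin := wordBall_finite (T.image f).finite_toSet k
  have hGfin : Good.Finite := by
    refine hfin.subset ?_
    rintro β ⟨w, h1, h2, h3, -⟩
    rw [hball]
    exact ⟨w.prod, ⟨w, h1, h2, rfl⟩, h3⟩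
  have hcover : wordBall ((T.image f : Finset (Lp 3 (Fin 7))) : Set (Lp 3 (Fin 7))) k ⊆
      Good ∪ Few (k / a + c) := by
    intro β hβ
    rw [hball] at hβ
    obtain ⟨_, ⟨w, h1, h2, rfl⟩, rfl⟩ := hβ
    by_cases hg : f w.prod ∈ Good
    · exact Or.inl hg
    · refine Or.inr ?_
      have h4 : ∀ J ≤ w.length, |Lp.sh (f (w.take J).prod)| ≤ ((k / a : ℕ) : ℤ) := by
        intro J hJ
        have h5 : ¬ (k : ℤ) ≤ a * |Lp.sh (f (w.take J).prod)| := fun h6 =>
          hg ⟨w, h1, h2, rfl, J, hJ, h6⟩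
        rw [Int.abs_eq_natAbs] at h5 ⊢
        have h6 : a * (Lp.sh (f (w.take J).prod)).natAbs < k := by
          rw [not_le] at h5
          exact_mod_cast h5
        have h7 : (Lp.sh (f (w.take J).prod)).natAbs ≤ k / a := by
          rw [Nat.le_div_iff_mul_le ha0, mul_comm]
          exact h6.le
        exact_mod_cast h7
      have h8 := supp_word f w (fun s hs => hc s (h2 s hs)) h4 w.length le_rfl
      rwa [List.take_length] at h8
  have h1 : growthFn (T.image f) k ≤ Good.ncard + (Few (k / a + c)).ncard :=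
    (Set.ncard_le_ncard hcover (hGfin.union (few_finite _))).trans (Set.ncard_union_le _ _)
  have h2 := growthRate_pow_le (T.image f) k
  rw [← hxdef] at h2
  have h3 : ((Few (k / a + c)).ncard : ℝ) ≤ x ^ k / 2 := by
    have h4 := few_card (k / a + c)
    have h5 : n₀ ≤ k / a := by
      rw [Nat.le_div_iff_mul_le ha0, mul_comm]
      exact hk
    have h6 := hn₀ _ h5
    have h7 : (x ^ a) ^ (k / a) ≤ x ^ k := by
      rw [← pow_mul]
      exact pow_le_pow_right₀ hx.le (Nat.mul_div_le k a)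
    have h8 : ((Few (k / a + c)).ncard : ℝ) ≤
        (2 * ((k / a + c : ℕ) : ℝ) + 1) * 3 ^ (7 * (2 * (k / a + c) + 1)) := by
      exact_mod_cast h4
    linarith
  have h4 : (growthFn (T.image f) k : ℝ) ≤ (Good.ncard : ℝ) + ((Few (k / a + c)).ncard : ℝ) := by
    exact_mod_cast h1
  linarith

end Pool.Agent.MinSig
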