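import Pool.Agent.MinSig.QEval

/-!
# MinSig QCross: paths in the free product pass near all prefixes

`S <:+ wd g` means that `g` begins with `(ev S)⁻¹`.

PROOF.  (1) SINGLE LETTER: if `¬ S <:+ wd g` and `S <:+ wd (g * jj none c a)` then
`wd (g * jj none c a) = S`.  By `wd_mul_jj` the new word is `raw none c a⁻¹ (wd g)`: it is the
old word, or
the old word without the first letter (then `S` is a suffix of the old word, contradiction), or
the old
word with one more letter at the beginning, or with a changed first letter; in the last two cases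
a
suffix of the new word which is not the whole word is a suffix of the tail of the new word, hence
of the
old word (`List.suffix_cons_iff`).
(2) If `¬ S <:+ wd g`, `S <:+ wd (g * ev L)` then there is `b ≤ L.length` with
`wd (g * ev (L.take b)) = S`, so `g * ev (L.take b) = (ev S)⁻¹` (`ev_wd`) and
`g * ev L = (ev S)⁻¹ * ev (L.drop b)` (`ev_append`, `List.take_append_drop`): take the least `b`
with
`S <:+ wd (g * ev (L.take b))` and use (1) for the last letter.
(3) For `f ∈ F₀` let `L f = wd f⁻¹`, so `f = ev (L f)` (`ev_wd`).  `R₀ = {1} ∪ {ev ((L f).drop b)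
|
f ∈ F₀, b ≤ (L f).length}`.
(4) Let `W = wd (ρ J)` and `S j = sfx W j`, a suffix of `W`, and of `S j'` for `j ≤ j'`.  Let `τ
j` be the
least `i` such that `S j <:+ wd (ρ i')` for all `i'` with `i ≤ i' ≤ J` (`i = J` has this
property, and
`i = J + 1` has it trivially, so take the least one; it is `≤ J`).  `τ` is monotone.  If `τ j =
0` then
`S j <:+ wd 1 = []`, `S j = []`, `ρ 0 = 1 = (ev [])⁻¹ * 1`.  If `τ j = i + 1` then `¬ S j <:+ wd
(ρ i)` and (2) with
`L = L f`, `f = (ρ i)⁻¹ * ρ (i + 1)`.
-/

set_option autoImplicit false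

namespace Pool.Agent.MinSig

private theorem raw_sfx {c : Bool} {a : A5} {l S : List (Bool × A5)} (h1 : ¬ S <:+ l)
    (h2 : S <:+ raw none c a l) : raw none c a l = S := by
  rcases l with _ | ⟨⟨d, b⟩, l⟩
  · by_cases h3 : a = 1
    · have e : raw none c a [] = [] := by simp [raw, h3]
      rw [e] at h2
      exact absurd h2 h1
    · have e : raw none c a [] = [(c, a)] := by simp [raw, h3]
      rw [e] at h2 ⊢
      rcases List.suffix_cons_iff.1 h2 with h4 | h4
      · exact h4.symm
      · exact absurd h4 h1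
  · simp only [raw] at h2 ⊢
    split_ifs at h2 ⊢ with h3 h4 h5
    · exact absurd (h2.trans (List.suffix_cons _ _)) h1
    · rcases List.suffix_cons_iff.1 h2 with h6 | h6
      · exact h6.symm
      · exact absurd (h6.trans (List.suffix_cons _ _)) h1
    · exact absurd h2 h1
    · rcases List.suffix_cons_iff.1 h2 with h6 | h6
      · exact h6.symm
      · exact absurd h6 h1

private theorem steps (L : List (Bool × A5)) (S : List (Bool × A5)) : ∀ g : Q none,
    ¬ S <:+ wd g → S <:+ wd (g * ev L) →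
      ∃ b ≤ L.length, g * ev (L.take b) = (ev S)⁻¹ := by
  induction L with
  | nil =>
    intro g h1 h2
    rw [show ev [] = 1 from rfl, mul_one] at h2
    exact absurd h2 h1
  | cons x L ih =>
    intro g h1 h2
    have e : g * ev (x :: L) = g * jj none x.1 x.2 * ev L := by
      rw [show ev (x :: L) = jj none x.1 x.2 * ev L from rfl, mul_assoc]
    rw [e] at h2
    by_cases h3 : S <:+ wd (g * jj none x.1 x.2)
    · have h4 : wd (g * jj none x.1 x.2) = S := by
        rw [wd_mul_jj] at h3 ⊢
        exact raw_sfx h1 h3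
      refine ⟨1, by simp, ?_⟩
      have h5 : ev ((x :: L).take 1) = jj none x.1 x.2 := by
        rw [List.take_succ_cons, List.take_zero,
          show ev [x] = jj none x.1 x.2 * ev [] from rfl, show ev [] = 1 from rfl, mul_one]
      rw [h5, ← h4, ev_wd, inv_inv]
    · obtain ⟨b, hb, h4⟩ := ih _ h3 h2
      refine ⟨b + 1, Nat.succ_le_succ hb, ?_⟩
      rw [List.take_succ_cons, show ev (x :: L.take b) = jj none x.1 x.2 * ev (L.take b) from rfl,
        ← mul_assoc]
      exact h4

private theorem sfx_sfx (W : List (Bool × A5)) {j j' : ℕ} (h : j ≤ j') :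
    sfx W j <:+ sfx W j' := by
  unfold sfx
  have e : W.drop (W.length - j) =
      (W.drop (W.length - j')).drop ((W.length - j) - (W.length - j')) := by
    rw [List.drop_drop]
    congr 1
    omega
  rw [e]
  exact List.drop_suffix _ _

theorem cross (F₀ : Finset (Q none)) : ∃ R₀ : Finset (Q none), ∀ (ρ : ℕ → Q none) (J : ℕ),
    ρ 0 = 1 → (∀ i < J, (ρ i)⁻¹ * ρ (i + 1) ∈ F₀) →
    ∃ τ : ℕ → ℕ, Monotone τ ∧ (∀ j, τ j ≤ J) ∧
      ∀ j, ∃ r ∈ R₀, ρ (τ j) = (ev (sfx (wd (ρ J)) j))⁻¹ * r := by
  classical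
  refine ⟨insert 1 (F₀.biUnion fun f => (Finset.range ((wd f⁻¹).length + 1)).image
    fun b => ev ((wd f⁻¹).drop b)), fun ρ J h0 hρ => ?_⟩
  have hex : ∀ j, ∃ i, ∀ i', i ≤ i' → i' ≤ J → sfx (wd (ρ J)) j <:+ wd (ρ i') := by
    intro j
    refine ⟨J, fun i' h1 h2 => ?_⟩
    rw [le_antisymm h2 h1]
    exact List.drop_suffix _ _
  refine ⟨fun j => Nat.find (hex j), ?_, ?_, ?_⟩
  · intro j j' hjj
    refine Nat.find_min' (hex j) fun i' h1 h2 => ?_
    exact (sfx_sfx _ hjj).trans (Nat.find_spec (hex j') i' h1 h2)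
  · intro j
    refine Nat.find_min' (hex j) fun i' h1 h2 => ?_
    rw [le_antisymm h2 h1]
    exact List.drop_suffix _ _
  · intro j
    have hle : Nat.find (hex j) ≤ J := by
      refine Nat.find_min' (hex j) fun i' h1 h2 => ?_
      rw [le_antisymm h2 h1]
      exact List.drop_suffix _ _
    have hsp := Nat.find_spec (hex j)
    have hmin : ∀ m, m < Nat.find (hex j) →
        ¬ ∀ i', m ≤ i' → i' ≤ J → sfx (wd (ρ J)) j <:+ wd (ρ i') :=
      fun m hm => Nat.find_min (hex j) hm
    change ∃ r ∈ _, ρ (Nat.find (hex j)) = (ev (sfx (wd (ρ J)) j))⁻¹ * r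
    generalize Nat.find (hex j) = i at hle hsp hmin
    rcases i with _ | i
    · have h1 := hsp 0 le_rfl (Nat.zero_le _)
      rw [h0, wd_one, List.suffix_nil] at h1
      refine ⟨1, Finset.mem_insert_self _ _, ?_⟩
      rw [h1, h0, show ev [] = 1 from rfl, inv_one, mul_one]
    · have h1 := hmin i (Nat.lt_succ_self i)
      push Not at h1
      obtain ⟨i', hi', hi'J, hi's⟩ := h1
      have hii : i' = i := by
        by_contra hne
        exact hi's (hsp i' (by omega) hi'J)
      subst hii
      have hf := hρ i' (by omega)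
      have hfe : ρ (i' + 1) = ρ i' * ev (wd ((ρ i')⁻¹ * ρ (i' + 1))⁻¹) := by
        rw [ev_wd, inv_inv, mul_inv_cancel_left]
      have h2 : sfx (wd (ρ J)) j <:+ wd (ρ i' * ev (wd ((ρ i')⁻¹ * ρ (i' + 1))⁻¹)) := by
        rw [← hfe]
        exact hsp (i' + 1) le_rfl hle
      obtain ⟨b, hb, hbe⟩ := steps _ _ _ hi's h2
      refine ⟨ev ((wd ((ρ i')⁻¹ * ρ (i' + 1))⁻¹).drop b), ?_, ?_⟩
      · refine Finset.mem_insert_of_mem (Finset.mem_biUnion.2 ⟨_, hf, ?_⟩)
        exact Finset.mem_image.2 ⟨b, Finset.mem_range.2 (Nat.lt_succ_of_le hb), rfl⟩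
      · rw [← hbe, mul_assoc, ← ev_append, List.take_append_drop]
        exact hfe

end Pool.Agent.MinSig
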