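import Pool.Agent.MinSig.QIns
import Pool.Agent.MinSig.QCross

/-!
# MinSig QMem: a path can be modified in exponentially many ways

PROOF.  `R₀` from `cross F₀`, `V` the finite set of the elements `ev (mark l j)` (`mark_finite`),
`U = {r⁻¹... } = {r⁻¹ * v⁻¹ * r | r ∈ R₀, v ∈ V}`.  For `ρ`, `J` let `τ` be as in `cross`, `W =
wd (ρ J)`,
`ρ (τ j) = (ev (sfx W j))⁻¹ * r j`, `u j = (r j)⁻¹ * (ev (mark W j))⁻¹ * r j`.  Then
`ρ (τ j) * u j * (ρ (τ j))⁻¹ = (ev (sfx W j))⁻¹ * (ev (mark W j))⁻¹ * ev (sfx W j)`.  If the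
products for
`E` and `E'` are equal then by `ev_ins` `ev (ins E W) = ev (ins E' W)`, so `ins E W = ins E' W`
(`ev_inj`,
`ins_red`, `wd_red`) and `E = E'` (`ins_inj`).
-/

set_option autoImplicit false

namespace Pool.Agent.MinSig

theorem mem_paths (F₀ : Finset (Q none)) : ∃ U : Finset (Q none), ∀ (ρ : ℕ → Q none) (J : ℕ),
    ρ 0 = 1 → (∀ i < J, (ρ i)⁻¹ * ρ (i + 1) ∈ F₀) →
    ∃ (τ : ℕ → ℕ) (u : ℕ → Q none), Monotone τ ∧ (∀ j, τ j ≤ J) ∧ (∀ j, u j ∈ U) ∧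
      Set.InjOn (fun E : Finset ℕ =>
        opr (fun j => ρ (τ j) * u j * (ρ (τ j))⁻¹) E (wd (ρ J)).length)
        {E | E ⊆ Finset.range (wd (ρ J)).length} := by
  classical
  obtain ⟨R₀, hR⟩ := cross F₀
  refine ⟨(R₀ ×ˢ mark_finite.toFinset).image fun x => x.1⁻¹ * x.2⁻¹ * x.1, ?_⟩
  intro ρ J h0 h1
  obtain ⟨τ, hmono, hle, hr⟩ := hR ρ J h0 h1
  choose r hrR hr using hr
  set W := wd (ρ J) with hW
  have hWr : Rd W := wd_red (ρ J)
  refine ⟨τ, fun j => (r j)⁻¹ * (ev (mark W j))⁻¹ * r j, hmono, hle, ?_, ?_⟩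
  · intro j
    refine Finset.mem_image.2 ⟨(r j, ev (mark W j)), ?_, rfl⟩
    rw [Finset.mem_product]
    exact ⟨hrR j, mark_finite.mem_toFinset.2 ⟨W, j, rfl⟩⟩
  · have hf : (fun j => ρ (τ j) * ((r j)⁻¹ * (ev (mark W j))⁻¹ * r j) * (ρ (τ j))⁻¹) =
        fun j => (ev (sfx W j))⁻¹ * (ev (mark W j))⁻¹ * ev (sfx W j) := by
      funext j
      rw [hr j]
      group
    intro E hE E' hE' h
    simp only [hf] at h
    have e1 := ev_ins E W
    have e2 := ev_ins E' W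
    rw [h, ← e2] at e1
    exact ins_inj hWr hE hE' (ev_inj (ins_red E hWr) (ins_red E' hWr) e1)

end Pool.Agent.MinSig
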