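import Pool.Agent.MinSig.IndB
import Pool.Agent.MinSig.GrB
import Pool.Agent.MinSig.GrC

/-!
# MinSig SplA: the isolated elements and the modified generators

`el σ n c g` is the element of `Gr σ` which is trivial in the base group and in the blocks `n' ≠
n`,
and `g` at the coordinate `c` in the block `n`.

PROOF.  `el_spec`: `Classical.choose_spec`.  `el_eq`: an element `mk w` with the same components
is
`el σ n c g` (`mk_eq_iff`).  `el_mul`, `el_one`: `el_eq` for the product of the words.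
`el_comm`: two elements with different `(n, c)` commute (`mk_eq_iff`, in the block `n`:
`lampEmb_comm`;
in the other blocks one of them is trivial).
`sig_exists`: `A` is the union over `n ∈ Y` and `c : Zm (dd n)` (a finite type, `dd_pos`) of the
images of
`i ↦ el σ n c (alpha (σ n) i)`.  `PB_biUnion` over the finite set of the pairs
(`Y.sigma fun n => Finset.univ`, with `Fintype.ofFinite`), `PB_three` with `el_mul`, `el_one`,
`alpha_pow`, and
`el_comm`.
`mod_exists`: let `f : F →* F` be `FreeGroup.lift` of: `t ↦ (∏ n ∈ Y, k n) * t` where `k n` is a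
word with
`base (k n) = 1`, trivial in the blocks `≠ n` and `lampEmb (site 0) ((lam zw ^ n)⁻¹)` in the
block `n` (`indep`;
`Finset.noncommProd` or the product of the list `Y.toList`; it is easiest to prove by induction
on the
Finset `Y` that there is one word `k` with `base k = 1`, trivial in the blocks outside `Y` and
with
prescribed values `lampEmb (c n) (g n)` in the blocks `n ∈ Y`: private lemma `many`); `a_i ↦ k' *
a_i` with
`k'` the word with the values `lampEmb (site ((i + 1) dd n)) (alpha i)⁻¹` for `i < 4`, and `a_i ↦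
a_i` for
`i ≥ 4`.  Then `base (f w) = base w` and `bl σ n (f w) = bl σ n w` for `n ∉ Y`
(`FreeGroup.ext_hom`), and
`bl σ n (f w) = posEmb (bl σ n w).pos` for `n ∈ Y` (the same: both sides are homomorphisms,
`posHom`;
`blk_tt`, `blk_aw`, `blk_aw_ge`).
The word `k` is in `Gr σ` a product of elements `el σ n c g`, and `el σ n c g` is in the closure
of the
elements `el σ n c (alpha i)` (`alpha_gen`, `el_mul`): so `f (of g) * (of g)⁻¹` is in the closure
of `A`.
-/

set_option autoImplicit false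

namespace Pool.Agent.MinSig

open Pool.Agent.MinGrowth

/-- the isolated elements -/
noncomputable def el (σ : ℕ → Option ℕ) (n : ℕ) (c : Zm (dd n)) (g : Q (σ n)) : Gr σ :=
  QuotientGroup.mk (indep σ n c g).choose

private theorem gr_ext {σ : ℕ → Option ℕ} {x y : Gr σ} (h1 : toB σ Set.univ x = toB σ Set.univ y)
    (h2 : ∀ n, toR σ n x = toR σ n y) : x = y := by
  obtain ⟨v, rfl⟩ := QuotientGroup.mk_surjective x
  obtain ⟨w, rfl⟩ := QuotientGroup.mk_surjective y
  exact mk_eq_iff.2 ⟨h1, fun n _ => h2 n⟩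

theorem el_eq {σ : ℕ → Option ℕ} {n : ℕ} {c : Zm (dd n)} {g : Q (σ n)} {w : F}
    (h1 : base w = 1) (h2 : ∀ n', n' ≠ n → bl σ n' w = 1)
    (h3 : bl σ n w = Wreath.lampEmb c g) : (QuotientGroup.mk w : Gr σ) = el σ n c g := by
  obtain ⟨e1, e2, e3⟩ := (indep σ n c g).choose_spec
  refine mk_eq_iff.2 ⟨h1.trans e1.symm, fun n' _ => ?_⟩
  by_cases hn : n' = n
  · subst hn
    exact h3.trans e3.symm
  · exact (h2 n' hn).trans (e2 n' hn).symm

theorem el_toB (σ : ℕ → Option ℕ) (n : ℕ) (c : Zm (dd n)) (g : Q (σ n)) :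
    toB σ Set.univ (el σ n c g) = 1 :=
  (indep σ n c g).choose_spec.1

theorem el_toR (σ : ℕ → Option ℕ) (n : ℕ) (c : Zm (dd n)) (g : Q (σ n)) :
    toR σ n (el σ n c g) = Wreath.lampEmb c g :=
  (indep σ n c g).choose_spec.2.2

theorem el_toR_ne (σ : ℕ → Option ℕ) {n n' : ℕ} (h : n' ≠ n) (c : Zm (dd n)) (g : Q (σ n)) :
    toR σ n' (el σ n c g) = 1 :=
  (indep σ n c g).choose_spec.2.1 n' h

theorem el_mul (σ : ℕ → Option ℕ) (n : ℕ) (c : Zm (dd n)) (g h : Q (σ n)) :
    el σ n c (g * h) = el σ n c g * el σ n c h := by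
  refine gr_ext ?_ fun n' => ?_
  · rw [map_mul, el_toB, el_toB, el_toB, one_mul]
  · rw [map_mul]
    by_cases hn : n' = n
    · subst hn
      rw [el_toR, el_toR, el_toR, map_mul]
    · rw [el_toR_ne σ hn, el_toR_ne σ hn, el_toR_ne σ hn, one_mul]

private theorem el_one' (σ : ℕ → Option ℕ) (n : ℕ) (c : Zm (dd n)) : el σ n c 1 = 1 := by
  have h := el_mul σ n c 1 1
  rw [one_mul] at h
  exact left_eq_mul.1 h

/-- the conjugates of the isolated elements -/
theorem el_conj (σ : ℕ → Option ℕ) (n : ℕ) (c : Zm (dd n)) (g : Q (σ n)) (x : Gr σ) :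
    x * el σ n c g * x⁻¹ = el σ n ((toR σ n x).pos * c)
      ((toR σ n x).lamp ((toR σ n x).pos * c) * g *
        ((toR σ n x).lamp ((toR σ n x).pos * c))⁻¹) := by
  refine gr_ext ?_ fun n' => ?_
  · rw [map_mul, map_mul, map_inv, el_toB, el_toB, mul_one, mul_inv_cancel]
  · rw [map_mul, map_mul, map_inv]
    by_cases hn : n' = n
    · subst hn
      rw [el_toR, el_toR, conj_lampEmb]
    · rw [el_toR_ne σ hn, el_toR_ne σ hn, mul_one, mul_inv_cancel]

private theorem el_comm' (σ : ℕ → Option ℕ) {n n' : ℕ} (c : Zm (dd n)) (c' : Zm (dd n'))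
    (h : (⟨n, c⟩ : Σ n : ℕ, Zm (dd n)) ≠ ⟨n', c'⟩) (g : Q (σ n)) (g' : Q (σ n')) :
    el σ n c g * el σ n' c' g' = el σ n' c' g' * el σ n c g := by
  refine gr_ext ?_ fun m => ?_
  · rw [map_mul, map_mul, el_toB, el_toB]
  · rw [map_mul, map_mul]
    by_cases h1 : m = n
    · subst h1
      by_cases h2 : m = n'
      · subst h2
        have hc : c ≠ c' := fun hc => h (by rw [hc])
        rw [el_toR, el_toR, lampEmb_comm hc]
      · rw [el_toR_ne σ h2, mul_one, one_mul]
    · rw [el_toR_ne σ h1, mul_one, one_mul]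

private theorem sig_gen {G ι : Type*} [Group G] (I : Finset ι) (x : ι → Fin 4 → G)
    (h3 : ∀ p i, x p i ^ 3 = 1)
    (hc : ∀ p q, p ≠ q → ∀ i j, x p i * x q j = x q j * x p i) :
    ∃ A : Finset G, PB 6 A ∧ ∀ a, a ∈ A ↔ ∃ p ∈ I, ∃ i, a = x p i := by
  classical
  refine ⟨_, PB_biUnion (by norm_num) I (fun p => Finset.univ.image (x p))
    (fun p _ => PB_three (x p) (h3 p)) ?_, fun a => ?_⟩
  · intro p _ q _ hne a ha b hb
    obtain ⟨i, -, rfl⟩ := Finset.mem_image.1 ha
    obtain ⟨j, -, rfl⟩ := Finset.mem_image.1 hb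
    exact hc p q hne i j
  · rw [Finset.mem_biUnion]
    constructor
    · rintro ⟨p, hp, ha⟩
      obtain ⟨i, -, hi⟩ := Finset.mem_image.1 ha
      exact ⟨p, hp, i, hi.symm⟩
    · rintro ⟨p, hp, i, rfl⟩
      exact ⟨p, hp, Finset.mem_image.2 ⟨i, Finset.mem_univ _, rfl⟩⟩

theorem sig_exists (σ : ℕ → Option ℕ) (Y : Finset ℕ) : ∃ A : Finset (Gr σ), PB 6 A ∧
    ∀ a, a ∈ A ↔ ∃ n ∈ Y, ∃ (c : Zm (dd n)) (i : Fin 4), a = el σ n c (alpha (σ n) i) := by
  have hF : ∀ n, Finite (Zm (dd n)) := by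
    intro n
    have h0 : 8 * dd n ≠ 0 := by
      unfold dd
      positivity
    have : NeZero (8 * dd n) := ⟨h0⟩
    exact Finite.of_equiv (ZMod (8 * dd n)) Multiplicative.ofAdd
  have hF' : ∀ n, Fintype (Zm (dd n)) := fun n => Fintype.ofFinite _
  obtain ⟨A, hA, hA'⟩ := sig_gen (Y.sigma fun n => (Finset.univ : Finset (Zm (dd n))))
    (fun p i => el σ p.1 p.2 (alpha (σ p.1) i)) (fun p i => by
      have h1 : el σ p.1 p.2 (alpha (σ p.1) i ^ 3) = el σ p.1 p.2 (alpha (σ p.1) i) ^ 3 := by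
        rw [pow_succ, pow_succ, pow_one, el_mul, el_mul, pow_succ, pow_succ, pow_one]
      rw [← h1, alpha_pow, el_one'])
    (fun p q hne i j => el_comm' σ p.2 q.2 hne _ _)
  refine ⟨A, hA, fun a => (hA' a).trans ?_⟩
  constructor
  · rintro ⟨⟨n, c⟩, hp, i, hi⟩
    exact ⟨n, (Finset.mem_sigma.1 hp).1, c, i, hi⟩
  · rintro ⟨n, hn, c, i, rfl⟩
    exact ⟨⟨n, c⟩, Finset.mem_sigma.2 ⟨hn, Finset.mem_univ _⟩, i, rfl⟩

private theorem el_closure (σ : ℕ → Option ℕ) {Y : Finset ℕ} {n : ℕ} (hn : n ∈ Y)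
    (c : Zm (dd n)) (g : Q (σ n)) : el σ n c g ∈
      Subgroup.closure {a : Gr σ | ∃ n ∈ Y, ∃ (c : Zm (dd n)) (i : Fin 4),
        a = el σ n c (alpha (σ n) i)} := by
  let φ : Q (σ n) →* Gr σ := MonoidHom.mk' (el σ n c) (el_mul σ n c)
  have h1 : g ∈ Subgroup.closure (Set.range (alpha (σ n))) := by
    rw [alpha_gen]
    exact Subgroup.mem_top g
  have h2 : φ g ∈ (Subgroup.closure (Set.range (alpha (σ n)))).map φ := ⟨g, h1, rfl⟩
  rw [MonoidHom.map_closure] at h2
  refine Subgroup.closure_mono ?_ h2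
  rintro _ ⟨_, ⟨i, rfl⟩, rfl⟩
  exact ⟨n, hn, c, i, rfl⟩

private theorem many (σ : ℕ → Option ℕ) (Y : Finset ℕ) (c : ∀ n, Zm (dd n))
    (g : ∀ n, Q (σ n)) : ∃ k : F, base k = 1 ∧ (∀ n, n ∉ Y → bl σ n k = 1) ∧
      (∀ n ∈ Y, bl σ n k = Wreath.lampEmb (c n) (g n)) ∧
      (QuotientGroup.mk k : Gr σ) ∈
        Subgroup.closure {a : Gr σ | ∃ n ∈ Y, ∃ (c : Zm (dd n)) (i : Fin 4),
          a = el σ n c (alpha (σ n) i)} := by
  classical
  induction Y using Finset.induction_on with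
  | empty =>
    refine ⟨1, map_one _, fun n _ => map_one _, fun n hn => absurd hn (Finset.notMem_empty n), ?_⟩
    exact Subgroup.one_mem _
  | insert n Y hn ih =>
    obtain ⟨k, k1, k2, k3, k4⟩ := ih
    obtain ⟨w, w1, w2, w3⟩ := indep σ n (c n) (g n)
    have hw : (QuotientGroup.mk w : Gr σ) = el σ n (c n) (g n) := el_eq w1 w2 w3
    refine ⟨w * k, ?_, fun m hm => ?_, fun m hm => ?_, ?_⟩
    · rw [map_mul, w1, k1, one_mul]
    · rw [Finset.mem_insert, not_or] at hm
      rw [map_mul, w2 m hm.1, k2 m hm.2, one_mul]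
    · rw [map_mul]
      by_cases hmn : m = n
      · subst hmn
        rw [w3, k2 m hn, mul_one]
      · rw [w2 m hmn, k3 m (Finset.mem_of_mem_insert_of_ne hm hmn), one_mul]
    · have e : (QuotientGroup.mk (w * k) : Gr σ) = QuotientGroup.mk w * QuotientGroup.mk k := rfl
      rw [e, hw]
      refine Subgroup.mul_mem _ (el_closure σ (Finset.mem_insert_self n Y) _ _) ?_
      refine Subgroup.closure_mono ?_ k4
      rintro a ⟨m, hm, c, i, rfl⟩
      exact ⟨m, Finset.mem_insert_of_mem hm, c, i, rfl⟩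

private theorem gen_mod (σ : ℕ → Option ℕ) (Y : Finset ℕ) (x : Option (Fin 7)) :
    ∃ k : F, base k = 1 ∧ (∀ n, n ∉ Y → bl σ n k = 1) ∧
      (∀ n ∈ Y, bl σ n (k * FreeGroup.of x) =
        Wreath.posEmb (bl σ n (FreeGroup.of x)).pos) ∧
      (QuotientGroup.mk k : Gr σ) ∈
        Subgroup.closure {a : Gr σ | ∃ n ∈ Y, ∃ (c : Zm (dd n)) (i : Fin 4),
          a = el σ n c (alpha (σ n) i)} := by
  rcases x with _ | i
  · obtain ⟨k, k1, k2, k3, k4⟩ := many σ Y (fun n => site (dd n) 0)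
      (fun n => (lam (σ n) zw ^ n)⁻¹)
    refine ⟨k, k1, k2, fun n hn => ?_, k4⟩
    have h1 : bl σ n (FreeGroup.of none) =
        Wreath.lampEmb (site (dd n) 0) (lam (σ n) zw ^ n) * Wreath.posEmb (site (dd n) 1) :=
      blk_tt (dd n) n (σ n)
    rw [map_mul, k3 n hn, h1, ← mul_assoc, ← map_mul, inv_mul_cancel, map_one, one_mul]
    rw [Wreath.mul_pos, Wreath.lampEmb_pos, one_mul, Wreath.posEmb_pos]
  · by_cases hi : (i : ℕ) < 4
    · obtain ⟨k, k1, k2, k3, k4⟩ := many σ Y (fun n => site (dd n) (((i : ℕ) + 1) * dd n))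
        (fun n => (alpha (σ n) ⟨i, hi⟩)⁻¹)
      refine ⟨k, k1, k2, fun n hn => ?_, k4⟩
      have h1 : bl σ n (FreeGroup.of (some i)) =
          Wreath.lampEmb (site (dd n) (((i : ℕ) + 1) * dd n)) (alpha (σ n) ⟨i, hi⟩) :=
        blk_aw (dd n) n (σ n) ⟨i, hi⟩
      rw [map_mul, k3 n hn, h1, ← map_mul, inv_mul_cancel, map_one, Wreath.lampEmb_pos, map_one]
    · refine ⟨1, map_one _, fun n _ => map_one _, fun n _ => ?_, Subgroup.one_mem _⟩
      have h1 : bl σ n (FreeGroup.of (some i)) = 1 :=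
        blk_aw_ge (dd n) n (σ n) (not_lt.1 hi)
      rw [one_mul, h1, Wreath.one_pos, map_one]

theorem mod_exists (σ : ℕ → Option ℕ) (Y : Finset ℕ) : ∃ f : F →* F,
    (∀ w, base (f w) = base w) ∧ (∀ n, n ∉ Y → ∀ w, bl σ n (f w) = bl σ n w) ∧
    (∀ n ∈ Y, ∀ w, bl σ n (f w) = Wreath.posEmb (bl σ n w).pos) ∧
    ∀ g, (QuotientGroup.mk (f (FreeGroup.of g) * (FreeGroup.of g)⁻¹) : Gr σ) ∈
      Subgroup.closure {a : Gr σ | ∃ n ∈ Y, ∃ (c : Zm (dd n)) (i : Fin 4),
        a = el σ n c (alpha (σ n) i)} := by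
  choose k k1 k2 k3 k4 using gen_mod σ Y
  let f : F →* F := FreeGroup.lift fun x => k x * FreeGroup.of x
  have hf : ∀ x, f (FreeGroup.of x) = k x * FreeGroup.of x := fun x =>
    FreeGroup.lift_apply_of
  refine ⟨f, ?_, fun n hn => ?_, fun n hn => ?_, fun x => ?_⟩
  · have h : base.comp f = base := by
      refine FreeGroup.ext_hom _ _ fun x => ?_
      rw [MonoidHom.comp_apply, hf, map_mul, k1, one_mul]
    exact fun w => DFunLike.congr_fun h w
  · have h : (bl σ n).comp f = bl σ n := by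
      refine FreeGroup.ext_hom _ _ fun x => ?_
      rw [MonoidHom.comp_apply, hf, map_mul, k2 x n hn, one_mul]
    exact fun w => DFunLike.congr_fun h w
  · have h : (bl σ n).comp f = (Wreath.posEmb.comp Wreath.posHom).comp (bl σ n) := by
      refine FreeGroup.ext_hom _ _ fun x => ?_
      rw [MonoidHom.comp_apply, hf, k3 x n hn]
      rfl
    exact fun w => DFunLike.congr_fun h w
  · rw [hf, mul_inv_cancel_right]
    exact k4 x

end Pool.Agent.MinSig
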