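import Pool.Agent.MinSig.Defs
import Pool.Agent.MinGrowth.Limit

/-!
# MinSig TgC: insertions in words over a generating set

PROOF.  `ins_ball` by the claim: for all `M` and all `i ≤ w.length` with `τ j ≤ i` for all `j < M`:
`opr f E M * (w.take i).prod ∈ wordBall T (i + (E.filter (· < M)).card * ℓ)`, where
`f j = (w.take (τ j)).prod * κ j * ((w.take (τ j)).prod)⁻¹`.
Induction on `M`.  `M = 0`: `(w.take i).prod` is a product of at most `i` letters.
`M + 1`: if `M ∉ E` then `opr f E (M + 1) = opr f E M` and the filters are equal.  If `M ∈ E`: let
`P = (w.take (τ M)).prod`, `(w.take i).prod = P * R`, `R = ((w.take i).drop (τ M)).prod`, a product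
of at most `i - τ M` letters.  Then
`opr f E (M + 1) * (w.take i).prod = (opr f E M * P) * κ M * R`; the first factor is in
`wordBall T (τ M + c ℓ)`, `c = (E.filter (· < M)).card`, by the induction hypothesis for `τ M`
(`τ` is monotone), `κ M ∈ wordBall T ℓ`, and products of elements of balls are in the ball of the
sum of the radii (private lemma: append the lists).  `(E.filter (· < M + 1)).card = c + 1`.
For `i = w.length`: `List.take_length`.
`opr_conj_hom`: for the second theorem use `opr_map`-like induction on `M`.
-/

set_option autoImplicit false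

namespace Pool.Agent.MinSig

open Pool.Agent.MinGrowth

theorem ball_mul {G : Type*} [Group G] {T : Set G} {a b : ℕ} {g h : G} (hg : g ∈ wordBall T a)
    (hh : h ∈ wordBall T b) : g * h ∈ wordBall T (a + b) := by
  obtain ⟨l, hl, hS, rfl⟩ := hg
  obtain ⟨l', hl', hS', rfl⟩ := hh
  refine ⟨l ++ l', ?_, ?_, List.prod_append⟩
  · rw [List.length_append]
    omega
  · intro s hs
    rcases List.mem_append.1 hs with h | h
    · exact hS s h
    · exact hS' s h

theorem ins_ball {G : Type*} [Group G] {T : Set G} {w : List G} (hw : ∀ s ∈ w, s ∈ T ∨ s⁻¹ ∈ T)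
    {τ : ℕ → ℕ} (hτ : Monotone τ) (hτ' : ∀ j, τ j ≤ w.length) {κ : ℕ → G} {ℓ : ℕ}
    (hκ : ∀ j, κ j ∈ wordBall T ℓ) (E : Finset ℕ) (M : ℕ) (hE : E ⊆ Finset.range M) :
    opr (fun j => (w.take (τ j)).prod * κ j * ((w.take (τ j)).prod)⁻¹) E M * w.prod ∈
      wordBall T (w.length + E.card * ℓ) := by
  classical
  set f : ℕ → G := fun j => (w.take (τ j)).prod * κ j * ((w.take (τ j)).prod)⁻¹ with hf
  have claim : ∀ M i, i ≤ w.length → (∀ j, j < M → τ j ≤ i) →
      opr f E M * (w.take i).prod ∈ wordBall T (i + (E.filter (· < M)).card * ℓ) := by
    intro M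
    induction M with
    | zero =>
      intro i hi _
      refine ⟨w.take i, ?_, fun s hs => hw s (List.mem_of_mem_take hs), ?_⟩
      · rw [List.length_take]
        omega
      · simp [opr]
    | succ M ih =>
      intro i hi hτi
      by_cases hM : M ∈ E
      · have e1 : opr f E (M + 1) = opr f E M * f M := by
          simp [opr, hM]
        have hMi : τ M ≤ i := hτi M (Nat.lt_succ_self M)
        have e2 : (w.take i).prod = (w.take (τ M)).prod * ((w.take i).drop (τ M)).prod := by
          have h := List.take_append_drop (τ M) (w.take i)
          rw [List.take_take, min_eq_left hMi] at h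
          conv_lhs => rw [← h]
          rw [List.prod_append]
        have e3 : opr f E (M + 1) * (w.take i).prod =
            opr f E M * (w.take (τ M)).prod * κ M * ((w.take i).drop (τ M)).prod := by
          rw [e1, e2, hf]
          group
        have h4 : opr f E M * (w.take (τ M)).prod ∈
            wordBall T (τ M + (E.filter (· < M)).card * ℓ) :=
          ih (τ M) (hτ' M) fun j hj => hτ hj.le
        have h5 : ((w.take i).drop (τ M)).prod ∈ wordBall T (i - τ M) := by
          refine ⟨(w.take i).drop (τ M), ?_, fun s hs => hw s
            (List.mem_of_mem_take (List.mem_of_mem_drop hs)), rfl⟩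
          rw [List.length_drop, List.length_take]
          omega
        have h6 := ball_mul (ball_mul h4 (hκ M)) h5
        have e7 : (E.filter (· < M + 1)).card = (E.filter (· < M)).card + 1 := by
          have : E.filter (· < M + 1) = insert M (E.filter (· < M)) := by
            ext j
            simp only [Finset.mem_filter, Finset.mem_insert]
            constructor
            · rintro ⟨h, h'⟩
              rcases Nat.lt_succ_iff_lt_or_eq.1 h' with h'' | h''
              · exact Or.inr ⟨h, h''⟩
              · exact Or.inl h''
            · rintro (h | ⟨h, h'⟩)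
              · exact ⟨h ▸ hM, h ▸ Nat.lt_succ_self M⟩
              · exact ⟨h, Nat.lt_succ_of_lt h'⟩
          rw [this, Finset.card_insert_of_notMem (by simp)]
        rw [e3]
        refine wordBall_mono T (le_of_eq ?_) h6
        rw [e7, add_mul, one_mul]
        omega
      · have e1 : opr f E (M + 1) = opr f E M := by
          simp [opr, hM]
        have e2 : E.filter (· < M + 1) = E.filter (· < M) := by
          ext j
          simp only [Finset.mem_filter]
          constructor
          · rintro ⟨h, h'⟩
            refine ⟨h, lt_of_le_of_ne (Nat.lt_succ_iff.1 h') ?_⟩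
            rintro rfl
            exact hM h
          · rintro ⟨h, h'⟩
            exact ⟨h, Nat.lt_succ_of_lt h'⟩
        rw [e1, e2]
        exact ih i hi fun j hj => hτi j (Nat.lt_succ_of_lt hj)
  have h := claim M w.length le_rfl fun j _ => hτ' j
  rw [List.take_length, Finset.filter_true_of_mem fun j hj => Finset.mem_range.1 (hE hj)] at h
  exact h

/-- every finite set lies in a ball, for a generating set -/
theorem fin_ball {G : Type*} [Group G] {T : Set G} (hT : Subgroup.closure T = ⊤) {U : Set G}
    (hU : U.Finite) : ∃ ℓ : ℕ, U ⊆ wordBall T ℓ := by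
  exact Wreath.exists_wordBall hT hU

end Pool.Agent.MinSig
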