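import Pool.Agent.MinSig.DefsB
import Pool.Agent.MinSig.SplA
import Pool.Agent.MinSig.QMem
import Pool.Agent.MinSig.TgC

/-!
# MinSig TgD: a word can be modified in exponentially many ways

PROOF.
`iso_elt`: for a `μ` with `σ n = μ` (then substitute `μ`) and `g : Q μ` the word of `indep` has the
value `lampEmb c g` in `Wreath (Q μ) (Zm (dd n))`; take `μ = none` and the class of the word
(`toB_mk`, `toN_mk`).
`enc`: let `F₀` be the finite set of all `((toN σ n hn s).lamp c)` with `s ∈ T` or `s⁻¹ ∈ T`,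
`c : Zm (dd n)` (a finite type by `dd_pos`), `U` from `mem_paths F₀`; for `c : Zm (dd n)` and
`u ∈ U` let `κ c u` be the element of `iso_elt`.  These are finitely many elements, so they are in
`wordBall T ℓ` for an `ℓ` (`fin_ball`).
Let `w`, `J`, `M` be given, `P i = (w.take i).prod`, `ρ i = Zc σ n hn (P i)`,
`p i = (toN σ n hn (P i)).pos`.  `ρ 0 = 1`; for `i < J`: `P (i + 1) = P i * s` with the letter `s`
number `i`, so `ρ (i + 1) = ρ i * (toN σ n hn s).lamp ((p i)⁻¹ * 1)` and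
`(ρ i)⁻¹ * ρ (i + 1) ∈ F₀`.  Let `τ`, `u` be as in `mem_paths`, `κ j = κ (p (τ j))⁻¹ (u j)` and
`X E = opr (fun j => P (τ j) * κ j * (P (τ j))⁻¹) E M * w.prod`.
(1) `X E ∈ wordBall T (w.length + E.card * ℓ)` by `ins_ball` (`τ j ≤ J ≤ w.length`).
(2) `toB σ univ (X E) = toB σ univ w.prod`: `toB` of every factor of `opr` is `1` (`opr_map`, and
`opr` of a function which is constantly `1` is `1`).
(3) `toN σ n hn (P (τ j) * κ j * (P (τ j))⁻¹) = lampEmb 1 (ρ (τ j) * u j * (ρ (τ j))⁻¹)` by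
`conj_lampEmb` (`p * p⁻¹ = 1`).  So with `opr_map` (for `toN` and for `lampEmb 1`)
`toN σ n hn (X E) = lampEmb 1 (opr (fun j => ρ (τ j) * u j * (ρ (τ j))⁻¹) E M) * toN σ n hn w.prod`
and the lamp at `1` is `opr (..) E M * (toN σ n hn w.prod).lamp 1`.
(4) `opr f E M = opr f E M'` if `E ⊆ range M` and `M ≤ M'` (induction on `M'`), so for
`M' = (wd (ρ J)).length` the injectivity of `mem_paths` gives: `X E = X E'` implies `E = E'` for
`E, E' ⊆ range M ⊆ range M'`.
-/

set_option autoImplicit false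

namespace Pool.Agent.MinSig

open Pool.Agent.MinGrowth

private theorem iso_gen {σ : ℕ → Option ℕ} {n : ℕ} {μ : Option ℕ} (hn : σ n = μ)
    (c : Zm (dd n)) (g : Q μ) :
    ∃ w : F, base w = 1 ∧ blk (dd n) n μ w = Wreath.lampEmb c g := by
  subst hn
  obtain ⟨w, h1, -, h3⟩ := indep σ n c g
  exact ⟨w, h1, h3⟩

theorem iso_elt {σ : ℕ → Option ℕ} {n : ℕ} (hn : σ n = none) (c : Zm (dd n)) (g : Q none) :
    ∃ κ : Gr σ, toB σ Set.univ κ = 1 ∧ toN σ n hn κ = Wreath.lampEmb c g := by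
  obtain ⟨w, h1, h2⟩ := iso_gen hn c g
  exact ⟨QuotientGroup.mk w, h1, h2⟩

private theorem opr_ones {G : Type*} [Group G] (E : Finset ℕ) (M : ℕ) :
    opr (fun _ => (1 : G)) E M = 1 := by
  induction M with
  | zero => rfl
  | succ M ih =>
    change (opr (fun _ => (1 : G)) E M * if M ∈ E then 1 else 1) = 1
    rw [ih, ite_self, one_mul]

private theorem opr_ext {G : Type*} [Group G] (f : ℕ → G) {E : Finset ℕ} {M M' : ℕ}
    (hE : E ⊆ Finset.range M) (h : M ≤ M') : opr f E M' = opr f E M := by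
  induction M', h using Nat.le_induction with
  | base => rfl
  | succ M' h ih =>
    have h1 : M' ∉ E := fun h2 => by
      have h3 := Finset.mem_range.1 (hE h2)
      omega
    change (opr f E M' * if M' ∈ E then f M' else 1) = opr f E M
    rw [if_neg h1, mul_one, ih]

private theorem zm_finite (n : ℕ) : Finite (Zm (dd n)) := by
  have h0 : 8 * dd n ≠ 0 := by
    unfold dd
    positivity
  have : NeZero (8 * dd n) := ⟨h0⟩
  exact Finite.of_equiv (ZMod (8 * dd n)) Multiplicative.ofAdd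

theorem enc {σ : ℕ → Option ℕ} {n : ℕ} (hn : σ n = none) {T : Finset (Gr σ)}
    (hT : Subgroup.closure (T : Set (Gr σ)) = ⊤) : ∃ ℓ : ℕ, ∀ w : List (Gr σ),
      (∀ s ∈ w, s ∈ T ∨ s⁻¹ ∈ T) → ∀ J ≤ w.length,
      ∀ M ≤ (wd (Zc σ n hn (w.take J).prod)).length, ∃ X : Finset ℕ → Gr σ,
        (∀ E ⊆ Finset.range M, X E ∈ wordBall (T : Set (Gr σ)) (w.length + E.card * ℓ) ∧
          toB σ Set.univ (X E) = toB σ Set.univ w.prod) ∧
        Set.InjOn X {E | E ⊆ Finset.range M} := by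
  classical
  have hfin := zm_finite n
  set ψ := toN σ n hn with hψ
  have hS : {s : Gr σ | s ∈ T ∨ s⁻¹ ∈ T}.Finite := by
    have h1 : {s : Gr σ | s ∈ T ∨ s⁻¹ ∈ T} ⊆ (T : Set (Gr σ)) ∪ (T : Set (Gr σ))⁻¹ := by
      rintro s (h | h)
      · exact Or.inl h
      · exact Or.inr h
    exact (T.finite_toSet.union T.finite_toSet.inv).subset h1
  have hF₀ : ((fun p : Gr σ × Zm (dd n) => (ψ p.1).lamp p.2) ''
      ({s : Gr σ | s ∈ T ∨ s⁻¹ ∈ T} ×ˢ Set.univ)).Finite :=
    (hS.prod Set.finite_univ).image _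
  obtain ⟨U, hU⟩ := mem_paths hF₀.toFinset
  have hex : ∀ p : Zm (dd n) × Q none, ∃ κ : Gr σ, toB σ Set.univ κ = 1 ∧
      ψ κ = Wreath.lampEmb p.1 p.2 := fun p => iso_elt hn p.1 p.2
  choose κ hκ1 hκ2 using hex
  have hK : (κ '' (Set.univ ×ˢ (U : Set (Q none)))).Finite :=
    (Set.finite_univ.prod U.finite_toSet).image _
  obtain ⟨ℓ, hℓ⟩ := fin_ball hT hK
  refine ⟨ℓ, fun w hw J hJ M hM => ?_⟩
  have h0 : (fun i => Zc σ n hn (w.take i).prod) 0 = 1 := by
    change Zc σ n hn (w.take 0).prod = 1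
    rw [List.take_zero, List.prod_nil, Zc, map_one]
    rfl
  have hstep : ∀ i < J, ((fun i => Zc σ n hn (w.take i).prod) i)⁻¹ *
      (fun i => Zc σ n hn (w.take i).prod) (i + 1) ∈ hF₀.toFinset := by
    intro i hi
    have hi' : i < w.length := by omega
    have h2 : (w.take (i + 1)).prod = (w.take i).prod * w[i] := by
      rw [List.take_succ_eq_append_getElem hi', List.prod_append, List.prod_singleton]
    have h3 : Zc σ n hn (w.take (i + 1)).prod = Zc σ n hn (w.take i).prod *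
        (ψ w[i]).lamp ((ψ (w.take i).prod).pos⁻¹ * 1) := by
      rw [h2, Zc, map_mul, Wreath.mul_lamp]
      rfl
    change (Zc σ n hn (w.take i).prod)⁻¹ * Zc σ n hn (w.take (i + 1)).prod ∈ hF₀.toFinset
    rw [h3, inv_mul_cancel_left, Set.Finite.mem_toFinset]
    exact ⟨(w[i], (ψ (w.take i).prod).pos⁻¹ * 1),
      ⟨hw _ (List.getElem_mem _), Set.mem_univ _⟩, rfl⟩
  obtain ⟨τ, u, hτ, hτJ, huU, hinj⟩ := hU (fun i => Zc σ n hn (w.take i).prod) J h0 hstep
  have hκ' : ∀ j, κ ((ψ (w.take (τ j)).prod).pos⁻¹, u j) ∈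
      wordBall (T : Set (Gr σ)) ℓ := fun j =>
    hℓ ⟨((ψ (w.take (τ j)).prod).pos⁻¹, u j), ⟨Set.mem_univ _, huU j⟩, rfl⟩
  refine ⟨fun E => opr (fun j => (w.take (τ j)).prod *
    κ ((ψ (w.take (τ j)).prod).pos⁻¹, u j) * ((w.take (τ j)).prod)⁻¹) E M * w.prod,
    fun E hE => ⟨?_, ?_⟩, ?_⟩
  · exact ins_ball hw hτ (fun j => (hτJ j).trans hJ)
      (κ := fun j => κ ((ψ (w.take (τ j)).prod).pos⁻¹, u j)) hκ' E M hE
  · rw [map_mul, opr_map]
    have h1 : (fun j => toB σ Set.univ ((w.take (τ j)).prod *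
        κ ((ψ (w.take (τ j)).prod).pos⁻¹, u j) * ((w.take (τ j)).prod)⁻¹)) = fun _ => 1 := by
      funext j
      rw [map_mul, map_mul, hκ1, mul_one, map_inv, mul_inv_cancel]
    rw [h1, opr_ones, one_mul]
  · have hval : ∀ j, ψ ((w.take (τ j)).prod *
        κ ((ψ (w.take (τ j)).prod).pos⁻¹, u j) * ((w.take (τ j)).prod)⁻¹) =
        Wreath.lampEmb 1 (Zc σ n hn (w.take (τ j)).prod * u j *
          (Zc σ n hn (w.take (τ j)).prod)⁻¹) := by
      intro j
      rw [map_mul, map_mul, map_inv, hκ2, conj_lampEmb, mul_inv_cancel]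
      rfl
    have hX : ∀ E : Finset ℕ, (ψ (opr (fun j => (w.take (τ j)).prod *
        κ ((ψ (w.take (τ j)).prod).pos⁻¹, u j) * ((w.take (τ j)).prod)⁻¹) E M * w.prod)).lamp 1 =
        opr (fun j => Zc σ n hn (w.take (τ j)).prod * u j *
          (Zc σ n hn (w.take (τ j)).prod)⁻¹) E M * (ψ w.prod).lamp 1 := by
      intro E
      rw [map_mul, opr_map]
      have h1 : (fun j => ψ ((w.take (τ j)).prod *
          κ ((ψ (w.take (τ j)).prod).pos⁻¹, u j) * ((w.take (τ j)).prod)⁻¹)) =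
          fun j => Wreath.lampEmb 1 (Zc σ n hn (w.take (τ j)).prod * u j *
            (Zc σ n hn (w.take (τ j)).prod)⁻¹) := funext hval
      rw [h1, ← opr_map (Wreath.lampEmb (1 : Zm (dd n))), Wreath.mul_lamp,
        Wreath.lampEmb_lamp_same, Wreath.lampEmb_pos, inv_one, one_mul]
    intro E hE E' hE' hEE
    have h2 : (ψ (opr (fun j => (w.take (τ j)).prod *
        κ ((ψ (w.take (τ j)).prod).pos⁻¹, u j) * ((w.take (τ j)).prod)⁻¹) E M * w.prod)).lamp 1 =
        (ψ (opr (fun j => (w.take (τ j)).prod *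
        κ ((ψ (w.take (τ j)).prod).pos⁻¹, u j) * ((w.take (τ j)).prod)⁻¹) E' M *
          w.prod)).lamp 1 := by
      have h3 := congrArg (fun g => (ψ g).lamp 1) hEE
      exact h3
    rw [hX E, hX E'] at h2
    have h4 := mul_right_cancel h2
    rw [← opr_ext _ hE hM, ← opr_ext _ hE' hM] at h4
    have hsub : Finset.range M ⊆ Finset.range
        (wd ((fun i => Zc σ n hn (w.take i).prod) J)).length :=
      Finset.range_subset_range.2 hM
    exact hinj (Finset.Subset.trans hE hsub) (Finset.Subset.trans hE' hsub) h4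

end Pool.Agent.MinSig
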