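import Pool.Agent.MinSig.DefsB
import Pool.Agent.MinSig.Esc
import Pool.Agent.MinSig.QSeq

/-!
# MinSig TgF: high words have long coordinates

PROOF.  Every element of `T ∪ T⁻¹` is `mk (FreeGroup.mk l)` with `l.length ≤ C` for a number
`C ≥ 1` (`T` is finite; `FreeGroup.mk` is surjective, `FreeGroup.mk_toWord`).  So (induction on the
list) `(w.take J).prod = mk (FreeGroup.mk l)` with `l.length ≤ C * w.length ≤ C k`.
Let `n` be such that `σ n = none`, `n ≥ 8 a (16 C + 8) + 8` (`CaseA`), `D = dd n ≥ n + 1 ≥ 9`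
(`lt_dd`), `p = (D - 1) / 2`, so `2 p < D`, `0 < p` and `4 p ≥ D` (as `D ≥ 9`; `2 p ≥ D - 2`).
`Zc σ n hn (mk (FreeGroup.mk l)) = ctr D n none 0 l` (`blk_lamp` with `y = 0`, `site_zero`), and
`sh (toB ..) = hh l` (`base_pos`).  Let `ρ` be this coordinate.  By `escape` for `y = 0`, `g = 1`
(`phi_one`, `EE_zero`) and `EE_ge`:
`|phi ρ| ≥ n |EE D (hh l)| - 2 (l.length / p + 1) ≥ n (|hh l| / (8 D) - 1) - 2 (4 C k / D + 1)`
`≥ n k / (8 a D) - 8 C k / D - n - 2 ≥ k / D * (n / (8 a) - 8 C) - n - 2`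
`≥ k / D * (8 C + 8) - n - 2 ≥ 8 k / D - n - 2`
(real numbers; `|hh l| ≥ k / a`).  So for `k ≥ k₀ = D (n + 2)`: `|phi ρ| ≥ 8 k / D - k / D ≥ k / D`,
and `(wd ρ).length ≥ |phi ρ|` (`phi_le`), `k ≤ D * (wd ρ).length`: `b = D`.
-/

set_option autoImplicit false

namespace Pool.Agent.MinSig

open Pool.Agent.MinGrowth

/-- every element is represented by a word -/
private theorem exists_list {σ : ℕ → Option ℕ} (g : Gr σ) :
    ∃ l : List (Option (Fin 7) × Bool), g = (QuotientGroup.mk (FreeGroup.mk l : F) : Gr σ) := by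
  obtain ⟨w, hw⟩ := QuotientGroup.mk_surjective g
  refine ⟨w.toWord, ?_⟩
  rw [FreeGroup.mk_toWord, hw]

/-- bound for the lengths of the words of the generators -/
private theorem exists_bound {σ : ℕ → Option ℕ} (T : Finset (Gr σ)) :
    ∃ C : ℕ, ∀ s : Gr σ, (s ∈ T ∨ s⁻¹ ∈ T) → ∃ l : List (Option (Fin 7) × Bool),
      l.length ≤ C ∧ s = (QuotientGroup.mk (FreeGroup.mk l : F) : Gr σ) := by
  choose f hf using fun g : Gr σ => exists_list g
  refine ⟨∑ s ∈ T, ((f s).length + (f s⁻¹).length), fun s hs => ⟨f s, ?_, hf s⟩⟩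
  rcases hs with h | h
  · have h1 := Finset.single_le_sum
      (f := fun s : Gr σ => (f s).length + (f s⁻¹).length) (fun _ _ => Nat.zero_le _) h
    exact (Nat.le_add_right _ _).trans h1
  · have h1 := Finset.single_le_sum
      (f := fun s : Gr σ => (f s).length + (f s⁻¹).length) (fun _ _ => Nat.zero_le _) h
    have h2 : (f s).length ≤ (f s⁻¹).length + (f (s⁻¹)⁻¹).length := by
      rw [inv_inv]
      exact Nat.le_add_left _ _
    exact h2.trans h1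

/-- the words of the products -/
private theorem prod_list {σ : ℕ → Option ℕ} {T : Finset (Gr σ)} {C : ℕ}
    (hC : ∀ s : Gr σ, (s ∈ T ∨ s⁻¹ ∈ T) → ∃ l : List (Option (Fin 7) × Bool),
      l.length ≤ C ∧ s = (QuotientGroup.mk (FreeGroup.mk l : F) : Gr σ)) :
    ∀ w : List (Gr σ), (∀ s ∈ w, s ∈ T ∨ s⁻¹ ∈ T) → ∃ l : List (Option (Fin 7) × Bool),
      l.length ≤ C * w.length ∧ w.prod = (QuotientGroup.mk (FreeGroup.mk l : F) : Gr σ) := by
  intro w
  induction w with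
  | nil =>
    intro _
    refine ⟨[], Nat.zero_le _, ?_⟩
    rw [List.prod_nil, ← FreeGroup.one_eq_mk]
    rfl
  | cons s w ih =>
    intro hw
    obtain ⟨l, hl, hl2⟩ := hC s (hw s List.mem_cons_self)
    obtain ⟨l', hl', hl2'⟩ := ih fun x hx => hw x (List.mem_cons_of_mem _ hx)
    refine ⟨l ++ l', ?_, ?_⟩
    · rw [List.length_append, List.length_cons, Nat.mul_succ]
      omega
    · rw [List.prod_cons, hl2, hl2', ← FreeGroup.mul_mk]
      rfl

/-- the estimate -/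
private theorem est {a C n D p k len : ℕ} {h E f q : ℤ} (ha : 0 < a)
    (hn : 8 * a * (16 * C + 8) + 8 ≤ n) (hD : D ≤ 4 * p) (hlen : len ≤ C * k)
    (hk : D * (n + 2) ≤ k) (h1 : (k : ℤ) ≤ a * h) (h2 : h ≤ 8 * D * (E + 1))
    (h3 : (n : ℤ) * E - 2 * (q + 1) ≤ f) (h4 : (p : ℤ) * q ≤ len) (h5 : 0 ≤ q) :
    (k : ℤ) ≤ D * f := by
  have ha' : (0 : ℤ) < a := by exact_mod_cast ha
  have hn' : (8 : ℤ) * a * (16 * C + 8) + 8 ≤ n := by exact_mod_cast hn
  have hD' : (D : ℤ) ≤ 4 * p := by exact_mod_cast hD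
  have hlen' : (len : ℤ) ≤ C * k := by exact_mod_cast hlen
  have hk' : (D : ℤ) * (n + 2) ≤ k := by exact_mod_cast hk
  have hk0 : (0 : ℤ) ≤ k := Int.natCast_nonneg _
  have hC0 : (0 : ℤ) ≤ C := Int.natCast_nonneg _
  have hD0 : (0 : ℤ) ≤ D := Int.natCast_nonneg _
  have hn0 : (0 : ℤ) ≤ n := Int.natCast_nonneg _
  have e1 : (D : ℤ) * q ≤ 4 * (C * k) := by
    have e2 : (D : ℤ) * q ≤ 4 * p * q := mul_le_mul_of_nonneg_right hD' h5
    linarith
  have e3 : (D : ℤ) * (n * E - 2 * (q + 1)) ≤ D * f := mul_le_mul_of_nonneg_left h3 hD0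
  have e4 : (a : ℤ) * h ≤ a * (8 * D * (E + 1)) := mul_le_mul_of_nonneg_left h2 ha'.le
  have e5 : (n : ℤ) * k ≤ n * (a * (8 * D * (E + 1))) :=
    mul_le_mul_of_nonneg_left (h1.trans e4) hn0
  have e6 : (8 * (a : ℤ) * (16 * C + 8) + 8) * k ≤ n * k := mul_le_mul_of_nonneg_right hn' hk0
  have e7 : (a : ℤ) * (D * (n + 2)) ≤ a * k := mul_le_mul_of_nonneg_left hk' ha'.le
  have e8 : (a : ℤ) * (D * (n * E - 2 * (q + 1))) ≤ a * (D * f) :=
    mul_le_mul_of_nonneg_left e3 ha'.le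
  have e9 : (a : ℤ) * (D * q) ≤ a * (4 * (C * k)) := mul_le_mul_of_nonneg_left e1 ha'.le
  have e10 : (0 : ℤ) ≤ a * k := mul_nonneg ha'.le hk0
  have e11 : (0 : ℤ) ≤ a * (C * k) := mul_nonneg ha'.le (mul_nonneg hC0 hk0)
  have e12 : (a : ℤ) * k ≤ a * (D * f) := by
    ring_nf at e5 e6 e7 e8 e9 e10 e11 ⊢
    linarith
  exact le_of_mul_le_mul_left e12 ha'

theorem esc_word {σ : ℕ → Option ℕ} (hA : CaseA σ) (T : Finset (Gr σ)) {a : ℕ} (ha : 0 < a) :
    ∃ (n : ℕ) (hn : σ n = none) (b k₀ : ℕ), 0 < b ∧ ∀ k, k₀ ≤ k → ∀ w : List (Gr σ),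
      w.length ≤ k → (∀ s ∈ w, s ∈ T ∨ s⁻¹ ∈ T) → ∀ J ≤ w.length,
      (k : ℤ) ≤ a * |Lp.sh (toB σ Set.univ (w.take J).prod)| →
      k ≤ b * (wd (Zc σ n hn (w.take J).prod)).length := by
  obtain ⟨C, hC⟩ := exists_bound T
  obtain ⟨n, hn1, hn2⟩ := hA (8 * a * (16 * C + 8) + 8)
  refine ⟨n, hn2, dd n, dd n * (n + 2), dd_pos n, ?_⟩
  intro k hk w hwk hw J hJ hh1
  obtain ⟨l, hl1, hl2⟩ := prod_list hC (w.take J) fun s hs => hw s (List.mem_of_mem_take hs)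
  have hlen : l.length ≤ C * k := by
    refine hl1.trans (Nat.mul_le_mul_left C ?_)
    exact (List.length_take_le' J w).trans hwk
  have hsh : Lp.sh (toB σ Set.univ (w.take J).prod) = hh l := by
    rw [hl2, toB_mk]
    unfold Lp.sh
    rw [base_pos, toAdd_ofAdd]
  have hZ : Zc σ n hn2 (w.take J).prod = ctr (dd n) n none 0 l := by
    unfold Zc
    rw [hl2, toN_mk, ← blk_lamp (dd n) n none l 0, neg_zero, site_zero]
  rw [hsh] at hh1
  rw [hZ]
  have hD1 : n + 1 ≤ dd n := lt_dd n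
  obtain ⟨D, hD⟩ : ∃ D, D = dd n := ⟨_, rfl⟩
  rw [← hD] at hD1 hk ⊢
  have hp : 0 < (D - 1) / 2 := by omega
  have hpD : 2 * ((D - 1) / 2) < D := by omega
  have hp4 : D ≤ 4 * ((D - 1) / 2) := by omega
  have hesc := escape (e := n) hp hpD l 0 1
  rw [one_mul, phi_one, sub_zero, zero_add, EE_zero, sub_zero] at hesc
  obtain ⟨p, hpp⟩ : ∃ p, p = (D - 1) / 2 := ⟨_, rfl⟩
  rw [← hpp] at hp hpD hp4 hesc
  have hge := EE_ge (D := D) (by omega) (hh l)
  have hphi := phi_le (ctr D n none 0 l)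
  have h3 : (n : ℤ) * |EE D (hh l)| - 2 * (((l.length / p : ℕ) : ℤ) + 1) ≤
      |phi (ctr D n none 0 l)| := by
    have h5 : |(n : ℤ) * EE D (hh l)| - |phi (ctr D n none 0 l)| ≤
        |phi (ctr D n none 0 l) - (n : ℤ) * EE D (hh l)| := by
      rw [abs_sub_comm]
      exact abs_sub_abs_le_abs_sub _ _
    rw [abs_mul, Nat.abs_cast] at h5
    linarith
  have h4 : (p : ℤ) * ((l.length / p : ℕ) : ℤ) ≤ (l.length : ℤ) := by
    exact_mod_cast Nat.mul_div_le l.length p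
  have h6 := est ha hn1 hp4 hlen hk hh1 hge h3 h4 (Int.natCast_nonneg _)
  have h7 : (k : ℤ) ≤ D * ((wd (ctr D n none 0 l)).length : ℤ) :=
    h6.trans (mul_le_mul_of_nonneg_left hphi (Int.natCast_nonneg _))
  exact_mod_cast h7

end Pool.Agent.MinSig
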