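import Pool.Agent.MinSig.TgA
import Pool.Agent.MinSig.TgB
import Pool.Agent.MinSig.TgD
import Pool.Agent.MinSig.TgF
import Pool.Agent.MinSig.GrA

/-!
# MinSig TgE: infinitely many infinite blocks make all growth rates larger

PROOF.  `V_le`: `growthRate_image_le` for `toB σ univ`, `base_min` (the image generates:
`toB` is surjective because `base` is, `MonoidHom.map_closure`, `Finset.coe_image`).
`tight`: let `f = toB σ univ`, `v = growthRate (T.image f) ≥ growthRate (gens base) > 6 > 1`
(`base_min`, `six_lt`).  It is enough to show `v < growthRate T`.  Let `a`, `k₀` be as in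
`good_count f T`, `n`, `hn`, `b`, `k₁` as in `esc_word hA T ha`, `ℓ` as in `enc hn hT`.  Use
`growth_gt` with `b`, `ℓ`, `max k₀ k₁`: let `k ≥ k₀, k₁`, `M * b ≤ k`, `m` be given.  For every
element `β` of the set `Good` of `good_count` choose `w β`, `J β`; then
`M * b ≤ k ≤ b * (wd (Zc ..)).length` gives `M ≤ (wd (Zc ..)).length` and `enc` gives `X β`.  The
map `(β, E) ↦ X β E` is injective on `Good ×ˢ {E ⊆ range M, E.card = m}`: `toB (X β E) = β` and
`InjOn`.  Its values are in `wordBall T ((w β).length + m * ℓ) ⊆ wordBall T (k + m * ℓ)`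
(`wordBall_mono`).  So `Good.ncard * (M.choose m) ≤ growthFn T (k + m * ℓ)`
(`Set.ncard_le_ncard_of_injOn` or `Finset.card_le_card_of_injOn` for
`Good.toFinset ×ˢ Finset.powersetCard m (range M)`; `Good` is finite: it is contained in the image
under `f` of the ball of radius `k`, `wordBall_finite`; `Finset.card_powersetCard`).
-/

set_option autoImplicit false

namespace Pool.Agent.MinSig

open Pool.Agent.MinGrowth

theorem toB_surjective (σ : ℕ → Option ℕ) : Function.Surjective (toB σ Set.univ) := by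
  intro β
  obtain ⟨w, rfl⟩ := base_surjective β
  exact ⟨QuotientGroup.mk w, toB_mk σ Set.univ w⟩

open Classical in
private theorem image_gen {σ : ℕ → Option ℕ} {T : Finset (Gr σ)}
    (hT : Subgroup.closure (T : Set (Gr σ)) = ⊤) :
    Subgroup.closure ((T.image (toB σ Set.univ) : Finset (Lp 3 (Fin 7))) : Set (Lp 3 (Fin 7))) =
      ⊤ := by
  rw [Finset.coe_image, ← MonoidHom.map_closure, hT,
    Subgroup.map_top_of_surjective _ (toB_surjective σ)]

theorem V_le {σ : ℕ → Option ℕ} {T : Finset (Gr σ)}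
    (hT : Subgroup.closure (T : Set (Gr σ)) = ⊤) : growthRate (gens base) ≤ growthRate T := by
  classical
  exact (base_min (image_gen hT)).trans (growthRate_image_le (toB σ Set.univ) T)

theorem tight {σ : ℕ → Option ℕ} (hA : CaseA σ) {T : Finset (Gr σ)}
    (hT : Subgroup.closure (T : Set (Gr σ)) = ⊤) : growthRate (gens base) < growthRate T := by
  classical
  have hS := image_gen hT
  have hmin := base_min hS
  have hv := six_lt.trans_le hmin
  refine lt_of_le_of_lt hmin ?_
  obtain ⟨a, ha, k₀, hk₀⟩ := good_count (toB σ Set.univ) T (by linarith)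
  obtain ⟨n, hn, b, k₁, hb, hk₁⟩ := esc_word hA T ha
  obtain ⟨ℓ, hℓ⟩ := enc hn hT
  refine growth_gt (by linarith) hb ℓ (max k₀ k₁) ?_
  intro k hk m M hM
  have h1 := hk₀ k ((le_max_left _ _).trans hk)
  have h2 := hk₁ k ((le_max_right _ _).trans hk)
  set Good : Set (Lp 3 (Fin 7)) := {β | ∃ w : List (Gr σ), w.length ≤ k ∧
        (∀ s ∈ w, s ∈ T ∨ s⁻¹ ∈ T) ∧ toB σ Set.univ w.prod = β ∧
        ∃ J ≤ w.length, (k : ℤ) ≤ a * |Lp.sh (toB σ Set.univ (w.take J).prod)|} with hGood
  have hX : ∀ β ∈ Good, ∃ X : Finset ℕ → Gr σ,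
      (∀ E ⊆ Finset.range M, E.card = m → X E ∈ wordBall (T : Set (Gr σ)) (k + m * ℓ) ∧
        toB σ Set.univ (X E) = β) ∧ Set.InjOn X {E | E ⊆ Finset.range M} := by
    rintro β ⟨w, hwk, hwT, hwβ, J, hJ, hkJ⟩
    have h3 := h2 w hwk hwT J hJ hkJ
    have h4 : M ≤ (wd (Zc σ n hn (w.take J).prod)).length := by
      have h5 : M * b ≤ (wd (Zc σ n hn (w.take J).prod)).length * b :=
        hM.trans (h3.trans (le_of_eq (mul_comm _ _)))
      exact Nat.le_of_mul_le_mul_right h5 hb
    obtain ⟨X, hX1, hX2⟩ := hℓ w hwT J hJ M h4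
    refine ⟨X, fun E hE hc => ⟨wordBall_mono _ ?_ (hX1 E hE).1, (hX1 E hE).2.trans hwβ⟩, hX2⟩
    rw [hc]
    exact Nat.add_le_add_right hwk _
  choose X hXb hXi using hX
  have hfin : Good.Finite := by
    refine ((wordBall_finite T.finite_toSet k).image (toB σ Set.univ)).subset ?_
    rintro β ⟨w, hwk, hwT, hwβ, -⟩
    exact ⟨w.prod, ⟨w, hwk, hwT, rfl⟩, hwβ⟩
  have hball := wordBall_finite T.finite_toSet (k + m * ℓ)
  have hcard : Good.ncard * M.choose m ≤ growthFn T (k + m * ℓ) := by
    have e1 : Good.ncard = hfin.toFinset.card := Set.ncard_eq_toFinset_card _ hfin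
    have e2 : growthFn T (k + m * ℓ) = hball.toFinset.card :=
      Set.ncard_eq_toFinset_card _ hball
    have e3 : M.choose m = (Finset.powersetCard m (Finset.range M)).card := by
      rw [Finset.card_powersetCard, Finset.card_range]
    rw [e1, e2, e3, ← Finset.card_product]
    refine Finset.card_le_card_of_injOn
      (fun p : Lp 3 (Fin 7) × Finset ℕ => if h : p.1 ∈ Good then X p.1 h p.2 else 1) ?_ ?_
    · rintro ⟨β, E⟩ hp
      rw [Finset.mem_coe, Finset.mem_product, Finset.mem_powersetCard, Set.Finite.mem_toFinset]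
        at hp
      obtain ⟨hβ, hE, hc⟩ := hp
      simp only at hβ hE hc ⊢
      rw [dif_pos hβ, Set.Finite.coe_toFinset]
      exact (hXb β hβ E hE hc).1
    · rintro ⟨β, E⟩ hp ⟨β', E'⟩ hp' heq
      rw [Finset.mem_coe, Finset.mem_product, Finset.mem_powersetCard, Set.Finite.mem_toFinset]
        at hp hp'
      obtain ⟨hβ, hE, hc⟩ := hp
      obtain ⟨hβ', hE', hc'⟩ := hp'
      simp only at hβ hE hc hβ' hE' hc' heq
      rw [dif_pos hβ, dif_pos hβ'] at heq
      have h5 : β = β' := by
        rw [← (hXb β hβ E hE hc).2, ← (hXb β' hβ' E' hE' hc').2, heq]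
      subst h5
      rw [hXi β hβ hE hE' heq]
  have h6 : (Good.ncard : ℝ) * (M.choose m : ℝ) ≤ growthFn T (k + m * ℓ) := by
    exact_mod_cast hcard
  exact (mul_le_mul_of_nonneg_right h1 (Nat.cast_nonneg _)).trans h6

end Pool.Agent.MinSig
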