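import Pool.Agent.MinSig.Split
import Pool.Agent.MinSig.Short
import Pool.Agent.MinSig.TgE

/-!
# MinSig Low: the minimal growth rate

Let `V = growthRate (gens base)`.

PROOF of `low`: let `x > V` be given (`V > 6`, `six_lt`).  Choose `y` with `V < y < x` and `R ≥
1` with
`growthFn (gens base) R ≤ y ^ R` (`growthFn_eventually_le`).  Let `Y = range (4 R + 1)`, `T` from
`split σ Y`.  With `X = (Y : Set ℕ)ᶜ`, `X' = ∅`: for `n ∈ X` we have `4 R < 4 R + 1 ≤ n < dd n`
(`lt_dd`), so `short` gives
`growthFn (gens (mk' (K σ X))) R ≤ growthFn (gens base) R ≤ y ^ R`, and `growthRate_pow_le` gives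
`growthRate (gens (mk' ..)) ^ R ≤ y ^ R`, so `growthRate (gens (mk' ..)) ≤ y < x`
(`pow_le_pow_left_iff..`, `R ≠ 0`), and `growthRate T ≤ x` because `x ≥ 6`.
PROOF of `min_eq`: `minGrowthRate` is the infimum of the growth rates; `V` is a lower bound
(`V_le`),
and for every `x > V` it is at most `x` (`low`, `csInf_le`, `bddBelow_rates`);
`le_of_forall_gt_imp_ge_of_dense` or similar; the set is nonempty by `low` for `x = V + 1`.
PROOF of `caseA`: if `T` generates and `growthRate T = minGrowthRate (Gr σ) = V` this contradicts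
`tight`.
-/

set_option autoImplicit false

namespace Pool.Agent.MinSig

open Pool.Agent.MinGrowth

theorem low (σ : ℕ → Option ℕ) {x : ℝ} (hx : growthRate (gens base) < x) :
    ∃ T : Finset (Gr σ), Subgroup.closure (T : Set (Gr σ)) = ⊤ ∧ growthRate T ≤ x := by
  have h6 := six_lt
  obtain ⟨y, hy1, hy2⟩ := exists_between hx
  obtain ⟨R, hR, hR1⟩ := ((growthFn_eventually_le (gens base) hy1).and
    (Filter.eventually_ge_atTop 1)).exists
  obtain ⟨T, hT, h⟩ := split σ (Finset.range (4 * R + 1))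
  refine ⟨T, hT, h x (by linarith) ?_⟩
  have h1 := short (σ := σ) (X := ((Finset.range (4 * R + 1) : Finset ℕ) : Set ℕ)ᶜ) ∅
    (fun n hn => absurd hn (Finset.notMem_empty n)) (R := R) (by
      intro n hn _
      have h3 := lt_dd n
      rw [Set.mem_compl_iff, Finset.mem_coe, Finset.mem_range] at hn
      omega)
  rw [Finset.prod_empty, mul_one] at h1
  have h2 := (growthRate_pow_le _ R).trans ((Nat.cast_le (α := ℝ).2 h1).trans hR)
  exact ((pow_le_pow_iff_left₀ (growthRate_pos _).le (by linarith) (by omega)).1 h2).trans_lt hy2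

theorem min_eq (σ : ℕ → Option ℕ) : minGrowthRate (Gr σ) = growthRate (gens base) := by
  refine le_antisymm (le_of_forall_gt_imp_ge_of_dense fun x hx => ?_) ?_
  · obtain ⟨T, hT, h⟩ := low σ hx
    exact (csInf_le (bddBelow_rates (Gr σ)) ⟨T, hT, rfl⟩).trans h
  · obtain ⟨T, hT, -⟩ := low σ (lt_add_one (growthRate (gens base)))
    refine le_csInf ⟨_, T, hT, rfl⟩ ?_
    rintro _ ⟨S, hS, rfl⟩
    exact V_le hS

theorem caseA {σ : ℕ → Option ℕ} (hA : CaseA σ) : ¬ AttainsMinGrowth (Gr σ) := by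
  rintro ⟨S, hS, h⟩
  rw [min_eq] at h
  exact absurd h (tight hA hS).ne'

end Pool.Agent.MinSig
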