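import Pool.Agent.MinSig.QGen

/-!
# MinSig QEval: normal forms in the free product `Q none`

PROOF.  `ev_raw`: cases of the definition of `raw` (`μ = none`, so the condition on the length is
never true): `l = []`; `l = (c, b) :: l'` with `a * b = 1` (`jj none c` is a homomorphism) or not;
`l = (d, b) :: l'` with `d ≠ c` and `a = 1` or not.  (No reducedness is needed.)
`ev_app`: induction on `l`: `ev (x :: l) = jj none x.1 x.2 * ev l` maps the empty word to
`raw none x.1 x.2 l` (`jj_apply`, induction hypothesis), which is `x :: l` since `x.2 ≠ 1` and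
`NH x.1 l`.
`ev_act`: for all `g : Q none` and `l : Om none`, `ev (g.1 l).1 = g * ev l.1`: by `jj_closure` and
`Subgroup.closure_induction`: for `g = jj none c a` this is `ev_raw`; the property is closed under
products (apply it to `h.1 l`), inverses (apply it to `g⁻¹.1 l`) and holds for `1`.
`ev_wd`: `ev_act` for `g⁻¹` and the empty word.  `wd_red`: the definition of `Om`.
`wd_ev`: `wd (ev l)⁻¹ = (((ev l)⁻¹)⁻¹.1 emp).1 = l` by `ev_app`.  `ev_inj`: apply the elements to
the empty word.  `wd_mul_jj`: `(g * jj c a)⁻¹ = jj c a⁻¹ * g⁻¹`.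
-/

set_option autoImplicit false

namespace Pool.Agent.MinSig

theorem ev_raw (c : Bool) (a : A5) (l : List (Bool × A5)) :
    ev (raw none c a l) = jj none c a * ev l := by
  rcases l with _ | ⟨⟨d, b⟩, l⟩
  · simp only [raw, reduceCtorEq, or_false]
    split_ifs with h
    · rw [h, map_one, one_mul]
    · rfl
  · simp only [raw, reduceCtorEq, or_false]
    split_ifs with h1 h2 h3
    · subst h1
      change ev l = jj none d a * (jj none d b * ev l)
      rw [← mul_assoc, ← map_mul, h2, map_one, one_mul]
    · subst h1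
      change jj none d (a * b) * ev l = jj none d a * (jj none d b * ev l)
      rw [← mul_assoc, ← map_mul]
    · rw [h3, map_one, one_mul]
    · rfl

private theorem raw_new {c : Bool} {a : A5} {l : List (Bool × A5)} (ha : a ≠ 1) (hl : NH c l) :
    raw none c a l = (c, a) :: l := by
  rcases l with _ | ⟨⟨d, b⟩, l⟩
  · simp [raw, ha]
  · have hd : d ≠ c := hl
    simp [raw, ha, hd]

private theorem q_mul (g h : Q none) (l : Om none) : (g * h).1 l = g.1 (h.1 l) := rfl

theorem ev_app {l : List (Bool × A5)} (hl : Rd l) : ((ev l).1 (emp none)).1 = l := by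
  induction l with
  | nil => rfl
  | cons x l ih =>
    obtain ⟨h1, h2, h3⟩ := hl
    change ((jj none x.1 x.2 * ev l).1 (emp none)).1 = x :: l
    rw [q_mul, jj_apply, ih h3, raw_new h1 h2]

theorem ev_act (g : Q none) (l : Om none) : ev (g.1 l).1 = g * ev l.1 := by
  have hg : g ∈ Subgroup.closure {x : Q none | ∃ (c : Bool) (a : A5), x = jj none c a} := by
    rw [jj_closure]
    exact Subgroup.mem_top g
  revert l
  induction hg using Subgroup.closure_induction with
  | mem x hx =>
    obtain ⟨c, a, rfl⟩ := hx
    intro l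
    rw [jj_apply, ev_raw]
  | one =>
    intro l
    rw [one_mul]
    rfl
  | mul g h _ _ ih1 ih2 =>
    intro l
    rw [q_mul, ih1, ih2, mul_assoc]
  | inv g _ ih =>
    intro l
    have h1 := ih ((g⁻¹ : Q none).1 l)
    rw [← q_mul, mul_inv_cancel] at h1
    change ev l.1 = _ at h1
    rw [h1, inv_mul_cancel_left]

theorem ev_wd (g : Q none) : ev (wd g) = g⁻¹ := by
  unfold wd
  rw [ev_act]
  exact mul_one _

theorem wd_red (g : Q none) : Rd (wd g) := ((g⁻¹ : Q none).1 (emp none)).2.1

theorem wd_ev {l : List (Bool × A5)} (hl : Rd l) : wd (ev l)⁻¹ = l := by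
  unfold wd
  rw [inv_inv, ev_app hl]

theorem ev_inj {l l' : List (Bool × A5)} (hl : Rd l) (hl' : Rd l') (h : ev l = ev l') :
    l = l' := by
  rw [← ev_app hl, h, ev_app hl']

theorem wd_one : wd 1 = [] := by
  unfold wd
  rw [inv_one]
  rfl

theorem wd_mul_jj (g : Q none) (c : Bool) (a : A5) :
    wd (g * jj none c a) = raw none c a⁻¹ (wd g) := by
  unfold wd
  rw [mul_inv_rev, ← map_inv, q_mul, jj_apply]

theorem ev_append (l l' : List (Bool × A5)) : ev (l ++ l') = ev l * ev l' := by
  induction l with
  | nil => exact (one_mul _).symm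
  | cons x l ih =>
    change jj none x.1 x.2 * ev (l ++ l') = jj none x.1 x.2 * ev l * ev l'
    rw [ih, mul_assoc]

end Pool.Agent.MinSig
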