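import Pool.Agent.MinSig.QEval

/-!
# MinSig QIns: insertions in reduced words

PROOF.  `ins_red`: induction on `l`, together with: `ins E l` begins with the same letter as `l`
(`NH c (ins E l) ↔ NH c l`).  For `x :: l` and `l.length ∈ E` the word is
`x :: (!x.1, pick l) :: (x.1, ax) :: ins E l`: `pick l ≠ 1` (`ax_ne_one`, `ax_inv_ne_one`),
`!x.1 ≠ x.1`, and the first letter of `l` is not in the factor `x.1`.
`ins_inj`: induction on `l`.  For `x :: l` (`n = l.length`) cancel `x`.  If `n ∈ E` and `n ∈ E'`:
cancel the
two letters `mk2 x l`; `ins E l = ins E' l`.  `ins` depends only on `E ∩ range l.length`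
(`ins_congr`), so the induction hypothesis for `E ∩ range n`, `E' ∩ range n` gives that these are
equal, and
`E ⊆ range (n + 1)`.  If `n ∉ E`, `n ∉ E'`: the same.  If `n ∈ E`, `n ∉ E'`:
`(!x.1, pick l) :: _ = ins E' l`; if `l = []` this is impossible; if `l = y :: l'` then the first
letter
of `ins E' l` is `y`, and `y.2 ≠ pick l` by the definition of `pick` (`ax_inv_ne`).
`ev_ins`: induction on `l`.  Let `f j = (ev (sfx l j))⁻¹ * (ev (mark l j))⁻¹ * ev (sfx l j)`.  For
`x :: l`, `n = l.length`: `sfx (x :: l) j = sfx l j` for `j ≤ n`, `mark (x :: l) j = mark l j` for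
`j < n`, `mark (x :: l) n = mk2 x l`, `sfx (x :: l) n = l`.  So, with `ev_append`,
`ev (ins E (x :: l)) = ev [x] * ev (mk2 x l) ^ [n ∈ E] * ev (ins E l)`, and with the induction
hypothesis `ev (ins E l) = ev l * (opr f E n)⁻¹`, and `(opr f E (n + 1))⁻¹ = (f n)⁻¹ ^ [n ∈ E] *
(opr f E n)⁻¹`,
`ev l * (f n)⁻¹ = ev (mk2 x l) * ev l`.
-/

set_option autoImplicit false

namespace Pool.Agent.MinSig

theorem opr_congr {G : Type*} [Group G] {f g : ℕ → G} {E : Finset ℕ} {M : ℕ}
    (h : ∀ j < M, f j = g j) : opr f E M = opr g E M := by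
  induction M with
  | zero => rfl
  | succ M ih =>
    change (opr f E M * if M ∈ E then f M else 1) = opr g E M * if M ∈ E then g M else 1
    rw [ih fun j hj => h j (Nat.lt_succ_of_lt hj), h M (Nat.lt_succ_self M)]

theorem opr_map {G H : Type*} [Group G] [Group H] (φ : G →* H) (f : ℕ → G) (E : Finset ℕ)
    (M : ℕ) : φ (opr f E M) = opr (fun j => φ (f j)) E M := by
  induction M with
  | zero => exact map_one φ
  | succ M ih =>
    change φ (opr f E M * if M ∈ E then f M else 1) =
      opr (fun j => φ (f j)) E M * if M ∈ E then φ (f M) else 1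
    rw [map_mul, ih]
    split_ifs
    · rfl
    · rw [map_one]

private theorem bnot_ne (b : Bool) : (!b) ≠ b := by
  cases b <;> decide

private theorem pick_ne_one (l : List (Bool × A5)) : pick l ≠ 1 := by
  cases l with
  | nil => exact ax_ne_one
  | cons y l =>
    change (if y.2 = ax then ax⁻¹ else ax) ≠ 1
    split_ifs
    · exact ax_inv_ne_one
    · exact ax_ne_one

private theorem pick_ne (y : Bool × A5) (l : List (Bool × A5)) : pick (y :: l) ≠ y.2 := by
  change (if y.2 = ax then ax⁻¹ else ax) ≠ y.2
  split_ifs with h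
  · rw [h]
    exact ax_inv_ne
  · exact fun h' => h h'.symm

private theorem ins_cons (E : Finset ℕ) (x : Bool × A5) (l : List (Bool × A5)) :
    ins E (x :: l) = x :: ((if l.length ∈ E then mk2 x l else []) ++ ins E l) := rfl

theorem ins_red (E : Finset ℕ) {l : List (Bool × A5)} (hl : Rd l) : Rd (ins E l) := by
  induction l with
  | nil => trivial
  | cons x l ih =>
    obtain ⟨h1, h2, h3⟩ := hl
    have ih' := ih h3
    have h4 : NH x.1 (ins E l) := by
      cases l with
      | nil => trivial
      | cons y l => exact h2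
    rw [ins_cons]
    split_ifs with h
    · exact ⟨h1, bnot_ne x.1, pick_ne_one l, (bnot_ne x.1).symm, ax_ne_one, h4, ih'⟩
    · exact ⟨h1, h4, ih'⟩

private theorem ins_mixed {E E' : Finset ℕ} {x : Bool × A5} {l : List (Bool × A5)}
    (h : mk2 x l ++ ins E l = ins E' l) : False := by
  cases l with
  | nil => exact List.cons_ne_nil _ _ h
  | cons y l =>
    rw [ins_cons E' y l] at h
    have h1 : ((!x.1, pick (y :: l)) : Bool × A5) = y := (List.cons.inj h).1
    exact pick_ne y l (congrArg Prod.snd h1)

private theorem ins_inj_aux {l : List (Bool × A5)} {E E' : Finset ℕ}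
    (h : ins E l = ins E' l) : ∀ j < l.length, (j ∈ E ↔ j ∈ E') := by
  induction l with
  | nil =>
    intro j hj
    exact absurd hj (Nat.not_lt_zero j)
  | cons x l ih =>
    rw [ins_cons, ins_cons] at h
    have h1 := (List.cons.inj h).2
    have h2 : (l.length ∈ E ↔ l.length ∈ E') ∧ ins E l = ins E' l := by
      by_cases g : l.length ∈ E <;> by_cases g' : l.length ∈ E'
      · rw [if_pos g, if_pos g'] at h1
        exact ⟨⟨fun _ => g', fun _ => g⟩, List.append_cancel_left h1⟩
      · rw [if_pos g, if_neg g', List.nil_append] at h1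
        exact (ins_mixed h1).elim
      · rw [if_neg g, if_pos g', List.nil_append] at h1
        exact (ins_mixed h1.symm).elim
      · rw [if_neg g, if_neg g', List.nil_append, List.nil_append] at h1
        exact ⟨⟨fun a => absurd a g, fun a => absurd a g'⟩, h1⟩
    intro j hj
    rw [List.length_cons] at hj
    rcases Nat.lt_succ_iff_lt_or_eq.1 hj with h3 | h3
    · exact ih h2.2 j h3
    · rw [h3]
      exact h2.1

theorem ins_inj {l : List (Bool × A5)} (hl : Rd l) {E E' : Finset ℕ}
    (hE : E ⊆ Finset.range l.length) (hE' : E' ⊆ Finset.range l.length)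
    (h : ins E l = ins E' l) : E = E' := by
  have h1 := ins_inj_aux h
  ext j
  constructor
  · intro hj
    exact (h1 j (Finset.mem_range.1 (hE hj))).1 hj
  · intro hj
    exact (h1 j (Finset.mem_range.1 (hE' hj))).2 hj

private theorem sfx_cons {x : Bool × A5} {l : List (Bool × A5)} {j : ℕ} (hj : j ≤ l.length) :
    sfx (x :: l) j = sfx l j := by
  unfold sfx
  have e : (x :: l).length - j = (l.length - j) + 1 := by
    rw [List.length_cons]
    omega
  rw [e, List.drop_succ_cons]

private theorem mark_cons {x : Bool × A5} {l : List (Bool × A5)} {j : ℕ} (hj : j < l.length) :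
    mark (x :: l) j = mark l j := by
  unfold mark
  have e : (x :: l).length - (j + 1) = (l.length - (j + 1)) + 1 := by
    rw [List.length_cons]
    omega
  rw [e, List.drop_succ_cons]

private theorem mark_top (x : Bool × A5) (l : List (Bool × A5)) :
    mark (x :: l) l.length = mk2 x l := by
  unfold mark
  rw [List.length_cons, Nat.sub_self, List.drop_zero]

private theorem sfx_top (l : List (Bool × A5)) : sfx l l.length = l := by
  unfold sfx
  rw [Nat.sub_self, List.drop_zero]

theorem ev_ins (E : Finset ℕ) (l : List (Bool × A5)) : ev (ins E l) = ev l *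
    (opr (fun j => (ev (sfx l j))⁻¹ * (ev (mark l j))⁻¹ * ev (sfx l j)) E l.length)⁻¹ := by
  induction l with
  | nil =>
    change (1 : Q none) = 1 * (1 : Q none)⁻¹
    rw [inv_one, mul_one]
  | cons x l ih =>
    have e1 : opr (fun j => (ev (sfx (x :: l) j))⁻¹ * (ev (mark (x :: l) j))⁻¹ *
        ev (sfx (x :: l) j)) E (x :: l).length =
        opr (fun j => (ev (sfx l j))⁻¹ * (ev (mark l j))⁻¹ * ev (sfx l j)) E l.length *
          if l.length ∈ E then (ev l)⁻¹ * (ev (mk2 x l))⁻¹ * ev l else 1 := by
      rw [List.length_cons]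
      change (opr _ E l.length * if l.length ∈ E then _ else 1) = _
      dsimp only
      rw [sfx_cons le_rfl, mark_top, sfx_top]
      congr 1
      refine opr_congr fun j hj => ?_
      rw [sfx_cons hj.le, mark_cons hj]
    rw [e1, ins_cons]
    change jj none x.1 x.2 * ev ((if l.length ∈ E then mk2 x l else []) ++ ins E l) =
      jj none x.1 x.2 * ev l * _
    rw [ev_append, ih]
    split_ifs
    · group
    · change jj none x.1 x.2 * (1 * _) = _
      rw [mul_one, one_mul, mul_assoc]

/-- the elements `ev (mark l j)` belong to a finite set -/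
theorem mark_finite :
    {x : Q none | ∃ (l : List (Bool × A5)) (j : ℕ), x = ev (mark l j)}.Finite := by
  refine Set.Finite.subset ((Set.finite_range fun p : Bool × A5 =>
    ev [(!p.1, p.2), (p.1, ax)]).union (Set.finite_singleton (ev []))) ?_
  rintro x ⟨l, j, rfl⟩
  unfold mark
  rcases l.drop (l.length - (j + 1)) with _ | ⟨y, l'⟩
  · exact Or.inr rfl
  · exact Or.inl ⟨(y.1, pick l'), rfl⟩

end Pool.Agent.MinSig
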