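import Pool.Agent.MinSig.DefsB

/-!
# MinSig RdA: the combinatorics of the reduction

`P j k` is a property (monotone in `j`), `stf P n = stat P j k` for `(j, k) = Nat.unpair n`.

PROOF of `stf_caseA` (all sets `{k | P j k}` are finite).  Let `N` be given and `j = N`.  The set of
the `k` with `k = 0 ∨ P j (k - 1)` is nonempty (`k = 0`) and finite; let `k` be its largest element.
There is no `k' ≥ k` with `P j k'`: otherwise `k' + 1` is a larger element.  So
`stat P j k = none`.  `n = Nat.pair j k ≥ j = N` (`Nat.left_le_pair`), `stf P n = none`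
(`Nat.unpair_pair`).
PROOF of `stf_caseB`.  Let `j₀` be the least `j` such that `{k | P j k}` is infinite (`Nat.find`).
(1) If `stat P j k = none` then `k = 0 ∨ P j (k - 1)` and there is no `k' ≥ k` with `P j k'`; so
`{k | P j k}` is finite (contained in `range k`) and `j < j₀` (for `j ≥ j₀` it contains the infinite
set for `j₀`, monotonicity).  For each `j < j₀` the set of the `k` with `k = 0 ∨ P j (k - 1)` is
finite.  So the set of the `n` with `stf P n = none` is finite (contained in the image under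
`Nat.pair` of a finite set of pairs), and it has an upper bound.
(2) The set of the values `m` with `stf P n = some m` for an `n` with `(unpair n).1 < j₀` is finite:
`m = 0` or the block has started (finitely many pairs); let `c` be an upper bound.  Let `N₀` be
given; there is `K ≥ max N₀ c` with `P j₀ K`.  Take `N = K`.  Let `n ≤ K`, `stf P n = some m`,
`(j, k) = unpair n`.  If `j < j₀` then `m ≤ c ≤ K`.  If `j ≥ j₀` then `P j K`, `k ≤ n ≤ K`
(`Nat.unpair_right_le`), so `m = 0` or `m = Nat.find ..` is at most `K` (`Nat.find_le` /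
`Nat.find_min'`).
PROOF of `stat_iff`: the definition of `stat` and `Nat.find_eq_iff`.
-/

set_option autoImplicit false

namespace Pool.Agent.MinSig

private theorem stat_none {P : ℕ → ℕ → Prop} {j k : ℕ} :
    stat P j k = none ↔ (k = 0 ∨ P j (k - 1)) ∧ ¬ ∃ k', k ≤ k' ∧ P j k' := by
  unfold stat
  split_ifs with h1 h2
  · simp [h1, h2]
  · simp [h1, h2]
  · simp [h1]

private theorem stat_iff' (P : ℕ → ℕ → Prop) (j k μ : ℕ) : stat P j k = some μ ↔
    (¬ (k = 0 ∨ P j (k - 1)) ∧ μ = 0) ∨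
      ((k = 0 ∨ P j (k - 1)) ∧ k ≤ μ ∧ P j μ ∧ ∀ k' < μ, ¬ (k ≤ k' ∧ P j k')) := by
  classical
  unfold stat
  split_ifs with h1 h2
  · rw [Option.some_inj, Nat.find_eq_iff]
    constructor
    · rintro ⟨⟨h3, h4⟩, h5⟩
      exact Or.inr ⟨h1, h3, h4, h5⟩
    · rintro (⟨h3, -⟩ | ⟨-, h3, h4, h5⟩)
      · exact absurd h1 h3
      · exact ⟨⟨h3, h4⟩, h5⟩
  · constructor
    · intro h
      exact absurd h (by simp)
    · rintro (⟨h3, -⟩ | ⟨-, h3, h4, -⟩)
      · exact absurd h1 h3
      · exact absurd ⟨μ, h3, h4⟩ h2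
  · rw [Option.some_inj]
    constructor
    · rintro rfl
      exact Or.inl ⟨h1, rfl⟩
    · rintro (⟨-, h3⟩ | ⟨h3, -⟩)
      · exact h3.symm
      · exact absurd h3 h1

/-- the times at which a block starts -/
private theorem start_finite {P : ℕ → ℕ → Prop} {j : ℕ} (h : {k | P j k}.Finite) :
    {k | k = 0 ∨ P j (k - 1)}.Finite := by
  refine (((Set.finite_singleton 0).union (h.image (fun k => k + 1)))).subset ?_
  rintro k (rfl | hk)
  · exact Or.inl rfl
  · rcases Nat.eq_zero_or_pos k with rfl | h0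
    · exact Or.inl rfl
    · exact Or.inr ⟨k - 1, hk, Nat.succ_pred_eq_of_pos h0⟩

theorem stf_caseA {P : ℕ → ℕ → Prop} (h : ∀ j, {k | P j k}.Finite) : CaseA (stf P) := by
  intro N
  have hne : {k | k = 0 ∨ P N (k - 1)}.Nonempty := ⟨0, Or.inl rfl⟩
  obtain ⟨k, hk, hmax⟩ := (start_finite (h N)).exists_maximal hne
  refine ⟨Nat.pair N k, Nat.left_le_pair N k, ?_⟩
  unfold stf
  rw [Nat.unpair_pair]
  refine stat_none.2 ⟨hk, ?_⟩
  rintro ⟨k', h1, h2⟩
  have h3 : k' + 1 ∈ {k | k = 0 ∨ P N (k - 1)} := Or.inr h2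
  have h4 := hmax h3 (by omega : k ≤ k' + 1)
  omega

theorem stf_caseB {P : ℕ → ℕ → Prop} (hm : ∀ j j' k, j ≤ j' → P j k → P j' k)
    (h : ∃ j, {k | P j k}.Infinite) : CaseB (stf P) := by
  classical
  have hj := Nat.find_spec h
  have hmin : ∀ j, j < Nat.find h → {k | P j k}.Finite := fun j hj' =>
    Set.not_infinite.1 (Nat.find_min h hj')
  generalize Nat.find h = j₀ at hj hmin
  have hinf : ∀ K, ∃ k, K ≤ k ∧ P j₀ k := by
    intro K
    obtain ⟨k, hk, hk'⟩ := hj.exists_gt K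
    exact ⟨k, hk'.le, hk⟩
  -- the finite set of the early started blocks
  have hfin : {n : ℕ | (Nat.unpair n).1 < j₀ ∧
      ((Nat.unpair n).2 = 0 ∨ P (Nat.unpair n).1 ((Nat.unpair n).2 - 1))}.Finite := by
    have h1 : (⋃ j ∈ Finset.range j₀, (fun k => Nat.pair j k) ''
        {k | k = 0 ∨ P j (k - 1)}).Finite := by
      refine Set.Finite.biUnion (Finset.finite_toSet _) fun j hj' => ?_
      exact (start_finite (hmin j (Finset.mem_range.1 (Finset.mem_coe.1 hj')))).image _
    refine h1.subset ?_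
    rintro n ⟨h2, h3⟩
    rw [Set.mem_iUnion₂]
    exact ⟨(Nat.unpair n).1, Finset.mem_range.2 h2, (Nat.unpair n).2, h3, Nat.pair_unpair n⟩
  refine ⟨?_, ?_⟩
  · obtain ⟨c, hc⟩ := hfin.bddAbove
    refine ⟨c + 1, fun n hn h1 => ?_⟩
    obtain ⟨h2, h3⟩ := stat_none.1 h1
    have h4 : (Nat.unpair n).1 < j₀ := by
      by_contra h5
      rw [not_lt] at h5
      obtain ⟨k, hk, hk'⟩ := hinf (Nat.unpair n).2
      exact h3 ⟨k, hk, hm _ _ _ h5 hk'⟩
    have h5 := hc (show n ∈ _ from ⟨h4, h2⟩)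
    omega
  · obtain ⟨c, hc⟩ := (hfin.image (fun n => (stf P n).getD 0)).bddAbove
    intro N₀
    obtain ⟨K, hK, hPK⟩ := hinf (max N₀ c)
    refine ⟨K, (le_max_left _ _).trans hK, fun n hn m hnm => ?_⟩
    rcases lt_or_ge (Nat.unpair n).1 j₀ with h1 | h1
    · rcases (stat_iff' P _ _ m).1 hnm with ⟨-, h2⟩ | ⟨h2, -⟩
      · omega
      · have h3 := hc (Set.mem_image_of_mem (fun n => (stf P n).getD 0)
          (show n ∈ {n : ℕ | (Nat.unpair n).1 < j₀ ∧
            ((Nat.unpair n).2 = 0 ∨ P (Nat.unpair n).1 ((Nat.unpair n).2 - 1))}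
            from ⟨h1, h2⟩))
        simp only [hnm, Option.getD_some] at h3
        exact h3.trans ((le_max_right _ _).trans hK)
    · rcases (stat_iff' P _ _ m).1 hnm with ⟨-, h2⟩ | ⟨-, h2, h3, h4⟩
      · omega
      · by_contra h5
        rw [not_le] at h5
        refine h4 K h5 ⟨?_, hm _ _ _ h1 hPK⟩
        exact (Nat.unpair_right_le n).trans hn

theorem stat_iff (P : ℕ → ℕ → Prop) (j k μ : ℕ) : stat P j k = some μ ↔
    (¬ (k = 0 ∨ P j (k - 1)) ∧ μ = 0) ∨
      ((k = 0 ∨ P j (k - 1)) ∧ k ≤ μ ∧ P j μ ∧ ∀ k' < μ, ¬ (k ≤ k' ∧ P j k')) := by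
  exact stat_iff' P j k μ

end Pool.Agent.MinSig
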