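import Pool.Agent.MinSig.SplA

/-!
# MinSig Split: splitting off finitely many blocks

PROOF.  `A` from `sig_exists`, `f` from `mod_exists`, `B = gens (mk ∘ f)` (`mk =
QuotientGroup.mk' (K σ univ)`),
`T = A ∪ B`.
CLOSURE: the closure `H` of `T` contains the closure of `A`, all `mk (f (of g))`, hence all
`mk (of g)` (`mk (f (of g) * (of g)⁻¹) ∈ closure A`), so `H = ⊤` (`gens_closure`, or
`FreeGroup.closure_range_of` and the surjectivity of `mk`).
GROWTH: let `x ≥ 6` and `growthRate (gens (mk' (K σ Yᶜ))) < x`.  `PB x A` (`PB.mono`).  `PB x B`: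
if
`v, w : F` have the same class modulo `K σ Yᶜ` then `mk (f v) = mk (f w)`: by `mk_eq_iff` `base v
= base w`,
`bl σ n v = bl σ n w` for `n ∉ Y`, so `base (f v) = base (f w)`, `bl σ n (f v) = bl σ n (f w)`
for `n ∉ Y`; and for
`n ∈ Y` `bl σ n (f v) = posEmb (bl σ n v).pos`, and the position of a block is determined by the
position of `base` (`blk_pos`, `base_pos`: `v = mk l`).  So `gens_le_of_ker` gives
`growthFn B k ≤ growthFn (gens (mk' (K σ Yᶜ))) k`, which has a bound by `PB_of_lt`.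
`PB_union` with `S = A`, `T = B`: for `a = el σ n c (alpha i)` or its inverse and `b = mk (f w)`,
`w = (of g)^±1`: `b * el σ n c (alpha i) * b⁻¹ = el σ n (pos * c) (1 * alpha i * 1)` by
`el_conj`, since
`toR σ n b = posEmb ..` has trivial lamps.  So it is in `A`.  Finally `growthRate_le_of_PB`.
-/

set_option autoImplicit false

namespace Pool.Agent.MinSig

open Pool.Agent.MinGrowth

private theorem mem_gens {G : Type*} [Group G] {φ : F →* G} {b : G} :
    b ∈ gens φ ↔ ∃ g, φ (FreeGroup.of g) = b := by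
  unfold gens
  simp

theorem split (σ : ℕ → Option ℕ) (Y : Finset ℕ) : ∃ T : Finset (Gr σ),
    Subgroup.closure (T : Set (Gr σ)) = ⊤ ∧ ∀ x : ℝ, 6 ≤ x →
      growthRate (gens (QuotientGroup.mk' (K σ ((Y : Set ℕ)ᶜ)))) < x → growthRate T ≤ x := by
  let _ : DecidableEq (Gr σ) := fun a b => Classical.propDecidable (a = b)
  obtain ⟨A, hA, hmem⟩ := sig_exists σ Y
  obtain ⟨f, hf1, hf2, hf3, hf4⟩ := mod_exists σ Y
  have hset : {a : Gr σ | ∃ n ∈ Y, ∃ (c : Zm (dd n)) (i : Fin 4),
      a = el σ n c (alpha (σ n) i)} = (A : Set (Gr σ)) := by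
    ext a
    exact (hmem a).symm
  rw [hset] at hf4
  have hB : ∀ g : Option (Fin 7), (QuotientGroup.mk' (K σ Set.univ)).comp f (FreeGroup.of g) ∈
      gens ((QuotientGroup.mk' (K σ Set.univ)).comp f) := fun g => mem_gens.2 ⟨g, rfl⟩
  refine ⟨A ∪ gens ((QuotientGroup.mk' (K σ Set.univ)).comp f), ?_, ?_⟩
  · have h1 : ∀ g, (QuotientGroup.mk' (K σ Set.univ)) (FreeGroup.of g) ∈ Subgroup.closure
        ((A ∪ gens ((QuotientGroup.mk' (K σ Set.univ)).comp f) : Finset (Gr σ)) :
          Set (Gr σ)) := by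
      intro g
      have h2 := Subgroup.closure_mono (show (A : Set (Gr σ)) ⊆
        ((A ∪ gens ((QuotientGroup.mk' (K σ Set.univ)).comp f) : Finset (Gr σ)) :
          Set (Gr σ)) from fun a ha => Finset.mem_coe.2 (Finset.mem_union_left _ ha)) (hf4 g)
      have h3 := Subgroup.subset_closure (Finset.mem_coe.2 (Finset.mem_union_right A (hB g)))
      have h4 := Subgroup.mul_mem _ (Subgroup.inv_mem _ h2) h3
      have h5 : (QuotientGroup.mk (f (FreeGroup.of g) * (FreeGroup.of g)⁻¹) : Gr σ)⁻¹ *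
          (QuotientGroup.mk' (K σ Set.univ)).comp f (FreeGroup.of g) =
          (QuotientGroup.mk' (K σ Set.univ)) (FreeGroup.of g) := by
        change (QuotientGroup.mk' (K σ Set.univ)
          (f (FreeGroup.of g) * (FreeGroup.of g)⁻¹))⁻¹ *
          QuotientGroup.mk' (K σ Set.univ) (f (FreeGroup.of g)) = _
        rw [map_mul, map_inv, mul_inv_rev, inv_inv, mul_assoc, inv_mul_cancel, mul_one]
      rwa [h5] at h4
    rw [eq_top_iff]
    intro x _
    obtain ⟨w, rfl⟩ := QuotientGroup.mk'_surjective (K σ Set.univ) x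
    have h6 : Subgroup.closure (Set.range (FreeGroup.of : Option (Fin 7) → F)) ≤
        (Subgroup.closure ((A ∪ gens ((QuotientGroup.mk' (K σ Set.univ)).comp f) :
          Finset (Gr σ)) : Set (Gr σ))).comap (QuotientGroup.mk' (K σ Set.univ)) := by
      rw [Subgroup.closure_le]
      rintro _ ⟨g, rfl⟩
      exact h1 g
    rw [FreeGroup.closure_range_of] at h6
    exact h6 (Subgroup.mem_top w)
  · intro x hx hlt
    have hPB : PB x (gens ((QuotientGroup.mk' (K σ Set.univ)).comp f)) := by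
      obtain ⟨C, d, h⟩ := PB_of_lt hlt
      refine ⟨C, d, fun k => le_trans (Nat.cast_le.2 (gens_le_of_ker
        (QuotientGroup.mk' (K σ ((Y : Set ℕ)ᶜ))) _ k ?_)) (h k)⟩
      intro v _ w _ hvw
      obtain ⟨h1, h2⟩ := mk_eq_iff.1 hvw
      refine mk_eq_iff.2 ⟨by rw [hf1, hf1, h1], fun n _ => ?_⟩
      by_cases hn : n ∈ Y
      · rw [hf3 n hn, hf3 n hn]
        congr 1
        have h3 : (base v).pos = (base w).pos := by rw [h1]
        rw [← FreeGroup.mk_toWord (x := v), ← FreeGroup.mk_toWord (x := w)] at h3 ⊢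
        rw [base_pos, base_pos] at h3
        unfold bl
        rw [blk_pos, blk_pos, Multiplicative.ofAdd.injective h3]
      · rw [hf2 n hn, hf2 n hn, h2 n hn]
    have hconj : ∀ a ∈ A, ∀ w : F, (QuotientGroup.mk (f w) : Gr σ) * a *
        (QuotientGroup.mk (f w) : Gr σ)⁻¹ ∈ A := by
      intro a ha w
      obtain ⟨n, hn, c, i, rfl⟩ := (hmem a).1 ha
      rw [el_conj, toR_mk, hf3 n hn, hmem]
      refine ⟨n, hn, (bl σ n w).pos * c, i, ?_⟩
      simp
    refine growthRate_le_of_PB (by linarith) (PB_union (by linarith)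
      (PB.mono (by norm_num) hx hA) hPB ?_)
    intro a b ha hb
    have hw : ∃ w : F, b = (QuotientGroup.mk (f w) : Gr σ) := by
      rcases hb with hb | hb
      · obtain ⟨g, hg⟩ := mem_gens.1 hb
        exact ⟨FreeGroup.of g, hg.symm⟩
      · obtain ⟨g, hg⟩ := mem_gens.1 hb
        refine ⟨(FreeGroup.of g)⁻¹, ?_⟩
        rw [map_inv, QuotientGroup.mk_inv]
        exact inv_eq_iff_eq_inv.1 hg.symm
    obtain ⟨w, rfl⟩ := hw
    rcases ha with ha | ha
    · exact Or.inl (hconj a ha w)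
    · refine Or.inr ?_
      have h7 := hconj _ ha w
      have h8 : ((QuotientGroup.mk (f w) : Gr σ) * a * (QuotientGroup.mk (f w) : Gr σ)⁻¹)⁻¹ =
          (QuotientGroup.mk (f w) : Gr σ) * a⁻¹ * (QuotientGroup.mk (f w) : Gr σ)⁻¹ := by
        group
      rwa [h8]

end Pool.Agent.MinSig
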