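import Pool.Agent.MinSig.Defs

/-!
# MinSig TgA: growth with binomial coefficients

PROOF.  `choose_ge`: `C(b j, j) ≥ b ^ j` by induction on `j`:
`(j + 1) * C(b (j + 1), j + 1) = b (j + 1) * C(b (j + 1) - 1, j)` (`Nat.add_one_mul_choose_eq`), so
`C(b (j + 1), j + 1) = b * C(b (j + 1) - 1, j) ≥ b * C(b j, j)` (`b ≥ 1`, `Nat.choose_le_choose`).
`growth_gt`: take a natural number `b ≥ 1` with `b > v ^ ℓ`.  For `j ≥ 1` with `a b j ≥ k₀` use `h`
for `k = a b j`, `M = b j`, `m = j`: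
`(v ^ (a b) * b) ^ j / 2 ≤ growthFn S (j (a b + ℓ))`.
Suppose `growthRate S ≤ v`.  Since `v ^ (a b + ℓ) < v ^ (a b) * b` there is `w > v` with
`w ^ (a b + ℓ) < v ^ (a b) * b` (continuity of `w ↦ w ^ (a b + ℓ)` at `v`).  By
`growthFn_eventually_le` for `r = w`: `(v ^ (a b) * b) ^ j / 2 ≤ (w ^ (a b + ℓ)) ^ j` for all large
`j`: contradiction, because `((v ^ (a b) * b) / w ^ (a b + ℓ)) ^ j` tends to infinity
(`tendsto_pow_atTop_atTop_of_one_lt`).
-/

set_option autoImplicit false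

namespace Pool.Agent.MinSig

open Pool.Agent.MinGrowth

theorem choose_ge (b j : ℕ) (hb : 0 < b) : b ^ j ≤ (b * j).choose j := by
  induction j with
  | zero => simp
  | succ j ih =>
    have h0 : b * (j + 1) = (b * j + (b - 1)) + 1 := by
      rw [Nat.mul_succ]
      omega
    have h1 := Nat.add_one_mul_choose_eq (b * j + (b - 1)) j
    rw [← h0] at h1
    have h2 : (b * (j + 1)).choose (j + 1) = b * (b * j + (b - 1)).choose j := by
      have h3 : (j + 1) * (b * (j + 1)).choose (j + 1) =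
          (j + 1) * (b * (b * j + (b - 1)).choose j) := by
        rw [mul_comm (j + 1) ((b * (j + 1)).choose (j + 1)), ← h1]
        ring
      exact Nat.eq_of_mul_eq_mul_left (Nat.succ_pos j) h3
    rw [h2, pow_succ, mul_comm]
    exact Nat.mul_le_mul_left b (ih.trans (Nat.choose_le_choose j (Nat.le_add_right _ _)))

theorem growth_gt {G : Type*} [Group G] {S : Finset G} {v : ℝ} (hv : 1 < v) {a : ℕ} (ha : 0 < a)
    (ℓ k₀ : ℕ) (h : ∀ k, k₀ ≤ k → ∀ m M : ℕ, M * a ≤ k →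
      v ^ k / 2 * (M.choose m : ℝ) ≤ growthFn S (k + m * ℓ)) : v < growthRate S := by
  by_contra hcon
  rw [not_lt] at hcon
  have hv0 : 0 < v := lt_trans zero_lt_one hv
  obtain ⟨b, hb⟩ := exists_nat_gt (v ^ ℓ)
  have hb0 : 0 < b := by
    have h1 : (0 : ℝ) < b := lt_trans (pow_pos hv0 ℓ) hb
    exact_mod_cast h1
  have hA : v ^ (a * b + ℓ) < v ^ (a * b) * b := by
    rw [pow_add]
    exact mul_lt_mul_of_pos_left hb (pow_pos hv0 _)
  have hev : ∀ᶠ w : ℝ in nhds v, w ^ (a * b + ℓ) < v ^ (a * b) * b :=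
    ((continuous_pow (a * b + ℓ)).tendsto v).eventually (gt_mem_nhds hA)
  obtain ⟨w, hw1, hw2⟩ := ((hev.filter_mono (nhdsWithin_le_nhds (s := Set.Ioi v))).and
    self_mem_nhdsWithin).exists
  have hw0 : 0 < w := lt_trans hv0 hw2
  have he : 0 < a * b + ℓ := by positivity
  have hr := growthFn_eventually_le S (lt_of_le_of_lt hcon hw2)
  have htend : Filter.Tendsto (fun j : ℕ => j * (a * b + ℓ)) Filter.atTop Filter.atTop :=
    Filter.tendsto_id.atTop_mul_const' he
  have hr' := htend.eventually hr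
  have hq : 1 < v ^ (a * b) * b / w ^ (a * b + ℓ) := by
    rw [one_lt_div (pow_pos hw0 _)]
    exact hw1
  have hinf := (tendsto_pow_atTop_atTop_of_one_lt hq).eventually_gt_atTop 2
  obtain ⟨j, hj1, hj2, hj3⟩ := (hr'.and (hinf.and (Filter.eventually_ge_atTop k₀))).exists
  have hk : k₀ ≤ j * (a * b) := by
    have h1 : 1 ≤ a * b := Nat.mul_pos ha hb0
    calc k₀ ≤ j := hj3
      _ = j * 1 := (mul_one j).symm
      _ ≤ j * (a * b) := Nat.mul_le_mul_left j h1
  have h1 := h (j * (a * b)) hk j (b * j) (le_of_eq (by ring))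
  have h2 : j * (a * b) + j * ℓ = j * (a * b + ℓ) := by ring
  rw [h2] at h1
  have h3 : ((b : ℝ)) ^ j ≤ ((b * j).choose j : ℝ) := by
    exact_mod_cast choose_ge b j hb0
  have h4 : v ^ (j * (a * b)) / 2 * (b : ℝ) ^ j ≤ w ^ (j * (a * b + ℓ)) :=
    (mul_le_mul_of_nonneg_left h3 (by positivity)).trans (h1.trans hj1)
  rw [div_pow, lt_div_iff₀ (pow_pos (pow_pos hw0 _) _), mul_pow, ← pow_mul, ← pow_mul,
    mul_comm (a * b) j, mul_comm (a * b + ℓ) j] at hj2
  have h5 : v ^ (j * (a * b)) / 2 * (b : ℝ) ^ j = v ^ (j * (a * b)) * (b : ℝ) ^ j / 2 := by ring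
  rw [h5] at h4
  linarith

end Pool.Agent.MinSig
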