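import Pool.Agent.MinSig.DefsB

/-!
# MinSig UpA: the marked groups generated by given words

PROOF.  `mem_clopen`: the preimage of a point under the continuous map
`N ↦ decide (w ∈ N.1)` (`continuous_induced_dom`, `continuous_apply`, `isClopen_discrete`).
`gen_iff`: the image of `S` generates the quotient iff for every `i : Fin m` there is a word
`v ∈ Subgroup.closure S` with `mkN N v = mkN N (of i)`, that is `(of i) * v⁻¹ ∈ N.1`: the closure
of
the image is the image of the closure (`MonoidHom.map_closure`, `Finset.coe_image`); it is `⊤`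
iff it
contains the images of the generators `of i` (`FreeGroup.closure_range_of`, `mkN_surjective`).
`gen_open`: by `gen_iff` a finite intersection (over `i : Fin m`) of unions of open sets
(`isOpen_iInter_of_finite`, `isOpen_iUnion`).
`gen_compl`: the complement is a finite union (over `i`) of countable intersections of clopen
sets;
`IsGδ.iUnion` for a finite index type (or `IsGδ.union` and induction), `IsGδ.iInter_of_isOpen`,
the
subgroup `closure S` is countable because `FreeGroup (Fin m)` is countable.
-/

set_option autoImplicit false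

namespace Pool.Agent.MinSig

theorem mem_clopen {m : ℕ} (w : FreeGroup (Fin m)) :
    IsClopen {N : MarkedGroup m | w ∈ N.1} := by
  have hc : Continuous (fun (N : MarkedGroup m) (w : FreeGroup (Fin m)) =>
      @decide (w ∈ N.1) (Classical.propDecidable _)) := continuous_induced_dom
  have h1 : Continuous (fun N : MarkedGroup m =>
      @decide (w ∈ N.1) (Classical.propDecidable _)) := (continuous_apply w).comp hc
  have h2 : {N : MarkedGroup m | w ∈ N.1} = (fun N : MarkedGroup m =>
      @decide (w ∈ N.1) (Classical.propDecidable _)) ⁻¹' {true} := by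
    ext N
    exact (@decide_eq_true_iff _ (Classical.propDecidable _)).symm
  rw [h2]
  exact (isClopen_discrete _).preimage h1

theorem continuous_marked {m : ℕ} {X : Type*} [TopologicalSpace X] {Φ : X → MarkedGroup m}
    (h : ∀ w, IsClopen {x | w ∈ (Φ x).1}) : Continuous Φ := by
  refine continuous_induced_rng.2 (continuous_pi fun w => ?_)
  refine (continuous_bool_rng true).2 ?_
  have h2 : ((fun x => ((fun (N : MarkedGroup m) (w : FreeGroup (Fin m)) =>
      @decide (w ∈ N.1) (Classical.propDecidable _)) ∘ Φ) x w) ⁻¹' {true}) =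
      {x | w ∈ (Φ x).1} := by
    ext x
    exact @decide_eq_true_iff _ (Classical.propDecidable _)
  rw [h2]
  exact h w

theorem gen_iff {m : ℕ} (S : Finset (FreeGroup (Fin m))) (N : MarkedGroup m) :
    N ∈ Gen m S ↔ ∀ i : Fin m, ∃ v ∈ Subgroup.closure (S : Set (FreeGroup (Fin m))),
      FreeGroup.of i * v⁻¹ ∈ N.1 := by
  have h0 : Subgroup.closure (im N S : Set N.grp) =
      (Subgroup.closure (S : Set (FreeGroup (Fin m)))).map (mkN N) := by
    classical
    unfold im
    rw [MonoidHom.map_closure, Finset.coe_image]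
  have h1 : N ∈ Gen m S ↔
      (Subgroup.closure (S : Set (FreeGroup (Fin m)))).map (mkN N) = ⊤ := by
    unfold Gen
    rw [Set.mem_ofPred_eq, h0]
  rw [h1]
  constructor
  · intro h i
    have h2 : mkN N (FreeGroup.of i) ∈
        (Subgroup.closure (S : Set (FreeGroup (Fin m)))).map (mkN N) := by
      rw [h]
      exact Subgroup.mem_top _
    obtain ⟨v, hv, hv'⟩ := h2
    refine ⟨v, hv, (mkN_eq_one N _).1 ?_⟩
    rw [map_mul, map_inv, hv', mul_inv_cancel]
  · intro h
    rw [eq_top_iff]
    intro x _
    obtain ⟨w, rfl⟩ := mkN_surjective N x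
    have h2 : Subgroup.closure (Set.range (FreeGroup.of : Fin m → FreeGroup (Fin m))) ≤
        ((Subgroup.closure (S : Set (FreeGroup (Fin m)))).map (mkN N)).comap (mkN N) := by
      rw [Subgroup.closure_le]
      rintro _ ⟨i, rfl⟩
      obtain ⟨v, hv, hv'⟩ := h i
      refine ⟨v, hv, ?_⟩
      have h3 := (mkN_eq_one N _).2 hv'
      rw [map_mul, map_inv, mul_inv_eq_one] at h3
      exact h3.symm
    rw [FreeGroup.closure_range_of] at h2
    exact h2 (Subgroup.mem_top w)

theorem gen_open {m : ℕ} (S : Finset (FreeGroup (Fin m))) : IsOpen (Gen m S) := by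
  have h1 : Gen m S = ⋂ i : Fin m, ⋃ v ∈ Subgroup.closure (S : Set (FreeGroup (Fin m))),
      {N : MarkedGroup m | FreeGroup.of i * v⁻¹ ∈ N.1} := by
    ext N
    rw [gen_iff]
    simp only [Set.mem_iInter, Set.mem_iUnion, Set.mem_ofPred_eq, exists_prop]
  rw [h1]
  exact isOpen_iInter_of_finite fun i => isOpen_biUnion fun v _ => (mem_clopen _).isOpen

theorem gen_compl {m : ℕ} (S : Finset (FreeGroup (Fin m))) : IsGδ (Gen m S)ᶜ := by
  have h1 : (Gen m S)ᶜ = ⋃ i : Fin m,
      ⋂ v ∈ (Subgroup.closure (S : Set (FreeGroup (Fin m))) : Set (FreeGroup (Fin m))),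
      {N : MarkedGroup m | FreeGroup.of i * v⁻¹ ∈ N.1}ᶜ := by
    ext N
    rw [Set.mem_compl_iff, gen_iff]
    simp only [Set.mem_iInter, Set.mem_iUnion, Set.mem_ofPred_eq, Set.mem_compl_iff,
      SetLike.mem_coe, not_forall, not_exists, not_and]
  have h2 : Countable (FreeGroup (Fin m)) :=
    inferInstanceAs (Countable (Quot (FreeGroup.Red.Step (α := Fin m))))
  rw [h1]
  exact IsGδ.iUnion fun i => IsGδ.biInter (Set.to_countable _) fun v _ =>
    ((mem_clopen _).compl.isOpen).isGδ

end Pool.Agent.MinSig
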