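import Pool.Agent.MinSig.UpA

/-!
# MinSig UpB: comparison of growth rates

PROOF.  `growth_loc`: `growthFn (im N S) k = (mkN N '' W).ncard` with the finite set
`W = wordBall S k` (`wordBall_image`, `Finset.coe_image`, `wordBall_finite`).  The number of the
elements of `mkN N '' W` depends only on the truth values of `v⁻¹ * w ∈ N.1` for `v, w ∈ W`
(`QuotientGroup.eq`): if they agree for `N` and `N'` then `mkN N v ↦ mkN N' v` is a well defined
bijection of the images (`Set.ncard_congr`, or two inequalities with `Set.ncard_le_ncard_of_injOn`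
after choosing preimages).  The set of the `N'` which agree with `N` is open (a finite
intersection of clopen sets, `mem_clopen`).  So `{N | growthFn (im N S) k = c}` is open for all
`c` (it contains with each point an open neighborhood), and `{N | p (growthFn (im N S) k)}` is
open for every property `p` (union over `c`), hence clopen (complement).
`rate_lt_iff`: if `growthRate S < r` take `r'` with `growthRate S < r' < r`, `0 < r'`
(`growthRate_pos`); `growthFn S k ≤ r' ^ k < r ^ k` for some `k ≥ 1` (`growthFn_eventually_le`,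
`pow_lt_pow_left₀`).  Conversely `growthRate S ^ k ≤ growthFn S k < r ^ k` (`growthRate_pow_le`)
gives `growthRate S < r` (`lt_of_pow_lt_pow_left₀`).
`rate_le_iff`: density of the rational numbers; `growthRate` is positive.
`cmp_gdelta`: by `rate_le_iff` the set is the intersection over the rational numbers `q > 0` of
`{growthRate (im N S') ≥ q} ∪ {growthRate (im N S) < q}`.  By `rate_lt_iff` the second set is open
(a union of clopen sets) and the first one is a countable intersection of clopen sets, so `IsGδ`;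
`IsGδ.union`, `IsGδ.iInter` over the countable type `{q : ℚ // 0 < q}`.
-/

set_option autoImplicit false

namespace Pool.Agent.MinSig

open Pool.Agent.MinGrowth

private theorem growth_im {m : ℕ} (S : Finset (FreeGroup (Fin m))) (k : ℕ)
    (N : MarkedGroup m) :
    growthFn (im N S) k = (mkN N '' wordBall (S : Set (FreeGroup (Fin m))) k).ncard := by
  classical
  unfold growthFn im
  rw [Finset.coe_image, wordBall_image]

private theorem ncard_le_of_agree {m : ℕ} {W : Set (FreeGroup (Fin m))} (hW : W.Finite)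
    {N N' : MarkedGroup m}
    (h : ∀ v ∈ W, ∀ w ∈ W, v⁻¹ * w ∈ N'.1 → v⁻¹ * w ∈ N.1) :
    (mkN N '' W).ncard ≤ (mkN N' '' W).ncard := by
  classical
  have hc : ∀ x : N.grp, ∃ v, x ∈ mkN N '' W → v ∈ W ∧ mkN N v = x := by
    intro x
    by_cases hx : x ∈ mkN N '' W
    · obtain ⟨v, hv, hvx⟩ := hx
      exact ⟨v, fun _ => ⟨hv, hvx⟩⟩
    · exact ⟨1, fun h1 => absurd h1 hx⟩
  choose g hg using hc
  refine Set.ncard_le_ncard_of_injOn (fun x => mkN N' (g x)) ?_ ?_ (hW.image _)
  · intro x hx
    exact ⟨g x, (hg x hx).1, rfl⟩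
  · intro x hx y hy hxy
    have h1 : (g x)⁻¹ * g y ∈ N'.1 := by
      rw [← mkN_eq_one, map_mul, map_inv]
      have : mkN N' (g x) = mkN N' (g y) := hxy
      rw [this, inv_mul_cancel]
    have h2 := h _ (hg x hx).1 _ (hg y hy).1 h1
    rw [← mkN_eq_one, map_mul, map_inv, inv_mul_eq_one] at h2
    rw [← (hg x hx).2, ← (hg y hy).2, h2]

private theorem growth_open {m : ℕ} (S : Finset (FreeGroup (Fin m))) (k : ℕ) (p : ℕ → Prop) :
    IsOpen {N : MarkedGroup m | p (growthFn (im N S) k)} := by
  rw [isOpen_iff_forall_mem_open]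
  intro N hN
  have hW : (wordBall (S : Set (FreeGroup (Fin m))) k).Finite :=
    wordBall_finite S.finite_toSet k
  refine ⟨⋂ v ∈ wordBall (S : Set (FreeGroup (Fin m))) k,
    ⋂ w ∈ wordBall (S : Set (FreeGroup (Fin m))) k,
      {N' : MarkedGroup m | v⁻¹ * w ∈ N'.1 ↔ v⁻¹ * w ∈ N.1}, ?_, ?_, ?_⟩
  · intro N' hN'
    simp only [Set.mem_iInter, Set.mem_setOf_eq] at hN'
    have h1 : growthFn (im N' S) k = growthFn (im N S) k := by
      rw [growth_im, growth_im]
      apply le_antisymm
      · exact ncard_le_of_agree hW fun v hv w hw h2 => (hN' v hv w hw).2 h2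
      · exact ncard_le_of_agree hW fun v hv w hw h2 => (hN' v hv w hw).1 h2
    change p (growthFn (im N' S) k)
    rw [h1]
    exact hN
  · refine hW.isOpen_biInter fun v _ => hW.isOpen_biInter fun w _ => ?_
    by_cases h1 : v⁻¹ * w ∈ N.1
    · have h2 : {N' : MarkedGroup m | v⁻¹ * w ∈ N'.1 ↔ v⁻¹ * w ∈ N.1}
          = {N' : MarkedGroup m | v⁻¹ * w ∈ N'.1} := by
        ext N'
        simp [h1]
      rw [h2]
      exact (mem_clopen _).isOpen
    · have h2 : {N' : MarkedGroup m | v⁻¹ * w ∈ N'.1 ↔ v⁻¹ * w ∈ N.1}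
          = {N' : MarkedGroup m | v⁻¹ * w ∈ N'.1}ᶜ := by
        ext N'
        simp [h1]
      rw [h2]
      exact (mem_clopen _).compl.isOpen
  · simp

theorem growth_loc {m : ℕ} (S : Finset (FreeGroup (Fin m))) (k : ℕ) (p : ℕ → Prop) :
    IsClopen {N : MarkedGroup m | p (growthFn (im N S) k)} := by
  refine ⟨?_, growth_open S k p⟩
  rw [← isOpen_compl_iff]
  exact growth_open S k fun n => ¬ p n

theorem rate_lt_iff {G : Type*} [Group G] (S : Finset G) {r : ℝ} (hr : 0 < r) :
    growthRate S < r ↔ ∃ k : ℕ, 1 ≤ k ∧ (growthFn S k : ℝ) < r ^ k := by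
  constructor
  · intro h
    obtain ⟨r', h1, h2⟩ := exists_between h
    have h3 : 0 < r' := (growthRate_pos S).trans h1
    obtain ⟨k, hk, hk1⟩ :=
      ((growthFn_eventually_le S h1).and (Filter.eventually_ge_atTop 1)).exists
    refine ⟨k, hk1, hk.trans_lt ?_⟩
    exact pow_lt_pow_left₀ h2 h3.le (by omega)
  · rintro ⟨k, hk, h⟩
    exact lt_of_pow_lt_pow_left₀ k hr.le ((growthRate_pow_le S k).trans_lt h)

theorem rate_le_iff {G : Type*} [Group G] (S S' : Finset G) : growthRate S ≤ growthRate S' ↔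
    ∀ q : ℚ, 0 < q → ((q : ℝ) ≤ growthRate S' ∨ growthRate S < (q : ℝ)) := by
  constructor
  · intro h q _
    rcases le_or_gt (q : ℝ) (growthRate S') with h1 | h1
    · exact Or.inl h1
    · exact Or.inr (h.trans_lt h1)
  · intro h
    by_contra h1
    push Not at h1
    obtain ⟨q, h2, h3⟩ := exists_rat_btwn h1
    have h4 : (0 : ℝ) < q := (growthRate_pos S').trans h2
    rcases h q (by exact_mod_cast h4) with h5 | h5
    · exact absurd h2 (not_lt.2 h5)
    · exact absurd h3 (not_lt.2 h5.le)

private theorem lt_open {m : ℕ} (S : Finset (FreeGroup (Fin m))) {r : ℝ} (hr : 0 < r) :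
    IsOpen {N : MarkedGroup m | growthRate (im N S) < r} := by
  have h1 : {N : MarkedGroup m | growthRate (im N S) < r}
      = ⋃ k : ℕ, {N : MarkedGroup m | 1 ≤ k ∧ (growthFn (im N S) k : ℝ) < r ^ k} := by
    ext N
    simp only [Set.mem_setOf_eq, Set.mem_iUnion]
    exact rate_lt_iff (im N S) hr
  rw [h1]
  exact isOpen_iUnion fun k => growth_open S k fun n => 1 ≤ k ∧ (n : ℝ) < r ^ k

private theorem ge_gdelta {m : ℕ} (S : Finset (FreeGroup (Fin m))) {r : ℝ} (hr : 0 < r) :
    IsGδ {N : MarkedGroup m | r ≤ growthRate (im N S)} := by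
  have h1 : {N : MarkedGroup m | r ≤ growthRate (im N S)}
      = ⋂ k : ℕ, {N : MarkedGroup m | ¬ (1 ≤ k ∧ (growthFn (im N S) k : ℝ) < r ^ k)} := by
    ext N
    simp only [Set.mem_setOf_eq, Set.mem_iInter]
    rw [← not_lt, rate_lt_iff (im N S) hr, not_exists]
  rw [h1]
  exact IsGδ.iInter_of_isOpen fun k =>
    growth_open S k fun n => ¬ (1 ≤ k ∧ (n : ℝ) < r ^ k)

theorem cmp_gdelta {m : ℕ} (S S' : Finset (FreeGroup (Fin m))) :
    IsGδ {N : MarkedGroup m | growthRate (im N S) ≤ growthRate (im N S')} := by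
  have h1 : {N : MarkedGroup m | growthRate (im N S) ≤ growthRate (im N S')}
      = ⋂ q : {q : ℚ // 0 < q}, ({N : MarkedGroup m | ((q : ℚ) : ℝ) ≤ growthRate (im N S')} ∪
        {N : MarkedGroup m | growthRate (im N S) < ((q : ℚ) : ℝ)}) := by
    ext N
    simp only [Set.mem_setOf_eq, Set.mem_iInter, Set.mem_union]
    rw [rate_le_iff]
    exact ⟨fun h q => h q.1 q.2, fun h q hq => h ⟨q, hq⟩⟩
  rw [h1]
  refine IsGδ.iInter fun q => ?_
  have hq : (0 : ℝ) < ((q : ℚ) : ℝ) := by exact_mod_cast q.2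
  exact (ge_gdelta S' hq).union (lt_open S hq).isGδ

end Pool.Agent.MinSig
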