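import Pool.Agent.MinSig.Defs

/-!
# MinSig Words: the homomorphisms on words

`FreeGroup.mk l` is the element of `F` given by the list `l` of letters (`true`: the generator,
`false`: its inverse).

PROOF.  `FreeGroup.mk (s :: l) = FreeGroup.mk [s] * FreeGroup.mk l`, so everything is an
induction on
`l` from the left with the values on one letter (`Wreath.mul_lamp`, `Wreath.mul_pos`,
`Wreath.inv_lamp`):
* `blk D e μ (mk [(none, true)])`: position `site D 1`, the lamp at `β` is `lam μ zw ^ e` if
  `β = site D 0`, otherwise `1`;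
* `blk D e μ (mk [(none, false)])`: position `site D (-1)`, the lamp at `β` is `(lam μ zw ^ e)⁻¹`
if
  `β = site D (-1)`, otherwise `1`;
* `blk D e μ (mk [(some i, b)])`: position `1`, the lamp at `site D ((i + 1) D)` is
  `alpha μ i ^ ±1` (`i < 4`), all others are `1`.
`site D x = site D y ↔ 8 D ∣ x - y` (`ZMod.intCast_eq_intCast_iff_dvd_sub` or
`ZMod.intCast_zmod_eq_zero_iff_dvd`), `site D x * site D y = site D (x + y)`.
`blk_lamp`: `(g * h).lamp β = g.lamp β * h.lamp (g.pos⁻¹ * β)` with `β = site D (-y)`,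
`g = blk D e μ (mk [s])`, `g.pos = site D (dh s)`, so `g.pos⁻¹ * β = site D (-(y + dh s))`, and
`g.lamp (site D (-y)) = cst D e μ y s` in the three cases: `-y ≡ 0`, `-y ≡ -1`, `-y ≡ (i + 1) D`.
`base_lamp` is proved for a general starting height: `(base (mk l)).lamp (ofAdd (x - y)) i` is
`es i x y l` modulo `3`; `es_shift`.  (`Lp.gA 3 i = lampEmb 1 (Pi.mulSingle i (ofAdd 1))`,
`Lp.gT = posEmb (ofAdd 1)`.)
`lamp_word`, `pos_word`: the letters of the words `blkW D e w`, `Wreath.map`.
-/

set_option autoImplicit false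

namespace Pool.Agent.MinSig

open Pool.Agent.MinGrowth Multiplicative

theorem site_mul (D : ℕ) (x y : ℤ) : site D x * site D y = site D (x + y) := by
  unfold site
  rw [← ofAdd_add, Int.cast_add]

theorem site_inv (D : ℕ) (x : ℤ) : (site D x)⁻¹ = site D (-x) := by
  unfold site
  rw [← ofAdd_neg, Int.cast_neg]

theorem site_zero (D : ℕ) : site D 0 = 1 := by
  unfold site
  rw [Int.cast_zero, ofAdd_zero]

theorem site_eq (D : ℕ) (x y : ℤ) : site D x = site D y ↔ ((8 * D : ℕ) : ℤ) ∣ x - y := by
  unfold site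
  rw [ofAdd.injective.eq_iff, ZMod.intCast_eq_intCast_iff_dvd_sub, ← dvd_neg, neg_sub]

theorem site_surj (D : ℕ) (c : Zm D) : ∃ x : ℤ, c = site D x := by
  obtain ⟨x, hx⟩ := ZMod.intCast_surjective (toAdd c)
  refine ⟨x, ?_⟩
  unfold site
  rw [hx, ofAdd_toAdd]

theorem hh_append (l l' : List (Option (Fin 7) × Bool)) : hh (l ++ l') = hh l + hh l' := by
  induction l with
  | nil => simp [hh]
  | cons s l ih => simp only [List.cons_append, hh, ih]; ring

theorem hh_le (l : List (Option (Fin 7) × Bool)) : |hh l| ≤ l.length := by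
  induction l with
  | nil => simp [hh]
  | cons s l ih =>
    have h1 : |dh s| ≤ 1 := by
      unfold dh
      split_ifs <;> simp
    have h2 := abs_add_le (dh s) (hh l)
    simp only [hh, List.length_cons, Nat.cast_add, Nat.cast_one]
    linarith

theorem ctr_append (D e : ℕ) (μ : Option ℕ) (y : ℤ) (l l' : List (Option (Fin 7) × Bool)) :
    ctr D e μ y (l ++ l') = ctr D e μ y l * ctr D e μ (y + hh l) l' := by
  induction l generalizing y with
  | nil => simp [ctr, hh]
  | cons s l ih =>
    simp only [List.cons_append, ctr, hh, ih]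
    rw [mul_assoc, add_assoc]

theorem es_shift (i : Fin 7) (x y z : ℤ) (l : List (Option (Fin 7) × Bool)) :
    es i (x + z) (y + z) l = es i x y l := by
  induction l generalizing y with
  | nil => simp [es]
  | cons s l ih =>
    have h1 : y + z + dh s = y + dh s + z := by ring
    simp only [es, h1, ih, add_left_inj]

/-- the first letter -/
private theorem mk_cons (s : Option (Fin 7) × Bool) (l : List (Option (Fin 7) × Bool)) :
    (FreeGroup.mk (s :: l) : F) = FreeGroup.mk [s] * FreeGroup.mk l := by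
  rw [FreeGroup.mul_mk]
  rfl

private theorem mk_true (g : Option (Fin 7)) :
    (FreeGroup.mk [(g, true)] : F) = FreeGroup.of g := rfl

private theorem mk_false (g : Option (Fin 7)) :
    (FreeGroup.mk [(g, false)] : F) = (FreeGroup.of g)⁻¹ := rfl

private theorem blkW_none (D e : ℕ) : blkW D e (FreeGroup.of none) =
    Wreath.lampEmb (site D 0) (zw ^ e) * Wreath.posEmb (site D 1) := by
  unfold blkW
  rw [FreeGroup.lift_apply_of]

private theorem blkW_lt (D e : ℕ) (i : Fin 7) (h : (i : ℕ) < 4) :
    blkW D e (FreeGroup.of (some i)) =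
    Wreath.lampEmb (site D (((i : ℕ) + 1) * D)) (FreeGroup.of ⟨i, h⟩) := by
  unfold blkW
  rw [FreeGroup.lift_apply_of]
  simp only [h, dif_pos]

private theorem blkW_ge (D e : ℕ) (i : Fin 7) (h : ¬ (i : ℕ) < 4) :
    blkW D e (FreeGroup.of (some i)) = 1 := by
  unfold blkW
  rw [FreeGroup.lift_apply_of]
  simp only [h, dif_neg, not_false_eq_true]

/-- the lamps of a block are the values of words which do not depend on `μ` -/
theorem lamp_word (D e : ℕ) (μ : Option ℕ) (w : F) (c : Zm D) :
    (blk D e μ w).lamp c = lam μ ((blkW D e w).lamp c) := rfl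

theorem pos_word (D e : ℕ) (μ : Option ℕ) (w : F) : (blk D e μ w).pos = (blkW D e w).pos := rfl

private theorem blkW_pos_letter (D e : ℕ) (s : Option (Fin 7) × Bool) :
    (blkW D e (FreeGroup.mk [s])).pos = site D (dh s) := by
  obtain ⟨g, b⟩ := s
  rcases g with _ | i
  · cases b
    · rw [mk_false, map_inv, blkW_none]
      simp only [Wreath.inv_pos, Wreath.mul_pos, Wreath.lampEmb_pos, Wreath.posEmb_pos, one_mul]
      rw [site_inv]
      simp [dh]
    · rw [mk_true, blkW_none]
      simp only [Wreath.mul_pos, Wreath.lampEmb_pos, Wreath.posEmb_pos, one_mul]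
      simp [dh]
  · have h0 : dh (some i, b) = 0 := by simp [dh]
    have h1 : (blkW D e (FreeGroup.of (some i))).pos = 1 := by
      by_cases h : (i : ℕ) < 4
      · rw [blkW_lt D e i h, Wreath.lampEmb_pos]
      · rw [blkW_ge D e i h, Wreath.one_pos]
    rw [h0, site_zero]
    cases b
    · rw [mk_false, map_inv, Wreath.inv_pos, h1, inv_one]
    · rw [mk_true, h1]

theorem blk_pos (D e : ℕ) (μ : Option ℕ) (l : List (Option (Fin 7) × Bool)) :
    (blk D e μ (FreeGroup.mk l)).pos = site D (hh l) := by
  rw [pos_word]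
  induction l with
  | nil =>
    rw [← FreeGroup.one_eq_mk, map_one, Wreath.one_pos]
    simp [hh, site_zero]
  | cons s l ih =>
    rw [mk_cons, map_mul, Wreath.mul_pos, ih, blkW_pos_letter, site_mul]
    rfl

/-- the lamps of one letter -/
private theorem lamp_letter (D e : ℕ) (μ : Option ℕ) (s : Option (Fin 7) × Bool) (y : ℤ) :
    (blk D e μ (FreeGroup.mk [s])).lamp (site D (-y)) = cst D e μ y s := by
  rw [lamp_word]
  obtain ⟨g, b⟩ := s
  rcases g with _ | i
  · cases b
    · rw [mk_false, map_inv, blkW_none]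
      simp only [Wreath.inv_lamp, Wreath.mul_lamp, Wreath.mul_pos, Wreath.lampEmb_pos,
        Wreath.posEmb_pos, Wreath.posEmb_lamp, one_mul, mul_one]
      rw [site_mul, map_inv]
      have h1 : site D (1 + -y) = site D 0 ↔ ((8 * D : ℕ) : ℤ) ∣ y - 1 := by
        rw [site_eq, sub_zero, ← dvd_neg]
        have h2 : -(1 + -y) = y - 1 := by ring
        rw [h2]
      simp only [cst, Bool.false_eq_true, if_false]
      by_cases h3 : ((8 * D : ℕ) : ℤ) ∣ y - 1
      · rw [if_pos h3, h1.2 h3, Wreath.lampEmb_lamp_same, map_pow]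
      · rw [if_neg h3, Wreath.lampEmb_lamp_ne (fun h4 => h3 (h1.1 h4)), map_one, inv_one]
    · rw [mk_true, blkW_none]
      simp only [Wreath.mul_lamp, Wreath.posEmb_lamp, mul_one]
      have h1 : site D (-y) = site D 0 ↔ ((8 * D : ℕ) : ℤ) ∣ y := by
        rw [site_eq, sub_zero, dvd_neg]
      simp only [cst, if_true]
      by_cases h3 : ((8 * D : ℕ) : ℤ) ∣ y
      · rw [if_pos h3, h1.2 h3, Wreath.lampEmb_lamp_same, map_pow]
      · rw [if_neg h3, Wreath.lampEmb_lamp_ne (fun h4 => h3 (h1.1 h4)), map_one]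
  · by_cases h : (i : ℕ) < 4
    · have h1 : site D (-y) = site D (((i : ℕ) + 1) * D) ↔
          ((8 * D : ℕ) : ℤ) ∣ y + ((i : ℕ) + 1) * D := by
        rw [site_eq, ← dvd_neg]
        have h2 : -(-y - (((i : ℕ) : ℤ) + 1) * D) = y + ((i : ℕ) + 1) * D := by ring
        rw [h2]
      have h5 : lam μ ((blkW D e (FreeGroup.of (some i))).lamp (site D (-y))) =
          if ((8 * D : ℕ) : ℤ) ∣ y + ((i : ℕ) + 1) * D then alpha μ ⟨i, h⟩ else 1 := by
        rw [blkW_lt D e i h]
        by_cases h3 : ((8 * D : ℕ) : ℤ) ∣ y + ((i : ℕ) + 1) * D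
        · rw [if_pos h3, h1.2 h3, Wreath.lampEmb_lamp_same]
          unfold lam
          rw [FreeGroup.lift_apply_of]
        · rw [if_neg h3, Wreath.lampEmb_lamp_ne (fun h4 => h3 (h1.1 h4)), map_one]
      have h6 : (blkW D e (FreeGroup.of (some i))).pos = 1 := by
        rw [blkW_lt D e i h, Wreath.lampEmb_pos]
      cases b
      · rw [mk_false, map_inv, Wreath.inv_lamp, h6, one_mul, map_inv, h5]
        simp only [cst, h, dif_pos, Bool.false_eq_true, if_false]
        split_ifs
        · rfl
        · rw [inv_one]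
      · rw [mk_true, h5]
        simp only [cst, h, dif_pos, if_true]
    · cases b
      · rw [mk_false, map_inv, blkW_ge D e i h, inv_one, Wreath.one_lamp, map_one]
        simp only [cst, h, dif_neg, not_false_eq_true]
      · rw [mk_true, blkW_ge D e i h, Wreath.one_lamp, map_one]
        simp only [cst, h, dif_neg, not_false_eq_true]

theorem blk_lamp (D e : ℕ) (μ : Option ℕ) (l : List (Option (Fin 7) × Bool)) (y : ℤ) :
    (blk D e μ (FreeGroup.mk l)).lamp (site D (-y)) = ctr D e μ y l := by
  induction l generalizing y with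
  | nil =>
    rw [← FreeGroup.one_eq_mk, map_one, Wreath.one_lamp]
    rfl
  | cons s l ih =>
    rw [mk_cons, map_mul, Wreath.mul_lamp, lamp_letter, pos_word, blkW_pos_letter, site_inv,
      site_mul]
    have h1 : -dh s + -y = -(y + dh s) := by ring
    rw [h1, ih]
    rfl

private theorem base_none : base (FreeGroup.of none) = Lp.gT 3 (Fin 7) := by
  unfold base
  rw [FreeGroup.lift_apply_of]

private theorem base_some (i : Fin 7) : base (FreeGroup.of (some i)) = Lp.gA 3 i := by
  unfold base
  rw [FreeGroup.lift_apply_of]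

private theorem base_pos_letter (s : Option (Fin 7) × Bool) :
    (base (FreeGroup.mk [s])).pos = ofAdd (dh s) := by
  obtain ⟨g, b⟩ := s
  rcases g with _ | i
  · cases b
    · rw [mk_false, map_inv, base_none]
      rfl
    · rw [mk_true, base_none]
      rfl
  · cases b
    · rw [mk_false, map_inv, base_some]
      rfl
    · rw [mk_true, base_some]
      rfl

theorem base_pos (l : List (Option (Fin 7) × Bool)) :
    (base (FreeGroup.mk l)).pos = ofAdd (hh l) := by
  induction l with
  | nil =>
    rw [← FreeGroup.one_eq_mk, map_one, Wreath.one_pos]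
    rfl
  | cons s l ih =>
    rw [mk_cons, map_mul, Wreath.mul_pos, ih, base_pos_letter]
    rfl

private theorem gA_lamp (j i : Fin 7) (x : ℤ) :
    (Lp.gA 3 j).lamp (ofAdd x) i =
      ofAdd (((if j = i ∧ x = 0 then 1 else 0 : ℤ) : ℤ) : ZMod 3) := by
  unfold Lp.gA
  by_cases h1 : x = 0
  · subst h1
    have h2 : (ofAdd (0 : ℤ) : Cinf) = 1 := rfl
    rw [h2, Wreath.lampEmb_lamp_same]
    by_cases h3 : j = i
    · subst h3
      simp
    · rw [Pi.mulSingle_eq_of_ne (Ne.symm h3)]
      simp [h3]
  · rw [Wreath.lampEmb_lamp_ne]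
    · simp [h1]
    · intro h2
      exact h1 (ofAdd.injective h2)

private theorem base_lamp_letter (s : Option (Fin 7) × Bool) (x : ℤ) (i : Fin 7) :
    (base (FreeGroup.mk [s])).lamp (ofAdd x) i =
      ofAdd (((if s.1 = some i ∧ x = 0 then (if s.2 then 1 else -1) else 0 : ℤ) : ℤ) :
        ZMod 3) := by
  obtain ⟨g, b⟩ := s
  rcases g with _ | j
  · cases b
    · rw [mk_false, map_inv, base_none]
      simp [Lp.gT]
    · rw [mk_true, base_none]
      simp [Lp.gT]
  · have h0 : (Lp.gA 3 j).pos = 1 := rfl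
    cases b
    · rw [mk_false, map_inv, base_some, Wreath.inv_lamp, h0, one_mul, Pi.inv_apply, gA_lamp,
        ← ofAdd_neg, ← Int.cast_neg]
      congr 2
      by_cases h3 : j = i ∧ x = 0
      · have h4 : some j = some i ∧ x = 0 := ⟨congrArg some h3.1, h3.2⟩
        rw [if_pos h3, if_pos h4]
        simp
      · have h4 : ¬ (some j = some i ∧ x = 0) := fun h5 => h3 ⟨Option.some.inj h5.1, h5.2⟩
        rw [if_neg h3, if_neg h4]
        simp
    · rw [mk_true, base_some, gA_lamp]
      congr 2
      by_cases h3 : j = i ∧ x = 0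
      · have h4 : some j = some i ∧ x = 0 := ⟨congrArg some h3.1, h3.2⟩
        rw [if_pos h3, if_pos h4]
        simp
      · have h4 : ¬ (some j = some i ∧ x = 0) := fun h5 => h3 ⟨Option.some.inj h5.1, h5.2⟩
        rw [if_neg h3, if_neg h4]

private theorem base_lamp_aux (l : List (Option (Fin 7) × Bool)) (x y : ℤ) (i : Fin 7) :
    (base (FreeGroup.mk l)).lamp (ofAdd (x - y)) i = ofAdd ((es i x y l : ℤ) : ZMod 3) := by
  induction l generalizing y with
  | nil =>
    rw [← FreeGroup.one_eq_mk, map_one, Wreath.one_lamp]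
    simp [es]
  | cons s l ih =>
    rw [mk_cons, map_mul, Wreath.mul_lamp, Pi.mul_apply, base_lamp_letter, base_pos_letter]
    have h1 : (ofAdd (dh s) : Cinf)⁻¹ * ofAdd (x - y) = ofAdd (x - (y + dh s)) := by
      rw [← ofAdd_neg, ← ofAdd_add]
      congr 1
      ring
    rw [h1, ih, ← ofAdd_add, ← Int.cast_add]
    have h2 : x - y = 0 ↔ y = x := by
      constructor
      · intro h; linarith
      · intro h; linarith
    simp only [es, h2]

theorem base_lamp (l : List (Option (Fin 7) × Bool)) (x : ℤ) (i : Fin 7) :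
    (base (FreeGroup.mk l)).lamp (ofAdd x) i = ofAdd ((es i x 0 l : ℤ) : ZMod 3) := by
  have h := base_lamp_aux l x 0 i
  rw [sub_zero] at h
  exact h

end Pool.Agent.MinSig
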